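import Mathlib

/-!
A free action of the free group of rank two has no almost invariant finitely supported
`l^2`-functions: a quantitative form used for random permutations of the integers.
-/

namespace Pool.Agent.Helper34.FG

open FreeGroup

theorem exists_equivariant {S : Type*} [MulAction (FreeGroup (Fin 2)) S]
    (hfree : ∀ (g : FreeGroup (Fin 2)) (s : S), g • s = s → g = 1) :
    ∃ Φ : S → FreeGroup (Fin 2), ∀ g s, Φ (g • s) = g * Φ s := by
  classical
  let q : S → MulAction.orbitRel.Quotient (FreeGroup (Fin 2)) S := Quotient.mk''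
  have h : ∀ s, ∃ g : FreeGroup (Fin 2), g • (q s).out = s := by
    intro s
    have h1 : (Quotient.mk'' (q s).out : MulAction.orbitRel.Quotient (FreeGroup (Fin 2)) S)
        = q s := Quotient.out_eq' _
    have h2 : MulAction.orbitRel (FreeGroup (Fin 2)) S s (q s).out :=
      Quotient.exact h1.symm
    obtain ⟨g, hg⟩ := h2
    exact ⟨g, hg⟩
  choose Φ hΦ using h
  refine ⟨Φ, fun g s => ?_⟩
  have hq : q (g • s) = q s := by
    apply Quotient.sound
    exact ⟨g, rfl⟩
  have h1 := hΦ (g • s)
  rw [hq] at h1
  have h2 : (g * Φ s) • (q s).out = g • s := by rw [mul_smul, hΦ s]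
  have h3 : ((g * Φ s)⁻¹ * Φ (g • s)) • (q s).out = (q s).out := by
    rw [mul_smul, h1, ← h2, inv_smul_smul]
  have h4 := hfree _ _ h3
  rw [inv_mul_eq_one] at h4
  exact h4.symm

/-- A probability vector on a free `F_2`-set is moved by one of the two generators. -/
theorem one_le_sum_abs {S : Type*} [MulAction (FreeGroup (Fin 2)) S]
    (hfree : ∀ (g : FreeGroup (Fin 2)) (s : S), g • s = s → g = 1)
    (m : S → ℝ) (hm0 : ∀ s, 0 ≤ m s) (hfin : m.support.Finite) (hm1 : ∑' s, m s = 1) :
    1 ≤ ∑ i : Fin 2, ∑' s, |m ((of i)⁻¹ • s) - m s| := by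
  classical
  obtain ⟨Φ, hΦ⟩ := exists_equivariant hfree
  let U : Fin 2 × Bool → S → ℝ := fun w s => if Φ s ∈ startsWith w then 1 else 0
  have hU0 : ∀ w s, 0 ≤ U w s := by
    intro w s; simp only [U]; split_ifs <;> norm_num
  have hU1 : ∀ w s, U w s ≤ 1 := by
    intro w s; simp only [U]; split_ifs <;> norm_num
  have hkey : ∀ (i : Fin 2) (s : S), 1 ≤ U (i, true) (of i • s) + U (i, false) s := by
    intro i s
    by_cases h : Φ s ∈ startsWith (i, false)
    · have : U (i, false) s = 1 := by simp only [U]; rw [if_pos h]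
      have := hU0 (i, true) (of i • s)
      linarith
    · have h1 : Φ (of i • s) ∈ startsWith (i, true) := by
        rw [hΦ]
        exact startsWith_mk_mul (w := (i, true)) (Φ s) (by simpa using h)
      have h2 : U (i, true) (of i • s) = 1 := by simp only [U]; rw [if_pos h1]
      have := hU0 (i, false) s
      linarith
  have hsum : ∀ s, ∑ i : Fin 2, (U (i, true) s + U (i, false) s) ≤ 1 := by
    intro s
    have hdis : ∀ w w', Φ s ∈ startsWith w → Φ s ∈ startsWith w' → w = w' := by
      intro w w' h h'
      by_contra hne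
      have := (startsWith.disjoint_iff_ne (w := w) (w' := w')).2 hne
      exact Set.disjoint_left.1 this h h'
    simp only [Fin.sum_univ_two]
    by_cases h : ∃ w, Φ s ∈ startsWith w
    · obtain ⟨w, hw⟩ := h
      have hz : ∀ w', w' ≠ w → U w' s = 0 := by
        intro w' hne
        simp only [U]
        rw [if_neg]
        intro h'
        exact hne (hdis _ _ h' hw)
      have h1 := hU1 w s
      obtain ⟨i, b⟩ := w
      fin_cases i <;> cases b <;>
        simp only [Fin.zero_eta, Fin.mk_one, Fin.isValue] at hz h1 ⊢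
      · rw [hz (0, true) (by simp), hz (1, true) (by simp), hz (1, false) (by simp)]; linarith
      · rw [hz (0, false) (by simp), hz (1, true) (by simp), hz (1, false) (by simp)]; linarith
      · rw [hz (0, true) (by simp), hz (0, false) (by simp), hz (1, true) (by simp)]; linarith
      · rw [hz (0, true) (by simp), hz (0, false) (by simp), hz (1, false) (by simp)]; linarith
    · push Not at h
      have hz : ∀ w', U w' s = 0 := by
        intro w'
        simp only [U]
        rw [if_neg (h w')]
      simp [hz]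
  -- summability
  have hs : ∀ (c : S → ℝ), Summable (fun s => m s * c s) := by
    intro c
    apply summable_of_hasFiniteSupport
    refine hfin.subset ?_
    intro s hs
    simp only [Function.mem_support] at hs ⊢
    intro h0; apply hs; rw [h0, zero_mul]
  have hs1 : Summable m := summable_of_hasFiniteSupport hfin
  have hfin' : ∀ i : Fin 2, (fun s => m ((of i)⁻¹ • s)).support.Finite := by
    intro i
    have : (fun s => m ((of i)⁻¹ • s)).support = (fun s => (of i)⁻¹ • s) ⁻¹' m.support := rfl
    rw [this]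
    exact hfin.preimage (MulAction.injective _).injOn
  have hs2 : ∀ i : Fin 2, Summable (fun s => |m ((of i)⁻¹ • s) - m s|) := by
    intro i
    apply summable_of_hasFiniteSupport
    refine ((hfin' i).union hfin).subset ?_
    intro s hs
    simp only [Function.mem_support, Set.mem_union] at hs ⊢
    by_contra hcon
    push Not at hcon
    apply hs
    rw [hcon.1, hcon.2]; simp
  -- main inequality for each generator
  have hgen : ∀ i : Fin 2, 1 ≤ ∑' s, m s * (U (i, true) s + U (i, false) s)
      + ∑' s, |m ((of i)⁻¹ • s) - m s| := by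
    intro i
    have e1 : (1 : ℝ) ≤ ∑' s, m s * (U (i, true) (of i • s) + U (i, false) s) := by
      rw [← hm1]
      refine hs1.tsum_le_tsum ?_ (hs _)
      intro s
      have := hkey i s
      have := hm0 s
      nlinarith
    have e2 : ∑' s, m s * (U (i, true) (of i • s) + U (i, false) s)
        = ∑' s, m s * U (i, true) (of i • s) + ∑' s, m s * U (i, false) s := by
      rw [← (hs _).tsum_add (hs _)]
      congr 1; ext s; ring
    have e3 : ∑' s, m s * U (i, true) (of i • s) = ∑' s, m ((of i)⁻¹ • s) * U (i, true) s := by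
      rw [← (MulAction.toPerm (of i) : Equiv.Perm S).tsum_eq
        (fun s => m ((of i)⁻¹ • s) * U (i, true) s)]
      congr 1; ext s
      simp [MulAction.toPerm_apply]
    have hsx : Summable (fun s => m ((of i)⁻¹ • s) * U (i, true) s) := by
      apply summable_of_hasFiniteSupport
      refine (hfin' i).subset ?_
      intro s hs
      simp only [Function.mem_support] at hs ⊢
      intro h0; apply hs; rw [h0, zero_mul]
    have e4 : ∑' s, m ((of i)⁻¹ • s) * U (i, true) s
        ≤ ∑' s, (m s * U (i, true) s + |m ((of i)⁻¹ • s) - m s|) := by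
      refine hsx.tsum_le_tsum ?_ ((hs _).add (hs2 i))
      intro s
      have h1 := hU0 (i, true) s
      have h2 := hU1 (i, true) s
      have h3 := le_abs_self (m ((of i)⁻¹ • s) - m s)
      have h4 := abs_nonneg (m ((of i)⁻¹ • s) - m s)
      nlinarith
    rw [(hs _).tsum_add (hs2 i)] at e4
    have e5 : ∑' s, m s * (U (i, true) s + U (i, false) s)
        = ∑' s, m s * U (i, true) s + ∑' s, m s * U (i, false) s := by
      rw [← (hs _).tsum_add (hs _)]
      congr 1; ext s; ring
    linarith
  have htot : ∑ i : Fin 2, ∑' s, m s * (U (i, true) s + U (i, false) s) ≤ 1 := by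
    rw [← hm1]
    simp only [Fin.sum_univ_two]
    rw [← (hs _).tsum_add (hs _)]
    refine ((hs _).add (hs _)).tsum_le_tsum ?_ hs1
    intro s
    have h1 := hsum s
    simp only [Fin.sum_univ_two] at h1
    have := hm0 s
    nlinarith
  have h0 := hgen 0
  have h1 := hgen 1
  simp only [Fin.sum_univ_two] at htot ⊢
  linarith

/-- no almost invariant vectors -/
theorem no_almost_invariant {S : Type*} [MulAction (FreeGroup (Fin 2)) S]
    (hfree : ∀ (g : FreeGroup (Fin 2)) (s : S), g • s = s → g = 1)
    (f : S → ℝ) (hfin : f.support.Finite) (hf1 : ∑' s, f s * f s = 1) :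
    1 / 16 ≤ ∑ i : Fin 2, (1 - ∑' s, f ((of i)⁻¹ • s) * f s) := by
  classical
  have hfinm : (fun s => f s * f s).support.Finite := by
    refine hfin.subset ?_
    intro s hs
    simp only [Function.mem_support] at hs ⊢
    intro h0; apply hs; rw [h0, zero_mul]
  have hmain := one_le_sum_abs hfree (fun s => f s * f s) (fun s => mul_self_nonneg _) hfinm hf1
  have hfin' : ∀ i : Fin 2, (fun s => f ((of i)⁻¹ • s)).support.Finite := by
    intro i
    have : (fun s => f ((of i)⁻¹ • s)).support = (fun s => (of i)⁻¹ • s) ⁻¹' f.support := rfl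
    rw [this]
    exact hfin.preimage (MulAction.injective _).injOn
  have hs : ∀ (i : Fin 2) (F : ℝ → ℝ → ℝ), F 0 0 = 0 →
      Summable (fun s => F (f ((of i)⁻¹ • s)) (f s)) := by
    intro i F hF
    apply summable_of_hasFiniteSupport
    refine ((hfin' i).union hfin).subset ?_
    intro s hs
    simp only [Function.mem_support, Set.mem_union] at hs ⊢
    by_contra hcon
    push Not at hcon
    apply hs
    rw [hcon.1, hcon.2, hF]
  have hinv : ∀ i : Fin 2, ∑' s, f ((of i)⁻¹ • s) * f ((of i)⁻¹ • s) = 1 := by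
    intro i
    rw [← hf1]
    exact (MulAction.toPerm ((of i)⁻¹) : Equiv.Perm S).tsum_eq (fun s => f s * f s)
  have hgen : ∀ i : Fin 2, ∑' s, |f ((of i)⁻¹ • s) * f ((of i)⁻¹ • s) - f s * f s|
      ≤ 8 * (1 - ∑' s, f ((of i)⁻¹ • s) * f s) + 1 / 4 := by
    intro i
    have h1 : ∑' s, |f ((of i)⁻¹ • s) * f ((of i)⁻¹ • s) - f s * f s|
        ≤ ∑' s, (4 * (f ((of i)⁻¹ • s) - f s) ^ 2
          + (1 / 8) * (f ((of i)⁻¹ • s) * f ((of i)⁻¹ • s)) + (1 / 8) * (f s * f s)) := by
      refine (hs i (fun a b => |a * a - b * b|) (by simp)).tsum_le_tsum ?_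
        (hs i (fun a b => 4 * (a - b) ^ 2 + (1 / 8) * (a * a) + (1 / 8) * (b * b)) (by simp))
      intro s
      have key : ∀ a b : ℝ, |a * a - b * b|
          ≤ 4 * (a - b) ^ 2 + (1 / 8) * (a * a) + (1 / 8) * (b * b) := by
        intro a b
        rw [abs_le]
        constructor <;> nlinarith [sq_nonneg (8 * (a - b) - (a + b)),
          sq_nonneg (8 * (a - b) + (a + b)), sq_nonneg (a - b)]
      exact key _ _
    have h2 : ∑' s, (4 * (f ((of i)⁻¹ • s) - f s) ^ 2
          + (1 / 8) * (f ((of i)⁻¹ • s) * f ((of i)⁻¹ • s)) + (1 / 8) * (f s * f s))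
        = ∑' s, ((4 + 1 / 8) * (f ((of i)⁻¹ • s) * f ((of i)⁻¹ • s))
          + (4 + 1 / 8) * (f s * f s)) - ∑' s, 8 * (f ((of i)⁻¹ • s) * f s) := by
      rw [← (hs i (fun a b => (4 + 1 / 8) * (a * a) + (4 + 1 / 8) * (b * b)) (by simp)).tsum_sub
        (hs i (fun a b => 8 * (a * b)) (by simp))]
      congr 1; ext s; ring
    have h3 : ∑' s, ((4 + 1 / 8) * (f ((of i)⁻¹ • s) * f ((of i)⁻¹ • s))
          + (4 + 1 / 8) * (f s * f s)) = (4 + 1 / 8) + (4 + 1 / 8) := by
      rw [(hs i (fun a _ => (4 + 1 / 8) * (a * a)) (by simp)).tsum_add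
        (hs i (fun _ b => (4 + 1 / 8) * (b * b)) (by simp)), tsum_mul_left, tsum_mul_left,
        hinv, hf1]
      ring
    rw [h2, h3, tsum_mul_left] at h1
    linarith
  have h0 := hgen 0
  have h1 := hgen 1
  simp only [Fin.sum_univ_two] at hmain ⊢
  linarith

end Pool.Agent.Helper34.FG
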