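import Mathlib

/-!
Product vectors on the sets of integers commensurate with the half line.
-/

namespace Pool.Agent.Helper34.FG

open Real

/-- the half line -/
def HL : Set ℤ := {k | 0 ≤ k}

/-- permutations of the integers that move only finitely many points across the origin -/
def FinCut : Subgroup (Equiv.Perm ℤ) where
  carrier := {p | (symmDiff (p '' HL) HL).Finite}
  one_mem' := by simp
  mul_mem' := by
    intro p q hp hq
    simp only [Set.mem_ofPred_eq] at hp hq ⊢
    have h1 : ((p * q : Equiv.Perm ℤ) '' HL) = p '' (q '' HL) := by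
      rw [Set.image_image]; rfl
    rw [h1]
    have h2 : symmDiff (p '' (q '' HL)) HL
        ⊆ symmDiff (p '' (q '' HL)) (p '' HL) ∪ symmDiff (p '' HL) HL := by
      exact symmDiff_triangle _ _ _
    refine Set.Finite.subset ?_ h2
    refine Set.Finite.union ?_ hp
    rw [← Set.image_symmDiff p.injective]
    exact hq.image _
  inv_mem' := by
    intro p hp
    simp only [Set.mem_ofPred_eq] at hp ⊢
    have h1 : symmDiff ((p⁻¹ : Equiv.Perm ℤ) '' HL) HL
        = (p⁻¹ : Equiv.Perm ℤ) '' (symmDiff HL (p '' HL)) := by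
      rw [Set.image_symmDiff (p⁻¹ : Equiv.Perm ℤ).injective, Set.image_image]
      simp
    rw [h1, symmDiff_comm]
    exact hp.image _

theorem image_fin {p : Equiv.Perm ℤ} (hp : p ∈ FinCut) {E : Set ℤ}
    (hE : (symmDiff E HL).Finite) : (symmDiff (p '' E) HL).Finite := by
  have h2 : symmDiff (p '' E) HL ⊆ symmDiff (p '' E) (p '' HL) ∪ symmDiff (p '' HL) HL :=
    symmDiff_triangle _ _ _
  refine Set.Finite.subset ?_ h2
  refine Set.Finite.union ?_ hp
  rw [← Set.image_symmDiff p.injective]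
  exact hE.image _

/-- the sets of integers commensurate with the half line -/
def CS : Type := {E : Set ℤ // (symmDiff E HL).Finite}

instance : MulAction FinCut CS where
  smul p E := ⟨(p : Equiv.Perm ℤ) '' E.1, image_fin p.2 E.2⟩
  one_smul E := by
    apply Subtype.ext
    change (1 : Equiv.Perm ℤ) '' E.1 = E.1
    simp
  mul_smul p q E := by
    apply Subtype.ext
    change ((p : Equiv.Perm ℤ) * (q : Equiv.Perm ℤ)) '' E.1 = p.1 '' (q.1 '' E.1)
    rw [Set.image_image]; rfl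

theorem smul_val (p : FinCut) (E : CS) : (p • E).1 = (p : Equiv.Perm ℤ) '' E.1 := rfl

open Classical in
/-- the local factor -/
noncomputable def fac (θ : ℤ → ℝ) (E : Set ℤ) (k : ℤ) : ℝ :=
  if k ∈ E then sin (θ k) else cos (θ k)

/-- the product vector -/
noncomputable def amp (θ : ℤ → ℝ) (E : Set ℤ) : ℝ := ∏ᶠ k, fac θ E k

open Classical in
/-- `θ` is trivial outside the finite set `W` -/
def Adm (θ : ℤ → ℝ) (W : Finset ℤ) : Prop := ∀ k ∉ W, θ k = if 0 ≤ k then π / 2 else 0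

theorem fac_eq_one {θ : ℤ → ℝ} {W : Finset ℤ} (h : Adm θ W) {E : Set ℤ} {k : ℤ} (hk : k ∉ W)
    (hE : k ∈ E ↔ 0 ≤ k) : fac θ E k = 1 := by
  unfold fac
  rw [h k hk]
  by_cases h0 : 0 ≤ k
  · rw [if_pos (hE.2 h0), if_pos h0, sin_pi_div_two]
  · rw [if_neg (fun h1 => h0 (hE.1 h1)), if_neg h0, cos_zero]

theorem fac_eq_zero {θ : ℤ → ℝ} {W : Finset ℤ} (h : Adm θ W) {E : Set ℤ} {k : ℤ} (hk : k ∉ W)
    (hE : ¬ (k ∈ E ↔ 0 ≤ k)) : fac θ E k = 0 := by
  unfold fac
  rw [h k hk]
  by_cases h0 : 0 ≤ k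
  · have h1 : k ∉ E := fun h1 => hE ⟨fun _ => h0, fun _ => h1⟩
    rw [if_neg h1, if_pos h0, cos_pi_div_two]
  · have h1 : k ∈ E := by
      by_contra h1
      exact hE ⟨fun h2 => absurd h2 h1, fun h2 => absurd h2 h0⟩
    rw [if_pos h1, if_neg h0, sin_zero]

theorem mulSupport_fac {θ : ℤ → ℝ} {W : Finset ℤ} (h : Adm θ W) (E : Set ℤ) :
    Function.mulSupport (fac θ E) ⊆ W ∪ symmDiff E HL := by
  intro k hk
  simp only [Function.mem_mulSupport] at hk
  by_contra hcon
  simp only [Set.mem_union, Finset.mem_coe, not_or] at hcon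
  apply hk
  apply fac_eq_one h hcon.1
  have h2 := hcon.2
  simp only [Set.mem_symmDiff, HL, Set.mem_ofPred_eq, not_or, not_and, not_not] at h2
  exact ⟨h2.1, h2.2⟩

theorem amp_eq_prod {θ : ℤ → ℝ} {W : Finset ℤ} (h : Adm θ W) {E : Set ℤ}
    (hE : ∀ k ∉ W, (k ∈ E ↔ 0 ≤ k)) : amp θ E = ∏ k ∈ W, fac θ E k := by
  unfold amp
  apply finprod_eq_prod_of_mulSupport_subset
  intro k hk
  simp only [Function.mem_mulSupport] at hk
  by_contra hcon
  simp only [Finset.mem_coe] at hcon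
  exact hk (fac_eq_one h hcon (hE k hcon))

theorem amp_eq_zero {θ : ℤ → ℝ} {W : Finset ℤ} (h : Adm θ W) {E : Set ℤ}
    (hfin : (symmDiff E HL).Finite) {k : ℤ} (hk : k ∉ W) (hE : ¬ (k ∈ E ↔ 0 ≤ k)) :
    amp θ E = 0 := by
  classical
  unfold amp
  have hsub : Function.mulSupport (fac θ E) ⊆ ((W ∪ hfin.toFinset : Finset ℤ) : Set ℤ) := by
    refine (mulSupport_fac h E).trans ?_
    intro j hj
    simpa using hj
  rw [finprod_eq_prod_of_mulSupport_subset _ hsub]
  apply Finset.prod_eq_zero (i := k)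
  · rw [Finset.mem_union]
    right
    rw [Set.Finite.mem_toFinset]
    by_contra hcon
    simp only [Set.mem_symmDiff, HL, Set.mem_ofPred_eq, not_or, not_and, not_not] at hcon
    exact hE ⟨hcon.1, hcon.2⟩
  · exact fac_eq_zero h hk hE

/-- the set with a prescribed trace on `W` and equal to the half line outside -/
def mk (W A : Finset ℤ) : Set ℤ := {k | (k ∈ W ∧ k ∈ A) ∨ (k ∉ W ∧ 0 ≤ k)}

theorem mk_fin (W A : Finset ℤ) : (symmDiff (mk W A) HL).Finite := by
  refine Set.Finite.subset W.finite_toSet ?_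
  intro k hk
  simp only [Set.mem_symmDiff, mk, HL, Set.mem_ofPred_eq] at hk
  by_contra hcon
  simp only [Finset.mem_coe] at hcon
  tauto

theorem mem_mk_of_notMem {W A : Finset ℤ} {k : ℤ} (hk : k ∉ W) : (k ∈ mk W A ↔ 0 ≤ k) := by
  simp only [mk, Set.mem_ofPred_eq]; tauto

theorem mem_mk_of_mem {W A : Finset ℤ} {k : ℤ} (hk : k ∈ W) : (k ∈ mk W A ↔ k ∈ A) := by
  simp only [mk, Set.mem_ofPred_eq]; tauto

/-- the point of `CS` given by `mk` -/
def mkCS (W A : Finset ℤ) : CS := ⟨mk W A, mk_fin W A⟩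

theorem support_amp {θ : ℤ → ℝ} {W : Finset ℤ} (h : Adm θ W) (E : CS) (hE : amp θ E.1 ≠ 0) :
    ∃ A ∈ W.powerset, mkCS W A = E := by
  classical
  have h1 : ∀ k ∉ W, (k ∈ E.1 ↔ 0 ≤ k) := by
    intro k hk
    by_contra hcon
    exact hE (amp_eq_zero h E.2 hk hcon)
  refine ⟨W.filter (fun k => k ∈ E.1), ?_, ?_⟩
  · rw [Finset.mem_powerset]; exact Finset.filter_subset _ _
  · apply Subtype.ext
    ext k
    by_cases hk : k ∈ W
    · have := mem_mk_of_mem (A := W.filter (fun k => k ∈ E.1)) hk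
      change k ∈ mk W _ ↔ k ∈ E.1
      rw [this, Finset.mem_filter]
      tauto
    · have := mem_mk_of_notMem (A := W.filter (fun k => k ∈ E.1)) hk
      change k ∈ mk W _ ↔ k ∈ E.1
      rw [this, h1 k hk]

theorem support_amp_finite {θ : ℤ → ℝ} {W : Finset ℤ} (h : Adm θ W) :
    (fun E : CS => amp θ E.1).support.Finite := by
  classical
  refine Set.Finite.subset ((W.powerset.image (mkCS W)).finite_toSet) ?_
  intro E hE
  obtain ⟨A, hA, hA'⟩ := support_amp h E hE
  simp only [Finset.coe_image, Set.mem_image, Finset.mem_coe]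
  exact ⟨A, hA, hA'⟩

theorem tsum_amp {θ θ' : ℤ → ℝ} {W : Finset ℤ} (h : Adm θ W) (h' : Adm θ' W) :
    ∑' E : CS, amp θ E.1 * amp θ' E.1 = ∏ k ∈ W, cos (θ k - θ' k) := by
  classical
  have hinj : Set.InjOn (mkCS W) (W.powerset : Set (Finset ℤ)) := by
    intro A hA B hB hAB
    simp only [Finset.mem_coe, Finset.mem_powerset] at hA hB
    have h1 : mk W A = mk W B := congrArg Subtype.val hAB
    ext k
    constructor
    · intro hk
      have h2 := (mem_mk_of_mem (A := A) (hA hk)).2 hk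
      rw [h1] at h2
      exact (mem_mk_of_mem (hA hk)).1 h2
    · intro hk
      have h2 := (mem_mk_of_mem (A := B) (hB hk)).2 hk
      rw [← h1] at h2
      exact (mem_mk_of_mem (hB hk)).1 h2
  rw [tsum_eq_sum (s := W.powerset.image (mkCS W))]
  · rw [Finset.sum_image hinj]
    have h1 : ∀ k, cos (θ k - θ' k) = sin (θ k) * sin (θ' k) + cos (θ k) * cos (θ' k) := by
      intro k; rw [cos_sub]; ring
    simp_rw [h1]
    rw [Finset.prod_add]
    refine Finset.sum_congr rfl ?_
    intro A hA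
    rw [Finset.mem_powerset] at hA
    have e1 := amp_eq_prod h (E := mk W A) (fun k hk => mem_mk_of_notMem hk)
    have e2 := amp_eq_prod h' (E := mk W A) (fun k hk => mem_mk_of_notMem hk)
    change amp θ (mk W A) * amp θ' (mk W A) = _
    rw [e1, e2, ← Finset.prod_mul_distrib, ← Finset.prod_sdiff hA, mul_comm]
    congr 1
    · refine Finset.prod_congr rfl ?_
      intro k hk
      have := (mem_mk_of_mem (hA hk)).2 hk
      unfold fac
      rw [if_pos this, if_pos this]
    · refine Finset.prod_congr rfl ?_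
      intro k hk
      rw [Finset.mem_sdiff] at hk
      have : k ∉ mk W A := fun h2 => hk.2 ((mem_mk_of_mem hk.1).1 h2)
      unfold fac
      rw [if_neg this, if_neg this]
  · intro E hE
    by_contra hcon
    have h1 : amp θ E.1 ≠ 0 := fun h0 => hcon (by rw [h0, zero_mul])
    obtain ⟨A, hA, hA'⟩ := support_amp h E h1
    exact hE (Finset.mem_image.2 ⟨A, hA, hA'⟩)

theorem amp_smul (θ : ℤ → ℝ) (p : Equiv.Perm ℤ) (E : Set ℤ) :
    amp θ ((p⁻¹ : Equiv.Perm ℤ) '' E) = amp (fun k => θ ((p⁻¹ : Equiv.Perm ℤ) k)) E := by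
  unfold amp
  rw [← finprod_comp_equiv p (f := fac (fun k => θ ((p⁻¹ : Equiv.Perm ℤ) k)) E)]
  congr 1
  ext k
  unfold fac
  have h1 : (k ∈ (p⁻¹ : Equiv.Perm ℤ) '' E) ↔ p k ∈ E := by
    constructor
    · rintro ⟨j, hj, rfl⟩
      simpa using hj
    · intro h
      exact ⟨p k, h, by simp⟩
  have h2 : (p⁻¹ : Equiv.Perm ℤ) (p k) = k := by simp
  by_cases h3 : p k ∈ E
  · rw [if_pos (h1.2 h3), if_pos h3]
    simp only [h2]
  · rw [if_neg (fun h4 => h3 (h1.1 h4)), if_neg h3]
    simp only [h2]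

end Pool.Agent.Helper34.FG
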