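import Pool.Agent.Helper34.FG.Paradox
import Pool.Agent.Helper34.FG.Amp

/-!
Two permutations of the integers with finite cut and small energy: some nontrivial word preserves
a set commensurate with the half line.
-/

namespace Pool.Agent.Helper34.FG

open Real FreeGroup

theorem one_sub_le_prod (W : Finset ℤ) (a : ℤ → ℝ) (h0 : ∀ k ∈ W, 0 ≤ a k)
    (h1 : ∀ k ∈ W, a k ≤ 1) : 1 - ∑ k ∈ W, a k ≤ ∏ k ∈ W, (1 - a k) := by
  classical
  have key : 1 - ∑ k ∈ W, a k ≤ ∏ k ∈ W, (1 - a k) ∧ 0 ≤ ∏ k ∈ W, (1 - a k)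
      ∧ ∏ k ∈ W, (1 - a k) ≤ 1 := by
    induction W using Finset.induction_on with
    | empty => simp
    | insert k s hk ih =>
      have ih' := ih (fun j hj => h0 j (Finset.mem_insert_of_mem hj))
        (fun j hj => h1 j (Finset.mem_insert_of_mem hj))
      rw [Finset.sum_insert hk, Finset.prod_insert hk]
      have h0k := h0 k (Finset.mem_insert_self k s)
      have h1k := h1 k (Finset.mem_insert_self k s)
      obtain ⟨i1, i2, i3⟩ := ih'
      refine ⟨?_, ?_, ?_⟩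
      · nlinarith
      · exact mul_nonneg (by linarith) i2
      · nlinarith
  exact key.1

theorem Adm.mono {θ : ℤ → ℝ} {W W' : Finset ℤ} (h : Adm θ W) (hW : W ⊆ W') : Adm θ W' :=
  fun k hk => h k (fun h2 => hk (hW h2))

theorem adm_perm {θ : ℤ → ℝ} {W : Finset ℤ} (h : Adm θ W) {p : Equiv.Perm ℤ} (hp : p ∈ FinCut) :
    ∃ W' : Finset ℤ, Adm (fun k => θ ((p⁻¹ : Equiv.Perm ℤ) k)) W' := by
  classical
  have hp' : (symmDiff (p '' HL) HL).Finite := hp
  refine ⟨W.image p ∪ hp'.toFinset, ?_⟩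
  intro k hk
  rw [Finset.mem_union, not_or] at hk
  obtain ⟨h1, h2⟩ := hk
  have h3 : (p⁻¹ : Equiv.Perm ℤ) k ∉ W := by
    intro h3
    exact h1 (Finset.mem_image.2 ⟨_, h3, by simp⟩)
  rw [Set.Finite.mem_toFinset] at h2
  have h4 : k ∈ p '' HL ↔ 0 ≤ (p⁻¹ : Equiv.Perm ℤ) k := by
    constructor
    · rintro ⟨j, hj, rfl⟩
      have hj' : (0 : ℤ) ≤ j := hj
      simpa using hj'
    · intro hj
      exact ⟨_, hj, by simp⟩
  simp only [Set.mem_symmDiff, not_or, not_and, not_not] at h2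
  have h5 : (0 ≤ (p⁻¹ : Equiv.Perm ℤ) k) ↔ 0 ≤ k :=
    ⟨fun h => h2.1 (h4.2 h), fun h => h4.1 (h2.2 h)⟩
  change θ ((p⁻¹ : Equiv.Perm ℤ) k) = _
  rw [h _ h3]
  by_cases h0 : 0 ≤ k
  · rw [if_pos h0, if_pos (h5.2 h0)]
  · rw [if_neg h0, if_neg (fun h6 => h0 (h5.1 h6))]

/-- The combinatorial core. -/
theorem exists_fixed (p : Fin 2 → Equiv.Perm ℤ) (hp : ∀ i, p i ∈ FinCut) (θ : ℤ → ℝ)
    (hθ0 : ∀ k, 0 ≤ θ k) (hθ1 : ∀ k, θ k ≤ π / 2) (W : Finset ℤ) (hW : Adm θ W)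
    (hsum : ∀ V : Finset ℤ, ∑ i : Fin 2, ∑ k ∈ V, (θ (((p i)⁻¹ : Equiv.Perm ℤ) k) - θ k) ^ 2
      < 1 / 8) :
    ∃ w : FreeGroup (Fin 2), w ≠ 1 ∧ ∃ E : Set ℤ, (symmDiff E HL).Finite ∧
      (FreeGroup.lift p w) '' E = E := by
  classical
  by_contra hcon
  push Not at hcon
  let A : FreeGroup (Fin 2) →* FinCut := FreeGroup.lift (fun i => (⟨p i, hp i⟩ : FinCut))
  let _ : MulAction (FreeGroup (Fin 2)) CS := MulAction.compHom CS A
  have hA : ∀ w, ((A w : FinCut) : Equiv.Perm ℤ) = FreeGroup.lift p w := by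
    intro w
    have : (FinCut.subtype.comp A) = FreeGroup.lift p := by
      apply FreeGroup.ext_hom
      intro i
      simp [A]
    rw [← this]; rfl
  have hsm : ∀ (w : FreeGroup (Fin 2)) (E : CS), (w • E).1 = (FreeGroup.lift p w) '' E.1 := by
    intro w E
    rw [← hA w]; rfl
  have hfree : ∀ (g : FreeGroup (Fin 2)) (s : CS), g • s = s → g = 1 := by
    intro g s hs
    by_contra hg
    apply hcon g hg s.1 s.2
    rw [← hsm, hs]
  choose W' hW' using fun i => adm_perm hW (hp i)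
  let V : Finset ℤ := W ∪ (W' 0 ∪ W' 1)
  have hV : Adm θ V := hW.mono Finset.subset_union_left
  have hV' : ∀ i, Adm (fun k => θ (((p i)⁻¹ : Equiv.Perm ℤ) k)) V := by
    intro i
    apply (hW' i).mono
    fin_cases i
    · exact Finset.subset_union_left.trans Finset.subset_union_right
    · exact Finset.subset_union_right.trans Finset.subset_union_right
  have hf1 : ∑' s : CS, amp θ s.1 * amp θ s.1 = 1 := by
    rw [tsum_amp hV hV]
    simp
  have hmain := no_almost_invariant hfree (fun s => amp θ s.1) (support_amp_finite hV) hf1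
  have hgen : ∀ i : Fin 2, 1 - ∑' s : CS, amp θ ((of i)⁻¹ • s).1 * amp θ s.1
      ≤ (1 / 2) * ∑ k ∈ V, (θ (((p i)⁻¹ : Equiv.Perm ℤ) k) - θ k) ^ 2 := by
    intro i
    have h1 : ∀ s : CS, amp θ ((of i)⁻¹ • s).1
        = amp (fun k => θ (((p i)⁻¹ : Equiv.Perm ℤ) k)) s.1 := by
      intro s
      rw [← amp_smul, hsm]
      simp
    simp_rw [h1]
    rw [tsum_amp (hV' i) hV]
    have h2 : ∀ k, cos (θ (((p i)⁻¹ : Equiv.Perm ℤ) k) - θ k)
        = 1 - (1 - cos (θ (((p i)⁻¹ : Equiv.Perm ℤ) k) - θ k)) := by intro k; ring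
    have h3 := one_sub_le_prod V (fun k => 1 - cos (θ (((p i)⁻¹ : Equiv.Perm ℤ) k) - θ k))
      (fun k _ => by have := cos_le_one (θ (((p i)⁻¹ : Equiv.Perm ℤ) k) - θ k); linarith)
      (fun k _ => by
        have : 0 ≤ cos (θ (((p i)⁻¹ : Equiv.Perm ℤ) k) - θ k) := by
          apply cos_nonneg_of_mem_Icc
          constructor
          · have := hθ0 (((p i)⁻¹ : Equiv.Perm ℤ) k)
            have := hθ1 k
            linarith
          · have := hθ1 (((p i)⁻¹ : Equiv.Perm ℤ) k)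
            have := hθ0 k
            linarith
        linarith)
    have h4 : ∏ k ∈ V, cos (θ (((p i)⁻¹ : Equiv.Perm ℤ) k) - θ k)
        = ∏ k ∈ V, (1 - (1 - cos (θ (((p i)⁻¹ : Equiv.Perm ℤ) k) - θ k))) :=
      Finset.prod_congr rfl (fun k _ => h2 k)
    rw [← h4] at h3
    have h5 : ∑ k ∈ V, (1 - cos (θ (((p i)⁻¹ : Equiv.Perm ℤ) k) - θ k))
        ≤ (1 / 2) * ∑ k ∈ V, (θ (((p i)⁻¹ : Equiv.Perm ℤ) k) - θ k) ^ 2 := by
      rw [Finset.mul_sum]
      apply Finset.sum_le_sum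
      intro k _
      have := one_sub_sq_div_two_le_cos (x := θ (((p i)⁻¹ : Equiv.Perm ℤ) k) - θ k)
      linarith
    linarith
  have h6 := hsum V
  have h7 : ∑ i : Fin 2, (1 - ∑' s : CS, amp θ ((of i)⁻¹ • s).1 * amp θ s.1)
      ≤ ∑ i : Fin 2, (1 / 2) * ∑ k ∈ V, (θ (((p i)⁻¹ : Equiv.Perm ℤ) k) - θ k) ^ 2 :=
    Finset.sum_le_sum (fun i _ => hgen i)
  rw [← Finset.mul_sum] at h7
  linarith

end Pool.Agent.Helper34.FG
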