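import Pool.Agent.Helper34.FG.Amp

/-!
The profile function and its energy.
-/

namespace Pool.Agent.Helper34.FG

open Real

/-- clamping to `[-n, n]` -/
def clamp (n k : ℤ) : ℤ := max (-n) (min n k)

/-- the angle -/
noncomputable def ang (n : ℕ) (k : ℤ) : ℝ := π / 4 + π / 4 * ((clamp n k : ℤ) : ℝ) / n

theorem clamp_le {n : ℤ} (hn : 0 ≤ n) (k : ℤ) : clamp n k ≤ n := by
  unfold clamp; omega

theorem le_clamp (n k : ℤ) : -n ≤ clamp n k := by
  unfold clamp; omega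

theorem ang_nonneg {n : ℕ} (hn : 0 < n) (k : ℤ) : 0 ≤ ang n k := by
  unfold ang
  have h1 : (-(n : ℤ)) ≤ clamp n k := le_clamp _ _
  have h2 : (-(n : ℝ)) ≤ ((clamp n k : ℤ) : ℝ) := by exact_mod_cast h1
  have hn' : (0 : ℝ) < n := by exact_mod_cast hn
  have h3 : -1 ≤ ((clamp n k : ℤ) : ℝ) / n := by
    rw [le_div_iff₀ hn']; linarith
  have hpi := pi_pos
  rw [mul_div_assoc]
  nlinarith

theorem ang_le {n : ℕ} (hn : 0 < n) (k : ℤ) : ang n k ≤ π / 2 := by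
  unfold ang
  have h1 : clamp n k ≤ (n : ℤ) := clamp_le (by omega) _
  have h2 : ((clamp n k : ℤ) : ℝ) ≤ n := by exact_mod_cast h1
  have hn' : (0 : ℝ) < n := by exact_mod_cast hn
  have h3 : ((clamp n k : ℤ) : ℝ) / n ≤ 1 := by
    rw [div_le_iff₀ hn']; linarith
  have hpi := pi_pos
  rw [mul_div_assoc]
  nlinarith

theorem ang_of_ge {n : ℕ} (hn : 0 < n) {k : ℤ} (hk : (n : ℤ) ≤ k) : ang n k = π / 2 := by
  unfold ang
  have h1 : clamp n k = (n : ℤ) := by unfold clamp; omega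
  have hn' : (n : ℝ) ≠ 0 := by positivity
  rw [h1]
  push_cast
  field_simp
  ring

theorem ang_of_le {n : ℕ} (hn : 0 < n) {k : ℤ} (hk : k ≤ -(n : ℤ)) : ang n k = 0 := by
  unfold ang
  have h1 : clamp n k = -(n : ℤ) := by unfold clamp; omega
  have hn' : (n : ℝ) ≠ 0 := by positivity
  rw [h1]
  push_cast
  field_simp
  ring

theorem ang_ge_of_nonneg {n : ℕ} (hn : 0 < n) {k : ℤ} (hk : 0 ≤ k) : π / 4 ≤ ang n k := by
  unfold ang
  have h1 : 0 ≤ clamp n k := by unfold clamp; omega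
  have h2 : (0 : ℝ) ≤ ((clamp n k : ℤ) : ℝ) := by exact_mod_cast h1
  have hpi := pi_pos
  have : 0 ≤ π / 4 * ((clamp n k : ℤ) : ℝ) / n := by positivity
  linarith

theorem ang_le_of_neg {n : ℕ} (hn : 0 < n) {k : ℤ} (hk : k < 0) : ang n k ≤ π / 4 := by
  unfold ang
  have h1 : clamp n k ≤ 0 := by unfold clamp; omega
  have h2 : ((clamp n k : ℤ) : ℝ) ≤ 0 := by exact_mod_cast h1
  have hn' : (0 : ℝ) < n := by exact_mod_cast hn
  have hpi := pi_pos
  have h3 : ((clamp n k : ℤ) : ℝ) / n ≤ 0 := div_nonpos_of_nonpos_of_nonneg h2 hn'.le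
  rw [mul_div_assoc]
  nlinarith

theorem adm_ang {n : ℕ} (hn : 0 < n) : Adm (ang n) (Finset.Icc (-(n : ℤ)) n) := by
  intro k hk
  rw [Finset.mem_Icc, not_and_or, not_le, not_le] at hk
  rcases hk with hk | hk
  · rw [ang_of_le hn hk.le, if_neg (by omega)]
  · rw [ang_of_ge hn hk.le, if_pos (by omega)]

/-- one energy term -/
noncomputable def term (n : ℕ) (c k : ℤ) : ENNReal := ENNReal.ofReal ((ang n (k + c) - ang n k) ^ 2)

/-- a bound for the energy of a jump -/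
noncomputable def bnd (n : ℕ) (c : ℤ) : ℝ :=
  (2 * ((n : ℝ) + |(c : ℝ)|) + 1) * (min |(c : ℝ)| (2 * n)) ^ 2 / (n : ℝ) ^ 2

theorem abs_ang_sub_le {n : ℕ} (hn : 0 < n) (c k : ℤ) :
    |ang n (k + c) - ang n k| ≤ min |(c : ℝ)| (2 * n) / n := by
  have hn' : (0 : ℝ) < n := by exact_mod_cast hn
  have h1 : ang n (k + c) - ang n k
      = π / 4 * ((((clamp n (k + c) - clamp n k : ℤ)) : ℝ) / n) := by
    unfold ang; push_cast; ring
  have h2 : |clamp n (k + c) - clamp n k| ≤ |c| := by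
    unfold clamp
    rw [abs_le]
    rcases abs_cases c with ⟨h, h'⟩ | ⟨h, h'⟩ <;> rw [h] <;> constructor <;> omega
  have h3 : |clamp n (k + c) - clamp n k| ≤ 2 * (n : ℤ) := by
    unfold clamp
    rw [abs_le]; constructor <;> omega
  have h4 : |(((clamp n (k + c) - clamp n k : ℤ)) : ℝ)| ≤ min |(c : ℝ)| (2 * n) := by
    rw [le_min_iff]
    constructor
    · exact_mod_cast h2
    · exact_mod_cast h3
  rw [h1, abs_mul, abs_of_pos (by positivity : (0 : ℝ) < π / 4), abs_div, abs_of_pos hn']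
  have h5 : π / 4 ≤ 1 := by have := pi_le_four; linarith
  have h6 : |(((clamp n (k + c) - clamp n k : ℤ)) : ℝ)| / n ≤ min |(c : ℝ)| (2 * n) / n := by
    gcongr
  have h7 : 0 ≤ |(((clamp n (k + c) - clamp n k : ℤ)) : ℝ)| / n := by positivity
  nlinarith [pi_pos]

theorem ang_sub_eq_zero {n : ℕ} (hn : 0 < n) {c k : ℤ} (hk : (n : ℤ) + |c| < |k|) :
    ang n (k + c) - ang n k = 0 := by
  rcases abs_cases k with ⟨h, h'⟩ | ⟨h, h'⟩ <;> rcases abs_cases c with ⟨g, g'⟩ | ⟨g, g'⟩ <;>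
    rw [h, g] at hk
  · rw [ang_of_ge hn (by omega), ang_of_ge hn (by omega), sub_self]
  · rw [ang_of_ge hn (by omega), ang_of_ge hn (by omega), sub_self]
  · rw [ang_of_le hn (by omega), ang_of_le hn (by omega), sub_self]
  · rw [ang_of_le hn (by omega), ang_of_le hn (by omega), sub_self]

theorem tsum_term_le {n : ℕ} (hn : 0 < n) (c : ℤ) :
    ∑' k : ℤ, term n c k ≤ ENNReal.ofReal (bnd n c) := by
  classical
  have hn' : (0 : ℝ) < n := by exact_mod_cast hn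
  set W : Finset ℤ := Finset.Icc (-((n : ℤ) + |c|)) ((n : ℤ) + |c|) with hW
  rw [tsum_eq_sum (s := W)]
  · have h1 : ∀ k ∈ W, term n c k ≤ ENNReal.ofReal ((min |(c : ℝ)| (2 * n) / n) ^ 2) := by
      intro k _
      unfold term
      apply ENNReal.ofReal_le_ofReal
      rw [← sq_abs]
      have := abs_ang_sub_le hn c k
      gcongr
    refine (Finset.sum_le_sum h1).trans ?_
    rw [Finset.sum_const, nsmul_eq_mul]
    have hcard : (W.card : ℝ) = 2 * ((n : ℝ) + |(c : ℝ)|) + 1 := by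
      rw [hW, Int.card_Icc]
      have : (((n : ℤ) + |c| + 1 - -((n : ℤ) + |c|)).toNat : ℤ) = 2 * ((n : ℤ) + |c|) + 1 := by
        rw [Int.toNat_of_nonneg]
        · ring
        · have := abs_nonneg c; omega
      exact_mod_cast this
    rw [show (W.card : ENNReal) = ENNReal.ofReal (W.card : ℝ) by simp, ← ENNReal.ofReal_mul
      (by positivity), hcard]
    apply ENNReal.ofReal_le_ofReal
    unfold bnd
    rw [div_pow, mul_div_assoc]
  · intro k hk
    rw [hW, Finset.mem_Icc, ← abs_le, not_le] at hk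
    unfold term
    rw [ang_sub_eq_zero hn hk]
    simp

theorem bnd_le {n : ℕ} (hn : 0 < n) (c : ℤ) : bnd n c ≤ 16 * |(c : ℝ)| := by
  have hn' : (1 : ℝ) ≤ n := by exact_mod_cast hn
  unfold bnd
  rw [div_le_iff₀ (by positivity)]
  have hc := abs_nonneg (c : ℝ)
  rcases le_total |(c : ℝ)| (2 * n) with h | h
  · rw [min_eq_left h]
    have h1 : 2 * ((n : ℝ) + |(c : ℝ)|) + 1 ≤ 7 * n := by linarith
    have h2 : |(c : ℝ)| ^ 2 ≤ |(c : ℝ)| * (2 * n) := by rw [sq]; gcongr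
    calc (2 * ((n : ℝ) + |(c : ℝ)|) + 1) * |(c : ℝ)| ^ 2
        ≤ (7 * n) * (|(c : ℝ)| * (2 * n)) := by gcongr
      _ = 14 * |(c : ℝ)| * (n : ℝ) ^ 2 := by ring
      _ ≤ 16 * |(c : ℝ)| * (n : ℝ) ^ 2 := by gcongr; norm_num
  · rw [min_eq_right h]
    have h1 : 2 * ((n : ℝ) + |(c : ℝ)|) + 1 ≤ 4 * |(c : ℝ)| := by linarith
    calc (2 * ((n : ℝ) + |(c : ℝ)|) + 1) * (2 * n) ^ 2
        ≤ (4 * |(c : ℝ)|) * (2 * n) ^ 2 := by gcongr
      _ = 16 * |(c : ℝ)| * (n : ℝ) ^ 2 := by ring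

theorem bnd_nonneg (n : ℕ) (c : ℤ) : 0 ≤ bnd n c := by
  unfold bnd; positivity

theorem tendsto_bnd (c : ℤ) : Filter.Tendsto (fun n : ℕ => bnd n c) Filter.atTop (nhds 0) := by
  have hz : Filter.Tendsto (fun n : ℕ => (3 + 2 * |(c : ℝ)|) * |(c : ℝ)| ^ 2 * (1 / (n : ℝ)))
      Filter.atTop (nhds 0) := by
    have := (tendsto_one_div_atTop_nhds_zero_nat (𝕜 := ℝ)).const_mul
      ((3 + 2 * |(c : ℝ)|) * |(c : ℝ)| ^ 2)
    simpa using this
  refine squeeze_zero' (Filter.Eventually.of_forall (fun n => bnd_nonneg n c)) ?_ hz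
  filter_upwards [Filter.eventually_ge_atTop 1] with n hn
  have hn' : (1 : ℝ) ≤ n := by exact_mod_cast hn
  unfold bnd
  have hc := abs_nonneg (c : ℝ)
  rw [div_le_iff₀ (by positivity)]
  have h1 : (min |(c : ℝ)| (2 * n)) ^ 2 ≤ |(c : ℝ)| ^ 2 := by
    have : 0 ≤ min |(c : ℝ)| (2 * n) := by positivity
    gcongr
    exact min_le_left _ _
  have h2 : 2 * ((n : ℝ) + |(c : ℝ)|) + 1 ≤ (3 + 2 * |(c : ℝ)|) * n := by nlinarith
  have h3 : (3 + 2 * |(c : ℝ)|) * |(c : ℝ)| ^ 2 * (1 / (n : ℝ)) * (n : ℝ) ^ 2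
      = ((3 + 2 * |(c : ℝ)|) * n) * |(c : ℝ)| ^ 2 := by field_simp
  rw [h3]
  gcongr

end Pool.Agent.Helper34.FG
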