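import Pool.Agent.Helper34.FG.Grp

/-!
Almost laws: nontrivial words that are uniformly close to the identity in unitary groups of
finite dimensional algebras.
-/

namespace Pool.Agent.Helper34.FG



universe u

theorem exists_not_commute' {ι : Type u} {a b : ι} (hab : a ≠ b) (u v : FreeGroup ι)
    (hu : u ≠ 1) (hv : v ≠ 1) : ∃ k : FreeGroup ι, ¬ Commute u (k * v * k⁻¹) := by
  by_contra hcon
  push Not at hcon
  have hvk : ∀ k, Commute (k * v * k⁻¹) v := by
    intro k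
    apply commute_trans hu (hcon k).symm
    have := hcon 1
    simpa using this.symm
  obtain ⟨z, hzv, hz⟩ := centralizer_cyclic hv
  have hz1 : z ≠ 1 := by
    rintro rfl
    obtain ⟨n, hn⟩ := hz v (Commute.refl v)
    simp only [one_zpow] at hn
    exact hv hn.symm
  have hconj : ∀ g : FreeGroup ι, g * z * g⁻¹ ∈ Subgroup.zpowers z := by
    intro g
    apply hz
    have h1 : Commute (g * z * g⁻¹) (g * v * g⁻¹) := by
      have := hzv.map (MulAut.conj g)
      simpa [MulAut.conj_apply] using this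
    refine commute_trans (y := g * v * g⁻¹) ?_ h1 (hvk g).symm
    intro h
    apply hv
    rwa [conj_eq_one_iff] at h
  have hgen : ∀ g : FreeGroup ι, g ≠ 1 → Commute z g := by
    intro g hg
    obtain ⟨m, hm⟩ := hconj g
    obtain ⟨n, hn⟩ := hconj g⁻¹
    simp only [inv_inv] at hm hn
    have h1 : z ^ (m * n) = z := by
      rw [zpow_mul, hm, conj_zpow, hn]
      group
    have h2 : m * n = 1 := by
      have h0 : z ^ (m * n - 1) = 1 := by rw [zpow_sub_one, h1, mul_inv_cancel]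
      have h00 := (IsMulTorsionFree.zpow_eq_one_iff_right hz1).1 h0
      omega
    have h3 : Commute z (g ^ 2) := by
      have h4 : g * (g * z * g⁻¹) * g⁻¹ = z := by
        rcases Int.eq_one_or_neg_one_of_mul_eq_one h2 with h | h
        · rw [← hm, h, zpow_one, ← hm, h, zpow_one]
        · rw [← hm, h, zpow_neg, zpow_one]
          have h5 : g * z⁻¹ * g⁻¹ = (g * z * g⁻¹)⁻¹ := by group
          rw [h5, ← hm, h, zpow_neg, zpow_one, inv_inv]
      change z * g ^ 2 = g ^ 2 * z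
      have h6 : g ^ 2 * z = (g * (g * z * g⁻¹) * g⁻¹) * g ^ 2 := by
        simp only [pow_two, mul_assoc, inv_mul_cancel_left, inv_mul_cancel, mul_one]
      rw [h6, h4]
    have h7 : g ^ 2 ≠ 1 := by
      intro h
      exact hg ((pow_eq_one_iff_left (two_ne_zero)).1 h)
    exact commute_trans h7 h3 ((Commute.refl g).pow_right 2)
  apply hz1
  exact eq_one_of_commute_of hab (hgen _ (FreeGroup.of_ne_one a)) (hgen _ (FreeGroup.of_ne_one b))

/-- a noncommutative subgroup of a free group has no commuting conjugacy classes -/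
theorem subgroup_exists_not_commute {ι : Type u} (H : Subgroup (FreeGroup ι)) {p q : H}
    (hpq : ¬ Commute p q) (u v : H) (hu : u ≠ 1) (hv : v ≠ 1) :
    ∃ k : H, ¬ Commute u (k * v * k⁻¹) := by
  classical
  set e := IsFreeGroup.toFreeGroup H with he
  have hnt : ∃ a b : IsFreeGroup.Generators H, a ≠ b := by
    by_contra hcon
    push Not at hcon
    have : Subsingleton (IsFreeGroup.Generators H) := ⟨hcon⟩
    have hc := isCyclic_freeGroup_of_subsingleton (IsFreeGroup.Generators H)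
    obtain ⟨g, hg⟩ := hc.exists_generator
    obtain ⟨n, hn⟩ := hg (e p)
    obtain ⟨m, hm⟩ := hg (e q)
    apply hpq
    have h1 : Commute (e p) (e q) := by
      simp only at hn hm
      rw [← hn, ← hm]
      exact (Commute.refl g).zpow_zpow n m
    have h2 := h1.map e.symm
    simpa using h2
  obtain ⟨a, b, hab⟩ := hnt
  have hu' : e u ≠ 1 := by
    intro h; exact hu (e.injective (by rw [h, _root_.map_one]))
  have hv' : e v ≠ 1 := by
    intro h; exact hv (e.injective (by rw [h, _root_.map_one]))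
  obtain ⟨k, hk⟩ := exists_not_commute' hab (e u) (e v) hu' hv'
  refine ⟨e.symm k, fun h => hk ?_⟩
  have h2 := h.map e
  simpa using h2

section law

variable {G A : Type*} [Group G] [Group A]

theorem comm_ne_one {u v : G} (h : ¬ Commute u v) : u * v * u⁻¹ * v⁻¹ ≠ 1 := by
  intro h1
  apply h
  rw [mul_inv_eq_one, mul_inv_eq_iff_eq_mul] at h1
  exact h1

/-- a conjugation invariant length function with the commutator estimate -/
structure IsLen (ℓ : A → ℝ) : Prop where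
  nonneg : ∀ a, 0 ≤ ℓ a
  inv : ∀ a, ℓ a⁻¹ = ℓ a
  conj : ∀ a b, ℓ (a * b * a⁻¹) = ℓ b
  mul : ∀ a b, ℓ (a * b) ≤ ℓ a + ℓ b
  comm : ∀ a b, ℓ (a * b * a⁻¹ * b⁻¹) ≤ 2 * ℓ a * ℓ b

theorem IsLen.left {ℓ : A → ℝ} (h : IsLen ℓ) (a b : A) : ℓ (a * b * a⁻¹ * b⁻¹) ≤ 2 * ℓ a := by
  have e : a * b * a⁻¹ * b⁻¹ = a * (b * a⁻¹ * b⁻¹) := by group
  rw [e]
  have h1 := h.mul a (b * a⁻¹ * b⁻¹)
  rw [h.conj, h.inv] at h1
  linarith

theorem IsLen.right {ℓ : A → ℝ} (h : IsLen ℓ) (a b : A) : ℓ (a * b * a⁻¹ * b⁻¹) ≤ 2 * ℓ b := by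
  have h1 := h.mul (a * b * a⁻¹) b⁻¹
  rw [h.conj, h.inv] at h1
  linarith

theorem shrink {ℓ : A → ℝ} (h : IsLen ℓ)
    (hNC : ∀ u v : G, u ≠ 1 → v ≠ 1 → ∃ k, ¬ Commute u (k * v * k⁻¹)) (u : G) (hu : u ≠ 1)
    (n : ℕ) : ∃ w : G, w ≠ 1 ∧ ∀ φ : G →* A, ℓ (φ u) ≤ 1 / 4 → ℓ (φ w) ≤ 1 / 4 * (1 / 2) ^ n := by
  induction n with
  | zero => exact ⟨u, hu, fun φ hφ => by simpa using hφ⟩
  | succ n ih =>
    obtain ⟨w, hw, hw2⟩ := ih
    obtain ⟨k, hk⟩ := hNC w w hw hw
    refine ⟨w * (k * w * k⁻¹) * w⁻¹ * (k * w * k⁻¹)⁻¹, comm_ne_one hk, ?_⟩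
    intro φ hφ
    have h1 := hw2 φ hφ
    have h2 := h.comm (φ w) (φ (k * w * k⁻¹))
    have h3 : ℓ (φ (k * w * k⁻¹)) = ℓ (φ w) := by
      rw [map_mul, map_mul, map_inv, h.conj]
    rw [h3] at h2
    have h4 : φ (w * (k * w * k⁻¹) * w⁻¹ * (k * w * k⁻¹)⁻¹)
        = φ w * φ (k * w * k⁻¹) * (φ w)⁻¹ * (φ (k * w * k⁻¹))⁻¹ := by
      simp only [map_mul, map_inv]
    rw [h4]
    refine h2.trans ?_
    have h5 : (1 / 2 : ℝ) ^ n ≤ 1 := pow_le_one₀ (by norm_num) (by norm_num)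
    have h6 : (0 : ℝ) ≤ (1 / 2) ^ n := by positivity
    have h7 := h.nonneg (φ w)
    rw [pow_succ]
    nlinarith

theorem almost_law {ℓ : A → ℝ} (h : IsLen ℓ)
    (hNC : ∀ u v : G, u ≠ 1 → v ≠ 1 → ∃ k, ¬ Commute u (k * v * k⁻¹))
    (htf : ∀ u : G, u ≠ 1 → ∀ n : ℕ, 0 < n → u ^ n ≠ 1) (hne : ∃ u : G, u ≠ 1)
    (N : ℕ) (hN : ∀ a : A, ∃ j : ℕ, 0 < j ∧ j ≤ N ∧ ℓ (a ^ j) ≤ 1 / 4) {δ : ℝ} (hδ : 0 < δ) :
    ∃ w : G, w ≠ 1 ∧ ∀ φ : G →* A, ℓ (φ w) ≤ δ := by
  obtain ⟨x, hx⟩ := hne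
  have key : ∀ n : ℕ, ∀ δ : ℝ, 0 < δ → ∃ w : G, w ≠ 1 ∧ ∀ φ : G →* A,
      (∃ j : ℕ, 0 < j ∧ j ≤ n ∧ ℓ (φ x ^ j) ≤ 1 / 4) → ℓ (φ w) ≤ δ := by
    intro n
    induction n with
    | zero =>
      intro δ _
      refine ⟨x, hx, ?_⟩
      rintro φ ⟨j, h1, h2, -⟩
      omega
    | succ n ih =>
      intro δ hδ
      obtain ⟨w, hw, hw2⟩ := ih (δ / 2) (by linarith)
      obtain ⟨m, hm⟩ := exists_pow_lt_of_lt_one (show (0 : ℝ) < δ / 2 by linarith)
        (show (1 / 2 : ℝ) < 1 by norm_num)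
      obtain ⟨q, hq, hq2⟩ := shrink (A := A) h hNC (x ^ (n + 1)) (htf x hx _ (Nat.succ_pos n)) m
      obtain ⟨k, hk⟩ := hNC w q hw hq
      refine ⟨w * (k * q * k⁻¹) * w⁻¹ * (k * q * k⁻¹)⁻¹, comm_ne_one hk, ?_⟩
      rintro φ ⟨j, h1, h2, h3⟩
      have h4 : φ (w * (k * q * k⁻¹) * w⁻¹ * (k * q * k⁻¹)⁻¹)
          = φ w * φ (k * q * k⁻¹) * (φ w)⁻¹ * (φ (k * q * k⁻¹))⁻¹ := by
        simp only [map_mul, map_inv]
      rw [h4]
      rcases Nat.lt_or_ge n j with h5 | h5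
      · have h6 : j = n + 1 := by omega
        subst h6
        have h7 := hq2 φ (by rw [map_pow]; exact h3)
        refine (h.right _ _).trans ?_
        have h8 : ℓ (φ (k * q * k⁻¹)) = ℓ (φ q) := by
          rw [map_mul, map_mul, map_inv, h.conj]
        rw [h8]
        have h9 : (0 : ℝ) ≤ (1 / 2) ^ m := by positivity
        linarith
      · refine (h.left _ _).trans ?_
        have h7 := hw2 φ ⟨j, h1, h5, h3⟩
        linarith
  obtain ⟨w, hw, hw2⟩ := key N δ hδ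
  refine ⟨w, hw, fun φ => hw2 φ ?_⟩
  obtain ⟨j, h1, h2, h3⟩ := hN (φ x)
  exact ⟨j, h1, h2, h3⟩

end law

section unitary

variable {B : Type*} [NormedRing B] [StarRing B] [CStarRing B]

theorem isLen_unitary : IsLen (fun a : unitary B => ‖(a : B) - 1‖) where
  nonneg a := norm_nonneg _
  inv a := by
    have h : ((a⁻¹ : unitary B) : B) - 1 = star ((a : B) - 1) := by
      rw [star_sub, star_one]; rfl
    rw [h, norm_star]
  conj a b := by
    have h : ((a * b * a⁻¹ : unitary B) : B) - 1 = (a : B) * ((b : B) - 1) * ((a⁻¹ : unitary B) : B)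
        := by
      have h1 : (a : B) * ((a⁻¹ : unitary B) : B) = 1 := by
        rw [← Submonoid.coe_mul, mul_inv_cancel]; rfl
      rw [mul_sub, sub_mul, mul_one, h1]; rfl
    rw [h, CStarRing.norm_mul_coe_unitary, CStarRing.norm_coe_unitary_mul]
  mul a b := by
    have h : ((a * b : unitary B) : B) - 1 = (a : B) * ((b : B) - 1) + ((a : B) - 1) := by
      rw [Submonoid.coe_mul, mul_sub, mul_one]; abel
    rw [h]
    refine (norm_add_le _ _).trans ?_
    rw [CStarRing.norm_coe_unitary_mul, add_comm]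
  comm a b := by
    have h : ((a * b * a⁻¹ * b⁻¹ : unitary B) : B) - 1
        = (((a : B) - 1) * ((b : B) - 1) - ((b : B) - 1) * ((a : B) - 1))
          * (((a⁻¹ * b⁻¹ : unitary B)) : B) := by
      have h1 : (b : B) * (a : B) * (((a⁻¹ * b⁻¹ : unitary B)) : B) = 1 := by
        rw [← Submonoid.coe_mul, ← Submonoid.coe_mul]
        have : b * a * (a⁻¹ * b⁻¹) = 1 := by group
        rw [this]; rfl
      have h2 : ((a : B) - 1) * ((b : B) - 1) - ((b : B) - 1) * ((a : B) - 1)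
          = (a : B) * (b : B) - (b : B) * (a : B) := by noncomm_ring
      rw [h2, sub_mul, h1]
      have h3 : a * b * a⁻¹ * b⁻¹ = (a * b) * (a⁻¹ * b⁻¹) := by group
      rw [h3]
      rfl
    rw [h, CStarRing.norm_mul_coe_unitary]
    refine (norm_sub_le _ _).trans ?_
    have h4 := norm_mul_le ((a : B) - 1) ((b : B) - 1)
    have h5 := norm_mul_le ((b : B) - 1) ((a : B) - 1)
    nlinarith

variable [NormedAlgebra ℂ B] [FiniteDimensional ℂ B]

theorem unitary_pow_close : ∃ N : ℕ, ∀ a : unitary B, ∃ j : ℕ, 0 < j ∧ j ≤ N ∧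
    ‖((a ^ j : unitary B) : B) - 1‖ ≤ 1 / 4 := by
  classical
  have : ProperSpace B := FiniteDimensional.proper ℂ B
  have hcomp := (isCompact_closedBall (0 : B) 1).totallyBounded
  rw [Metric.totallyBounded_iff] at hcomp
  obtain ⟨t, ht, hcov⟩ := hcomp (1 / 8) (by norm_num)
  refine ⟨ht.toFinset.card, fun a => ?_⟩
  have hmem : ∀ i : ℕ, ((a ^ i : unitary B) : B) ∈ Metric.closedBall (0 : B) 1 := by
    intro i
    rw [mem_closedBall_zero_iff]
    rcases subsingleton_or_nontrivial B with hs | hn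
    · have : ((a ^ i : unitary B) : B) = 0 := Subsingleton.elim _ _
      rw [this, norm_zero]; norm_num
    · exact (CStarRing.norm_coe_unitary _).le
  have hch : ∀ i : ℕ, ∃ y ∈ t, ((a ^ i : unitary B) : B) ∈ Metric.ball y (1 / 8) := by
    intro i
    have := hcov (hmem i)
    simpa using this
  choose f hf1 hf2 using hch
  obtain ⟨i, hi, j, hj, hij, hfe⟩ := Finset.exists_ne_map_eq_of_card_lt_of_maps_to
    (s := Finset.range (ht.toFinset.card + 1)) (t := ht.toFinset) (by simp) (f := f)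
    (fun i _ => by simpa using hf1 i)
  have hdist : ∀ i j : ℕ, i < j → f i = f j → ‖((a ^ (j - i) : unitary B) : B) - 1‖ ≤ 1 / 4 := by
    intro i j hlt hfe
    have h1 : ((a ^ j : unitary B) : B) - ((a ^ i : unitary B) : B)
        = ((a ^ i : unitary B) : B) * (((a ^ (j - i) : unitary B) : B) - 1) := by
      rw [mul_sub, mul_one, ← Submonoid.coe_mul, ← pow_add]
      congr 3
      omega
    have h2 : ‖((a ^ (j - i) : unitary B) : B) - 1‖
        = ‖((a ^ j : unitary B) : B) - ((a ^ i : unitary B) : B)‖ := by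
      rw [h1, CStarRing.norm_coe_unitary_mul]
    rw [h2, ← dist_eq_norm]
    have h3 := Metric.mem_ball.1 (hf2 i)
    have h4 := Metric.mem_ball.1 (hf2 j)
    rw [hfe] at h3
    have h5 := dist_triangle_right (((a ^ j : unitary B) : B)) ((a ^ i : unitary B) : B) (f j)
    linarith
  simp only [Finset.mem_range] at hi hj
  rcases lt_or_gt_of_ne hij with h | h
  · exact ⟨j - i, by omega, by omega, hdist i j h hfe⟩
  · exact ⟨i - j, by omega, by omega, hdist j i h hfe.symm⟩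

end unitary

end Pool.Agent.Helper34.FG
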