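import Pool.Agent.Helper34.FG.Link
import Pool.Agent.Helper34.FG.Law

/-!
From skew transformations over a full group, with phases in a group of unitaries, to
permutations of the orbits.
-/

namespace Pool.Agent.Helper34.FG

open MeasureTheory FreeGroup

variable {X A : Type*} [Group A]

theorem orbit_bijective' {T : Equiv.Perm X} {c : X → ℤ} {θ : X → A} {s : Equiv.Perm (X × A)}
    (hs : ∀ x z, s (x, z) = ((T ^ (c x)) x, θ x * z)) (x : X) :
    Function.Bijective (fun k : ℤ => k + c ((T ^ k) x)) := by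
  constructor
  · intro k l hkl
    simp only at hkl
    have h1 : s ((T ^ k) x, (θ ((T ^ k) x))⁻¹) = s ((T ^ l) x, (θ ((T ^ l) x))⁻¹) := by
      rw [hs, hs, zpow_zpow_apply, zpow_zpow_apply, mul_inv_cancel, mul_inv_cancel,
        add_comm (c ((T ^ k) x)) k, add_comm (c ((T ^ l) x)) l, hkl]
    have h2 : (T ^ k) x = (T ^ l) x := congrArg Prod.fst (s.injective h1)
    rw [h2] at hkl
    omega
  · intro m
    obtain ⟨⟨y, z⟩, hy⟩ := s.surjective ((T ^ m) x, (1 : A))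
    rw [hs] at hy
    have h1 : (T ^ (c y)) y = (T ^ m) x := congrArg Prod.fst hy
    have h2 : (T ^ (m - c y)) x = y := by
      have h3 := congrArg (T ^ (-(c y)) : Equiv.Perm X) h1
      rw [zpow_zpow_apply, zpow_zpow_apply, neg_add_cancel, zpow_zero] at h3
      rw [sub_eq_neg_add, ← h3]
      rfl
    refine ⟨m - c y, ?_⟩
    simp only
    rw [h2]
    ring

theorem link' {T : Equiv.Perm X} {c : Fin 2 → X → ℤ} {P : X → Fin 2 → Equiv.Perm ℤ}
    (hP : ∀ x i k, P x i k = k + c i ((T ^ k) x)) {θ : Fin 2 → X → A}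
    {ρ : FreeGroup (Fin 2) →* Equiv.Perm (X × A)}
    (hρ : ∀ i x z, ρ (FreeGroup.of i) (x, z) = ((T ^ (c i x)) x, θ i x * z))
    (w : FreeGroup (Fin 2)) (x : X) :
    ∀ (k : ℤ) (z : A), ∃ z' : A,
      ρ w ((T ^ k) x, z) = ((T ^ (FreeGroup.lift (P x) w k)) x, z') := by
  induction w using FreeGroup.induction_on with
  | C1 => intro k z; exact ⟨z, by simp⟩
  | of i =>
    intro k z
    refine ⟨θ i ((T ^ k) x) * z, ?_⟩
    rw [hρ, FreeGroup.lift_apply_of, hP, zpow_zpow_apply, add_comm]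
  | inv_of i h =>
    intro k z
    set j := (P x i)⁻¹ k with hj
    have hjk : P x i j = k := by rw [hj]; simp
    refine ⟨(θ i ((T ^ j) x))⁻¹ * z, ?_⟩
    rw [_root_.map_inv, _root_.map_inv, FreeGroup.lift_apply_of, Equiv.Perm.inv_eq_iff_eq, hρ,
      zpow_zpow_apply, mul_inv_cancel_left]
    have h1 : c i ((T ^ j) x) + j = k := by
      rw [← hjk, hP, add_comm]
    rw [← hj, h1]
  | mul u v hu hv =>
    intro k z
    obtain ⟨z1, h1⟩ := hv k z
    obtain ⟨z2, h2⟩ := hu (FreeGroup.lift (P x) v k) z1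
    refine ⟨z2, ?_⟩
    rw [_root_.map_mul, Equiv.Perm.mul_apply, h1, h2, _root_.map_mul, Equiv.Perm.mul_apply]

theorem fibre' {T : Equiv.Perm X} {c : Fin 2 → X → ℤ} {θ : Fin 2 → X → A}
    {ρ : FreeGroup (Fin 2) →* Equiv.Perm (X × A)}
    (hρ : ∀ i x z, ρ (FreeGroup.of i) (x, z) = ((T ^ (c i x)) x, θ i x * z))
    (w : FreeGroup (Fin 2)) (a : A) :
    ∀ (x : X) (z : A), ρ w (x, z * a) = ((ρ w (x, z)).1, (ρ w (x, z)).2 * a) := by
  induction w using FreeGroup.induction_on with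
  | C1 => intro x z; simp
  | of i => intro x z; rw [hρ, hρ]; simp only [mul_assoc]
  | inv_of i h =>
    intro x z
    rw [_root_.map_inv, Equiv.Perm.inv_eq_iff_eq]
    have h1 := h ((ρ (FreeGroup.of i))⁻¹ (x, z)).1 ((ρ (FreeGroup.of i))⁻¹ (x, z)).2
    have h2 : (ρ (FreeGroup.of i)) ((ρ (FreeGroup.of i))⁻¹ (x, z)) = (x, z) :=
      (ρ (FreeGroup.of i)).apply_symm_apply (x, z)
    rw [Prod.mk.eta, h2] at h1
    exact h1.symm
  | mul u v hu hv =>
    intro x z
    rw [_root_.map_mul, Equiv.Perm.mul_apply, hv, hu, Equiv.Perm.mul_apply]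

theorem eq_mul_of_notMem_bad {T : Equiv.Perm X} {c : Fin 2 → X → ℤ}
    {P : X → Fin 2 → Equiv.Perm ℤ} (hP : ∀ x i k, P x i k = k + c i ((T ^ k) x))
    {θ : Fin 2 → X → A} {ρ : FreeGroup (Fin 2) →* Equiv.Perm (X × A)}
    (hρ : ∀ i x z, ρ (FreeGroup.of i) (x, z) = ((T ^ (c i x)) x, θ i x * z))
    {w : FreeGroup (Fin 2)} {x : X} (hw : x ∉ Bad P w) (z : A) :
    ρ w (x, z) = (x, (ρ w (x, 1)).2 * z) := by
  have hw0 : FreeGroup.lift (P x) w 0 = 0 := by
    by_contra h; exact hw h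
  obtain ⟨α, hα⟩ := link' hP hρ w x 0 1
  rw [hw0] at hα
  simp only [zpow_zero, Equiv.Perm.coe_one, id_eq] at hα
  have h1 := fibre' hρ w z x 1
  rw [one_mul, hα] at h1
  rw [h1, hα]

/-- the words without movement at a base point form a subgroup -/
def stab (P : X → Fin 2 → Equiv.Perm ℤ) (x : X) : Subgroup (FreeGroup (Fin 2)) where
  carrier := {w | x ∉ Bad P w}
  one_mem' := by simp [Bad]
  mul_mem' := by
    intro u v hu hv h
    rcases bad_mul u v h with h1 | h1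
    · exact hu h1
    · exact hv h1
  inv_mem' := by
    intro u hu h
    rw [bad_inv] at h
    exact hu h

/-- the phase of a word that does not move the base point -/
def phase {T : Equiv.Perm X} {c : Fin 2 → X → ℤ}
    {P : X → Fin 2 → Equiv.Perm ℤ} (hP : ∀ x i k, P x i k = k + c i ((T ^ k) x))
    {θ : Fin 2 → X → A} {ρ : FreeGroup (Fin 2) →* Equiv.Perm (X × A)}
    (hρ : ∀ i x z, ρ (FreeGroup.of i) (x, z) = ((T ^ (c i x)) x, θ i x * z)) (x : X) :
    stab P x →* A where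
  toFun w := (ρ w.1 (x, 1)).2
  map_one' := by simp
  map_mul' := by
    rintro ⟨u, hu⟩ ⟨v, hv⟩
    simp only [MulMemClass.mk_mul_mk, _root_.map_mul, Equiv.Perm.mul_apply]
    rw [eq_mul_of_notMem_bad hP hρ hv 1, eq_mul_of_notMem_bad hP hρ hu]

theorem mainU [MeasurableSpace X] {B : Type*} [NormedRing B] [StarRing B] [CStarRing B]
    [NormedAlgebra ℂ B] [FiniteDimensional ℂ B] (μ : Measure X) [IsProbabilityMeasure μ]
    (T : Equiv.Perm X) (hT : MeasurePreserving T μ μ) (hT' : Measurable T.symm)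
    (c : Fin 2 → X → ℤ) (hc : ∀ i, Measurable (c i))
    (hi : ∀ i, Integrable (fun x => (c i x : ℝ)) μ)
    (θ : Fin 2 → X → unitary B) (ρ : FreeGroup (Fin 2) →* Equiv.Perm (X × unitary B))
    (hρ : ∀ i x z, ρ (FreeGroup.of i) (x, z) = ((T ^ (c i x)) x, θ i x * z)) :
    ∀ ε : ℝ, 0 < ε → ∃ w : FreeGroup (Fin 2), w ≠ 1 ∧
      μ {x | ¬ ∃ a : unitary B, ‖(a : B) - 1‖ < ε ∧ ∀ z, ρ w (x, z) = (x, a * z)}
        < ENNReal.ofReal ε := by
  intro ε hε
  let P : X → Fin 2 → Equiv.Perm ℤ := fun x i =>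
    Equiv.ofBijective _ (orbit_bijective' (c := c i) (θ := θ i) (s := ρ (FreeGroup.of i)) (hρ i) x)
  have hP : ∀ x i k, P x i k = k + c i ((T ^ k) x) := fun x i k => rfl
  have hTk := measurePreserving_zpow hT hT'
  have hε2 : 0 < ENNReal.ofReal ε / 2 := ENNReal.div_pos (by simpa using hε) (by simp)
  obtain ⟨Q, hQ1, hQ⟩ := exists_small hP hTk hc hi hε2
  obtain ⟨k, hk⟩ := exists_not_commute Q Q hQ1 hQ1
  set H : Subgroup (FreeGroup (Fin 2)) := Subgroup.closure {Q, k * Q * k⁻¹} with hH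
  have hQH : Q ∈ H := Subgroup.subset_closure (by simp)
  have hQH' : k * Q * k⁻¹ ∈ H := Subgroup.subset_closure (by simp)
  have hncomm : ¬ Commute (⟨Q, hQH⟩ : H) ⟨k * Q * k⁻¹, hQH'⟩ := by
    intro h
    exact hk (h.map H.subtype)
  have hNC := fun u v hu hv => subgroup_exists_not_commute H hncomm u v hu hv
  have htf : ∀ u : H, u ≠ 1 → ∀ n : ℕ, 0 < n → u ^ n ≠ 1 := by
    intro u hu n hn h
    apply hu
    have h1 : (u : FreeGroup (Fin 2)) ^ n = 1 := by
      rw [← Subgroup.coe_pow, h]; rfl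
    have h2 := (pow_eq_one_iff_left hn.ne').1 h1
    exact Subtype.ext h2
  have hne : ∃ u : H, u ≠ 1 := ⟨⟨Q, hQH⟩, fun h => hQ1 (congrArg Subtype.val h)⟩
  obtain ⟨N, hN⟩ := unitary_pow_close (B := B)
  obtain ⟨w, hw1, hw⟩ := almost_law (isLen_unitary (B := B)) hNC htf hne N hN
    (show (0 : ℝ) < ε / 2 by linarith)
  refine ⟨w, fun h => hw1 (Subtype.ext h), ?_⟩
  have hsub : {x | ¬ ∃ a : unitary B, ‖(a : B) - 1‖ < ε ∧ ∀ z, ρ w (x, z) = (x, a * z)}
      ⊆ Bad P Q ∪ Bad P (k * Q * k⁻¹) := by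
    intro x hx
    by_contra hcon
    simp only [Set.mem_union, not_or] at hcon
    apply hx
    have hle : H ≤ stab P x := by
      rw [hH, Subgroup.closure_le]
      intro y hy
      rcases hy with rfl | rfl
      · exact hcon.1
      · exact hcon.2
    have h1 := hw ((phase hP hρ x).comp (Subgroup.inclusion hle))
    refine ⟨(ρ w.1 (x, 1)).2, ?_, fun z => ?_⟩
    · refine lt_of_le_of_lt h1 ?_
      linarith
    · exact eq_mul_of_notMem_bad hP hρ (hle w.2) z
  have hconj := measure_bad_conj (μ := μ) hP hTk hc k Q (D := Set.univ) MeasurableSet.univ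
    (by simp)
  simp only [Set.inter_univ] at hconj
  calc μ {x | ¬ ∃ a : unitary B, ‖(a : B) - 1‖ < ε ∧ ∀ z, ρ w (x, z) = (x, a * z)}
      ≤ μ (Bad P Q ∪ Bad P (k * Q * k⁻¹)) := measure_mono hsub
    _ ≤ μ (Bad P Q) + μ (Bad P (k * Q * k⁻¹)) := measure_union_le _ _
    _ = μ (Bad P Q) + μ (Bad P Q) := by rw [hconj]
    _ < ENNReal.ofReal ε / 2 + ENNReal.ofReal ε / 2 := ENNReal.add_lt_add hQ hQ
    _ = ENNReal.ofReal ε := ENNReal.add_halves _

end Pool.Agent.Helper34.FG
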