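import Pool.Agent.Helper34.FG.GapStat
import Pool.Agent.Helper34.FG.LinkU

/-!
The main theorem for elements of the full group that move finitely many points of almost every
orbit across the base point.
-/

namespace Pool.Agent.Helper34.FG

open MeasureTheory FreeGroup

variable {X : Type*} [MeasurableSpace X] {μ : Measure X} {T : Equiv.Perm X} {c : Fin 2 → X → ℤ}
  {P : X → Fin 2 → Equiv.Perm ℤ}

theorem exists_small' (hP : ∀ x i k, P x i k = k + c i ((T ^ k) x))
    (hT : ∀ k : ℤ, MeasurePreserving (T ^ k : Equiv.Perm X) μ μ) [IsFiniteMeasure μ]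
    (hc : ∀ i, Measurable (c i))
    (hf : ∀ i, ∀ᵐ x ∂μ, {k : ℤ | ¬ (0 ≤ k ↔ 0 ≤ k + c i ((T ^ k) x))}.Finite)
    {ε : ENNReal} (hε : 0 < ε) : ∃ Q : FreeGroup (Fin 2), Q ≠ 1 ∧ μ (Bad P Q) < ε := by
  classical
  have hcnt : Countable (FreeGroup (Fin 2)) := by
    unfold FreeGroup
    infer_instance
  have hne : Nonempty {w : FreeGroup (Fin 2) // w ≠ 1} := ⟨⟨FreeGroup.of 0, FreeGroup.of_ne_one 0⟩⟩
  obtain ⟨e, he⟩ := exists_surjective_nat {w : FreeGroup (Fin 2) // w ≠ 1}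
  set A : ℕ → Set X := fun n => (⋃ i ∈ Finset.range n, Fo P (e i).1)ᶜ with hA
  have hAm : ∀ n, MeasurableSet (A n) := fun n =>
    (MeasurableSet.biUnion (Set.to_countable _)
      (fun i _ => measurable_fo hP (fun k => (hT k).measurable) hc _)).compl
  have hanti : Antitone A := by
    intro n m hnm
    apply Set.compl_subset_compl.2
    apply Set.biUnion_subset_biUnion_left
    intro i hi
    exact Finset.mem_range.2 (lt_of_lt_of_le (Finset.mem_range.1 hi) hnm)
  have hzero : μ (⋂ n, A n) = 0 := by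
    have hae := ae_finite_orbits' hP hT hc hf
    rw [← compl_mem_ae_iff]
    filter_upwards [hae] with x hx hcon
    obtain ⟨w, hw, hwx⟩ := hx
    obtain ⟨i, hi⟩ := he ⟨w, hw⟩
    rw [Set.mem_iInter] at hcon
    apply hcon (i + 1)
    simp only [Set.mem_iUnion]
    refine ⟨i, by simp, ?_⟩
    rw [hi]
    exact hwx
  have htend := tendsto_measure_iInter_atTop (μ := μ) (s := A)
    (fun n => (hAm n).nullMeasurableSet) hanti ⟨0, measure_ne_top _ _⟩
  rw [hzero] at htend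
  have hε2 : 0 < ε / 2 := ENNReal.div_pos hε.ne' (by simp)
  obtain ⟨n, hn⟩ := (htend.eventually (gt_mem_nhds hε2)).exists
  set S : Finset (FreeGroup (Fin 2)) := (Finset.range n).image (fun i => (e i).1) with hSdef
  have hS : ∀ w ∈ S, w ≠ 1 := by
    intro w hw
    rw [hSdef, Finset.mem_image] at hw
    obtain ⟨i, -, rfl⟩ := hw
    exact (e i).2
  have hδ : (0 : ENNReal) < ε / 2 / (n + 1) := ENNReal.div_pos hε2.ne' (by simp)
  obtain ⟨Q, hQ1, hQ⟩ := exists_small_on (μ := μ) hP hT hc S hS _ hδ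
  refine ⟨Q, hQ1, ?_⟩
  have hsub : Bad P Q ⊆ A n ∪ ⋃ i ∈ Finset.range n, (Bad P Q ∩ Fo P (e i).1) := by
    intro x hx
    by_cases h : x ∈ A n
    · left; exact h
    · right
      simp only [hA, Set.mem_compl_iff, not_not] at h
      rw [Set.mem_iUnion₂] at h ⊢
      obtain ⟨i, hi, hxi⟩ := h
      exact ⟨i, hi, hx, hxi⟩
  by_cases htop : ε = ⊤
  · rw [htop]; exact measure_lt_top _ _
  calc μ (Bad P Q) ≤ μ (A n ∪ ⋃ i ∈ Finset.range n, (Bad P Q ∩ Fo P (e i).1)) := measure_mono hsub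
    _ ≤ μ (A n) + μ (⋃ i ∈ Finset.range n, (Bad P Q ∩ Fo P (e i).1)) := measure_union_le _ _
    _ ≤ μ (A n) + ∑ i ∈ Finset.range n, μ (Bad P Q ∩ Fo P (e i).1) := by
        gcongr
        exact measure_biUnion_finset_le _ _
    _ ≤ μ (A n) + ∑ i ∈ Finset.range n, (ε / 2 / (n + 1)) := by
        gcongr with i hi
        exact hQ _ (Finset.mem_image_of_mem _ hi)
    _ ≤ μ (A n) + ε / 2 := by
        gcongr
        rw [Finset.sum_const, Finset.card_range, nsmul_eq_mul]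
        calc (n : ENNReal) * (ε / 2 / (n + 1)) ≤ (n + 1) * (ε / 2 / (n + 1)) := by
              gcongr
              exact le_self_add
          _ = ε / 2 := ENNReal.mul_div_cancel (by simp) (by simp)
    _ < ε / 2 + ε / 2 := by
        apply ENNReal.add_lt_add_right _ hn
        exact (ENNReal.div_lt_top htop (by simp)).ne
    _ = ε := ENNReal.add_halves ε

theorem mainV {X : Type*} [MeasurableSpace X] {B : Type*} [NormedRing B] [StarRing B] [CStarRing B]
    [NormedAlgebra ℂ B] [FiniteDimensional ℂ B] (μ : Measure X) [IsProbabilityMeasure μ]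
    (T : Equiv.Perm X) (hT : MeasurePreserving T μ μ) (hT' : Measurable T.symm)
    (c : Fin 2 → X → ℤ) (hc : ∀ i, Measurable (c i))
    (hf : ∀ i, ∀ᵐ x ∂μ, {k : ℤ | ¬ (0 ≤ k ↔ 0 ≤ k + c i ((T ^ k) x))}.Finite)
    (θ : Fin 2 → X → unitary B) (ρ : FreeGroup (Fin 2) →* Equiv.Perm (X × unitary B))
    (hρ : ∀ i x z, ρ (FreeGroup.of i) (x, z) = ((T ^ (c i x)) x, θ i x * z)) :
    ∀ ε : ℝ, 0 < ε → ∃ w : FreeGroup (Fin 2), w ≠ 1 ∧
      μ {x | ¬ ∃ a : unitary B, ‖(a : B) - 1‖ < ε ∧ ∀ z, ρ w (x, z) = (x, a * z)}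
        < ENNReal.ofReal ε := by
  intro ε hε
  let P : X → Fin 2 → Equiv.Perm ℤ := fun x i =>
    Equiv.ofBijective _ (orbit_bijective' (c := c i) (θ := θ i) (s := ρ (FreeGroup.of i)) (hρ i) x)
  have hP : ∀ x i k, P x i k = k + c i ((T ^ k) x) := fun x i k => rfl
  have hTk := measurePreserving_zpow hT hT'
  have hε2 : 0 < ENNReal.ofReal ε / 2 := ENNReal.div_pos (by simpa using hε) (by simp)
  obtain ⟨Q, hQ1, hQ⟩ := exists_small' hP hTk hc hf hε2
  obtain ⟨k, hk⟩ := exists_not_commute Q Q hQ1 hQ1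
  set H : Subgroup (FreeGroup (Fin 2)) := Subgroup.closure {Q, k * Q * k⁻¹} with hH
  have hQH : Q ∈ H := Subgroup.subset_closure (by simp)
  have hQH' : k * Q * k⁻¹ ∈ H := Subgroup.subset_closure (by simp)
  have hncomm : ¬ Commute (⟨Q, hQH⟩ : H) ⟨k * Q * k⁻¹, hQH'⟩ := by
    intro h
    exact hk (h.map H.subtype)
  have hNC := fun u v hu hv => subgroup_exists_not_commute H hncomm u v hu hv
  have htf : ∀ u : H, u ≠ 1 → ∀ n : ℕ, 0 < n → u ^ n ≠ 1 := by
    intro u hu n hn h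
    apply hu
    have h1 : (u : FreeGroup (Fin 2)) ^ n = 1 := by
      rw [← Subgroup.coe_pow, h]; rfl
    have h2 := (pow_eq_one_iff_left hn.ne').1 h1
    exact Subtype.ext h2
  have hne : ∃ u : H, u ≠ 1 := ⟨⟨Q, hQH⟩, fun h => hQ1 (congrArg Subtype.val h)⟩
  obtain ⟨N, hN⟩ := unitary_pow_close (B := B)
  obtain ⟨w, hw1, hw⟩ := almost_law (isLen_unitary (B := B)) hNC htf hne N hN
    (show (0 : ℝ) < ε / 2 by linarith)
  refine ⟨w, fun h => hw1 (Subtype.ext h), ?_⟩
  have hsub : {x | ¬ ∃ a : unitary B, ‖(a : B) - 1‖ < ε ∧ ∀ z, ρ w (x, z) = (x, a * z)}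
      ⊆ Bad P Q ∪ Bad P (k * Q * k⁻¹) := by
    intro x hx
    by_contra hcon
    simp only [Set.mem_union, not_or] at hcon
    apply hx
    have hle : H ≤ stab P x := by
      rw [hH, Subgroup.closure_le]
      intro y hy
      rcases hy with rfl | rfl
      · exact hcon.1
      · exact hcon.2
    have h1 := hw ((phase hP hρ x).comp (Subgroup.inclusion hle))
    refine ⟨(ρ w.1 (x, 1)).2, ?_, fun z => ?_⟩
    · refine lt_of_le_of_lt h1 ?_
      linarith
    · exact eq_mul_of_notMem_bad hP hρ (hle w.2) z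
  have hconj := measure_bad_conj (μ := μ) hP hTk hc k Q (D := Set.univ) MeasurableSet.univ
    (by simp)
  simp only [Set.inter_univ] at hconj
  calc μ {x | ¬ ∃ a : unitary B, ‖(a : B) - 1‖ < ε ∧ ∀ z, ρ w (x, z) = (x, a * z)}
      ≤ μ (Bad P Q ∪ Bad P (k * Q * k⁻¹)) := measure_mono hsub
    _ ≤ μ (Bad P Q) + μ (Bad P (k * Q * k⁻¹)) := measure_union_le _ _
    _ = μ (Bad P Q) + μ (Bad P Q) := by rw [hconj]
    _ < ENNReal.ofReal ε / 2 + ENNReal.ofReal ε / 2 := ENNReal.add_lt_add hQ hQ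
    _ = ENNReal.ofReal ε := ENNReal.add_halves _

end Pool.Agent.Helper34.FG
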