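import Pool.Agent.Helper34.FG.Stat

/-!
Permutations of the integers that move finitely many points across each gap: if infinitely many
gaps are crossed by a bounded number of points then some nontrivial word preserves a set
commensurate with the half line.
-/

namespace Pool.Agent.Helper34.FG

open Real MeasureTheory FreeGroup Filter

/-- the points moved across the gap `g` by `q` lie in a set of at most `K` elements -/
def CrossLe (q : Equiv.Perm ℤ) (g : ℤ) (K : ℕ) : Prop :=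
  ∃ S : Finset ℤ, S.card ≤ K ∧ ∀ k, ¬ (g ≤ k ↔ g ≤ q k) → k ∈ S

theorem mem_finCut_iff (q : Equiv.Perm ℤ) :
    q ∈ FinCut ↔ {k : ℤ | ¬ (0 ≤ k ↔ 0 ≤ q k)}.Finite := by
  have h : symmDiff (q '' HL) HL = q '' {k : ℤ | ¬ (0 ≤ k ↔ 0 ≤ q k)} := by
    ext k
    have h1 : k ∈ q '' HL ↔ 0 ≤ (q⁻¹ : Equiv.Perm ℤ) k := by
      constructor
      · rintro ⟨j, hj, rfl⟩
        have hj' : (0 : ℤ) ≤ j := hj
        simpa using hj'
      · intro hj
        exact ⟨_, hj, by simp⟩
    have h2 : k ∈ HL ↔ 0 ≤ k := Iff.rfl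
    have h3 : k ∈ q '' {k : ℤ | ¬ (0 ≤ k ↔ 0 ≤ q k)} ↔ ¬ (0 ≤ (q⁻¹ : Equiv.Perm ℤ) k ↔ 0 ≤ k) := by
      constructor
      · rintro ⟨j, hj, rfl⟩
        simpa using hj
      · intro hj
        exact ⟨(q⁻¹ : Equiv.Perm ℤ) k, by simpa using hj, by simp⟩
    rw [Set.mem_symmDiff, h1, h2, h3]
    tauto
  change (symmDiff (q '' HL) HL).Finite ↔ _
  rw [h]
  exact Set.finite_image_iff q.injective.injOn

/-- the profile of a finite sequence of gaps -/
noncomputable def prof (g : ℕ → ℤ) (J : ℕ) (k : ℤ) : ℝ :=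
  π / (2 * J) * ∑ j ∈ Finset.range J, (if g j ≤ k then (1 : ℝ) else 0)

theorem prof_nonneg (g : ℕ → ℤ) (J : ℕ) (k : ℤ) : 0 ≤ prof g J k := by
  unfold prof
  have := pi_pos
  apply mul_nonneg (by positivity)
  apply Finset.sum_nonneg
  intro j _
  split_ifs <;> norm_num

theorem prof_le (g : ℕ → ℤ) {J : ℕ} (hJ : 0 < J) (k : ℤ) : prof g J k ≤ π / 2 := by
  unfold prof
  have hpi := pi_pos
  have hJ' : (0 : ℝ) < J := by exact_mod_cast hJ
  have h1 : ∑ j ∈ Finset.range J, (if g j ≤ k then (1 : ℝ) else 0) ≤ J := by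
    calc ∑ j ∈ Finset.range J, (if g j ≤ k then (1 : ℝ) else 0)
        ≤ ∑ j ∈ Finset.range J, (1 : ℝ) := by
          apply Finset.sum_le_sum
          intro j _
          split_ifs <;> norm_num
      _ = J := by simp
  calc π / (2 * J) * ∑ j ∈ Finset.range J, (if g j ≤ k then (1 : ℝ) else 0)
      ≤ π / (2 * J) * J := by gcongr
    _ = π / 2 := by field_simp

theorem adm_prof {g : ℕ → ℤ} (hg : StrictMono g) (hg0 : 0 ≤ g 0) {J : ℕ} (hJ : 0 < J) :
    Adm (prof g J) (Finset.Icc 0 (g J)) := by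
  intro k hk
  rw [Finset.mem_Icc, not_and_or, not_le, not_le] at hk
  have hpi := pi_pos
  have hJ' : (0 : ℝ) < J := by exact_mod_cast hJ
  have hgpos : ∀ j, 0 ≤ g j := fun j => hg0.trans (hg.monotone (Nat.zero_le j))
  rcases hk with hk | hk
  · rw [if_neg (by omega)]
    unfold prof
    rw [Finset.sum_eq_zero, mul_zero]
    intro j _
    rw [if_neg]
    have := hgpos j
    omega
  · have h0 : 0 ≤ k := by
      have := hgpos J
      omega
    rw [if_pos h0]
    unfold prof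
    have h1 : ∑ j ∈ Finset.range J, (if g j ≤ k then (1 : ℝ) else 0) = J := by
      rw [Finset.sum_congr rfl (g := fun _ => (1 : ℝ))]
      · simp
      · intro j hj
        rw [if_pos]
        have := hg.monotone (Finset.mem_range.1 hj).le
        omega
    rw [h1]
    field_simp

theorem sq_sum_eq_of_subsingleton (s : Finset ℕ) (a : ℕ → ℝ)
    (h : ∀ i ∈ s, ∀ j ∈ s, a i ≠ 0 → a j ≠ 0 → i = j) : (∑ j ∈ s, a j) ^ 2 = ∑ j ∈ s, a j ^ 2 := by
  classical
  by_cases hz : ∀ j ∈ s, a j = 0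
  · rw [Finset.sum_eq_zero hz, Finset.sum_eq_zero (fun j hj => by rw [hz j hj]; norm_num)]
    norm_num
  · push Not at hz
    obtain ⟨i, hi, hai⟩ := hz
    have h0 : ∀ j ∈ s, j ≠ i → a j = 0 := by
      intro j hj hji
      by_contra hcon
      exact hji (h j hj i hi hcon hai)
    rw [Finset.sum_eq_single_of_mem i hi h0,
      Finset.sum_eq_single_of_mem i hi (fun j hj hji => by rw [h0 j hj hji]; norm_num)]

/-- Bounded crossing at infinitely many gaps. -/
theorem exists_fixed_of_gaps (p : Fin 2 → Equiv.Perm ℤ)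
    (hp : ∀ i (g : ℤ), ∃ M : ℤ, ∀ k, ¬ (g ≤ k ↔ g ≤ p i k) → k < M ∧ p i k < M)
    (hp0 : ∀ i, p i ∈ FinCut) (K : ℕ)
    (hG : ∀ M : ℤ, ∃ g ≥ M, ∀ i, CrossLe (p i) g K) :
    ∃ w : FreeGroup (Fin 2), w ≠ 1 ∧ ∃ E : Set ℤ, (symmDiff E HL).Finite ∧
      (FreeGroup.lift p w) '' E = E := by
  classical
  -- one step of the choice of gaps
  have hstep : ∀ g : ℤ, ∃ g' : ℤ, g < g' ∧ (∀ i, CrossLe (p i) g' K) ∧
      ∀ i k, ¬ (g ≤ k ↔ g ≤ p i k) → k < g' ∧ p i k < g' := by
    intro g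
    choose M hM using fun i => hp i g
    obtain ⟨g', hg', hc⟩ := hG (max (g + 1) (max (M 0) (M 1)))
    have h0 : g + 1 ≤ g' := le_trans (le_max_left _ _) hg'
    have h1 : M 0 ≤ g' := le_trans (le_trans (le_max_left _ _) (le_max_right _ _)) hg'
    have h2 : M 1 ≤ g' := le_trans (le_trans (le_max_right _ _) (le_max_right _ _)) hg'
    refine ⟨g', by omega, hc, ?_⟩
    intro i k hk
    have h3 := hM i k hk
    have h4 : M i ≤ g' := by
      fin_cases i
      · exact h1
      · exact h2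
    exact ⟨lt_of_lt_of_le h3.1 h4, lt_of_lt_of_le h3.2 h4⟩
  choose nxt hn1 hn2 hn3 using hstep
  obtain ⟨g0, hg0, hc0⟩ := hG 0
  let g : ℕ → ℤ := fun j => Nat.rec g0 (fun _ a => nxt a) j
  have hgs : ∀ j, g (j + 1) = nxt (g j) := fun j => rfl
  have hgz : g 0 = g0 := rfl
  clear_value g
  have hmono : StrictMono g := strictMono_nat_of_lt_succ (fun j => by rw [hgs]; exact hn1 _)
  have hcross : ∀ j i, CrossLe (p i) (g j) K := by
    intro j i
    cases j with
    | zero => rw [hgz]; exact hc0 i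
    | succ j => rw [hgs]; exact hn2 _ i
  have hsep : ∀ a b i k, a < b → ¬ (g a ≤ k ↔ g a ≤ p i k) → (g b ≤ k ↔ g b ≤ p i k) := by
    intro a b i k hab h
    have h1 := hn3 (g a) i k h
    rw [← hgs] at h1
    have h2 : g (a + 1) ≤ g b := hmono.monotone hab
    constructor <;> intro h3 <;> omega
  choose S hS1 hS2 using hcross
  -- choice of the number of gaps
  obtain ⟨J, hJ⟩ := exists_nat_gt (40 * (K : ℝ) + 1)
  have hJ0 : (0 : ℝ) < J := lt_of_le_of_lt (by positivity) hJ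
  have hJpos : 0 < J := by exact_mod_cast hJ0
  refine exists_fixed p hp0 (prof g J) (prof_nonneg g J) (prof_le g hJpos) _
    (adm_prof hmono (by rw [hgz]; exact hg0) hJpos) ?_
  intro V
  have hpi := pi_pos
  have hpi2 := pi_lt_d2
  have hterm : ∀ (i : Fin 2) (k : ℤ), (prof g J (((p i)⁻¹ : Equiv.Perm ℤ) k) - prof g J k) ^ 2
      = (π / (2 * J)) ^ 2 * ∑ j ∈ Finset.range J,
        ((if g j ≤ ((p i)⁻¹ : Equiv.Perm ℤ) k then (1 : ℝ) else 0)
          - (if g j ≤ k then (1 : ℝ) else 0)) ^ 2 := by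
    intro i k
    unfold prof
    rw [← mul_sub, mul_pow, ← Finset.sum_sub_distrib]
    congr 1
    apply sq_sum_eq_of_subsingleton
    have key : ∀ a : ℕ, (if g a ≤ ((p i)⁻¹ : Equiv.Perm ℤ) k then (1 : ℝ) else 0)
          - (if g a ≤ k then (1 : ℝ) else 0) ≠ 0 →
          ¬ (g a ≤ ((p i)⁻¹ : Equiv.Perm ℤ) k ↔ g a ≤ p i (((p i)⁻¹ : Equiv.Perm ℤ) k)) := by
      intro a ha hiff
      apply ha
      have h1 : p i (((p i)⁻¹ : Equiv.Perm ℤ) k) = k := by simp
      rw [h1] at hiff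
      by_cases h2 : g a ≤ k
      · rw [if_pos (hiff.2 h2), if_pos h2, sub_self]
      · rw [if_neg (fun h3 => h2 (hiff.1 h3)), if_neg h2, sub_self]
    intro a _ b _ ha hb
    have ha' := key a ha
    have hb' := key b hb
    rcases lt_trichotomy a b with h | h | h
    · exact absurd (hsep a b i _ h ha') hb'
    · exact h
    · exact absurd (hsep b a i _ h hb') ha'
  have hind : ∀ (i : Fin 2) (j : ℕ), ∑ k ∈ V, ((if g j ≤ ((p i)⁻¹ : Equiv.Perm ℤ) k then (1 : ℝ) else 0)
          - (if g j ≤ k then (1 : ℝ) else 0)) ^ 2 ≤ K := by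
    intro i j
    have h1 : ∀ k : ℤ, ((if g j ≤ ((p i)⁻¹ : Equiv.Perm ℤ) k then (1 : ℝ) else 0)
          - (if g j ≤ k then (1 : ℝ) else 0)) ^ 2
          ≤ if k ∈ (S j i).image (p i) then 1 else 0 := by
      intro k
      by_cases hk : k ∈ (S j i).image (p i)
      · rw [if_pos hk]
        split_ifs <;> norm_num
      · rw [if_neg hk]
        have h2 : g j ≤ ((p i)⁻¹ : Equiv.Perm ℤ) k ↔ g j ≤ k := by
          by_contra hcon
          apply hk
          rw [Finset.mem_image]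
          refine ⟨((p i)⁻¹ : Equiv.Perm ℤ) k, hS2 j i _ ?_, by simp⟩
          have h3 : p i (((p i)⁻¹ : Equiv.Perm ℤ) k) = k := by simp
          rw [h3]
          exact hcon
        by_cases h3 : g j ≤ k
        · rw [if_pos (h2.2 h3), if_pos h3]; norm_num
        · rw [if_neg (fun h4 => h3 (h2.1 h4)), if_neg h3]; norm_num
    calc ∑ k ∈ V, ((if g j ≤ ((p i)⁻¹ : Equiv.Perm ℤ) k then (1 : ℝ) else 0)
          - (if g j ≤ k then (1 : ℝ) else 0)) ^ 2
        ≤ ∑ k ∈ V, (if k ∈ (S j i).image (p i) then (1 : ℝ) else 0) :=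
          Finset.sum_le_sum (fun k _ => h1 k)
      _ = (V.filter (fun k => k ∈ (S j i).image (p i))).card := by
          rw [Finset.sum_ite, Finset.sum_const_zero, add_zero, Finset.sum_const, nsmul_eq_mul,
            mul_one]
      _ ≤ ((S j i).image (p i)).card := by
          have : V.filter (fun k => k ∈ (S j i).image (p i)) ⊆ (S j i).image (p i) := by
            intro k hk
            exact (Finset.mem_filter.1 hk).2
          exact_mod_cast Finset.card_le_card this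
      _ ≤ K := by
          have h2 : ((S j i).image (p i)).card ≤ K := Finset.card_image_le.trans (hS1 j i)
          exact_mod_cast h2
  have hone : ∀ i : Fin 2, ∑ k ∈ V, (prof g J (((p i)⁻¹ : Equiv.Perm ℤ) k) - prof g J k) ^ 2
      ≤ (π / (2 * J)) ^ 2 * (J * K) := by
    intro i
    simp_rw [hterm]
    rw [← Finset.mul_sum, Finset.sum_comm]
    have h2 : ∑ j ∈ Finset.range J, ∑ k ∈ V,
        ((if g j ≤ ((p i)⁻¹ : Equiv.Perm ℤ) k then (1 : ℝ) else 0)
          - (if g j ≤ k then (1 : ℝ) else 0)) ^ 2 ≤ J * K := by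
      calc _ ≤ ∑ j ∈ Finset.range J, (K : ℝ) := Finset.sum_le_sum (fun j _ => hind i j)
        _ = J * K := by simp
    gcongr
  rw [Fin.sum_univ_two]
  have h3 : (π / (2 * J)) ^ 2 * (J * K) = π ^ 2 * K / (4 * J) := by
    field_simp
    ring
  have h4 := hone 0
  have h5 := hone 1
  rw [h3] at h4 h5
  have h6 : π ^ 2 < 10 := by nlinarith
  have hK : (0 : ℝ) ≤ K := Nat.cast_nonneg K
  have h7 : π ^ 2 * K / (4 * J) < 1 / 16 := by
    rw [div_lt_div_iff₀ (by positivity) (by norm_num)]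
    nlinarith
  linarith

end Pool.Agent.Helper34.FG
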