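import Pool.Agent.Helper34.FG.Stat

/-!
Recurrence: some nontrivial word has only finite orbits.
-/

namespace Pool.Agent.Helper34.FG

open Real MeasureTheory FreeGroup Filter

theorem exists_pow_of_finite (p : Equiv.Perm ℤ) {G : Set ℤ} (hG : G.Finite) (hp : p '' G = G)
    {k : ℤ} (hk : k ∈ G) : ∃ M : ℕ, 0 < M ∧ (p ^ M) k = k := by
  have h1 : ∀ n : ℕ, (p ^ n) k ∈ G := by
    intro n
    induction n with
    | zero => simpa using hk
    | succ n ih =>
      rw [pow_succ']
      have : p ((p ^ n) k) ∈ p '' G := ⟨_, ih, rfl⟩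
      rw [hp] at this
      exact this
  have : Finite G := hG
  have h2 := not_injective_infinite_finite (fun n : ℕ => (⟨(p ^ n) k, h1 n⟩ : G))
  unfold Function.Injective at h2
  push Not at h2
  obtain ⟨a, b, hab, hne⟩ := h2
  have hab' : (p ^ a) k = (p ^ b) k := congrArg Subtype.val hab
  have key : ∀ a b : ℕ, a < b → (p ^ a) k = (p ^ b) k → ∃ M : ℕ, 0 < M ∧ (p ^ M) k = k := by
    intro a b hlt h
    refine ⟨b - a, by omega, ?_⟩
    have h3 : p ^ b = p ^ a * p ^ (b - a) := by rw [← pow_add]; congr 1; omega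
    rw [h3, Equiv.Perm.mul_apply] at h
    exact ((p ^ a).injective h).symm
  rcases lt_or_gt_of_ne hne with h | h
  · exact key a b h hab'
  · exact key b a h hab'.symm

theorem bound_of_finite {E : Set ℤ} (hE : (symmDiff E HL).Finite) :
    ∃ R : ℤ, (∀ k, R ≤ k → k ∈ E) ∧ (∀ k, k < -R → k ∉ E) := by
  obtain ⟨R, hR⟩ := hE.bddAbove
  obtain ⟨L, hL⟩ := hE.bddBelow
  refine ⟨max (max (R + 1) (-L)) 0, ?_, ?_⟩
  · intro k hk
    by_contra hcon
    have h1 : k ∈ symmDiff E HL := by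
      right
      refine ⟨?_, hcon⟩
      change 0 ≤ k
      exact le_trans (le_max_right _ _) hk
    have h2 := hR h1
    have h3 : R + 1 ≤ k := le_trans (le_trans (le_max_left _ _) (le_max_left _ _)) hk
    omega
  · intro k hk hcon
    have h0 : k < 0 := by
      have := le_max_right (max (R + 1) (-L)) 0
      omega
    have h1 : k ∈ symmDiff E HL := by
      left
      refine ⟨hcon, ?_⟩
      change ¬ (0 ≤ k)
      omega
    have h2 := hL h1
    have h3 : -L ≤ max (max (R + 1) (-L)) 0 := le_trans (le_max_right _ _) (le_max_left _ _)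
    omega

variable {X : Type*}

/-- finite orbits -/
theorem finite_orbits {T : Equiv.Perm X} {c : Fin 2 → X → ℤ} {P : X → Fin 2 → Equiv.Perm ℤ}
    (hP : ∀ x i k, P x i k = k + c i ((T ^ k) x)) {w : FreeGroup (Fin 2)} {E : Set ℤ}
    (hE : (symmDiff E HL).Finite) {x : X}
    (h1 : ∃ᶠ n : ℕ in atTop, (FreeGroup.lift (P ((T ^ (n : ℤ)) x)) w) '' E = E)
    (h2 : ∃ᶠ n : ℕ in atTop, (FreeGroup.lift (P ((T ^ (-(n : ℤ))) x)) w) '' E = E) (k : ℤ) :
    ∃ M : ℕ, 0 < M ∧ ((FreeGroup.lift (P x) w) ^ M) k = k := by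
  obtain ⟨R, hR1, hR2⟩ := bound_of_finite hE
  have key : ∀ j : ℤ, (FreeGroup.lift (P ((T ^ j) x)) w) '' E = E →
      (FreeGroup.lift (P x) w) '' ((fun k => k + j) '' E) = (fun k => k + j) '' E := by
    intro j hj
    ext m
    constructor
    · rintro ⟨_, ⟨e, he, rfl⟩, rfl⟩
      have h3 := pi_shift hP w x j e
      have h4 : FreeGroup.lift (P ((T ^ j) x)) w e ∈ E := by
        rw [← hj]; exact ⟨e, he, rfl⟩
      refine ⟨_, h4, ?_⟩
      simp only
      rw [h3]; ring
    · rintro ⟨e, he, rfl⟩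
      rw [← hj] at he
      obtain ⟨e', he', rfl⟩ := he
      refine ⟨e' + j, ⟨e', he', rfl⟩, ?_⟩
      rw [pi_shift hP w x j e']
      simp
  obtain ⟨a, ha, ha'⟩ := (frequently_atTop.1 h2) (R - k).toNat
  obtain ⟨b, hb, hb'⟩ := (frequently_atTop.1 h1) (k + R + 1).toNat
  have ha2 : R - k ≤ (a : ℤ) := Int.toNat_le.1 ha
  have hb2 : k + R + 1 ≤ (b : ℤ) := Int.toNat_le.1 hb
  have k1 := key _ ha'
  have k2 := key _ hb'
  set G : Set ℤ := ((fun k => k + (-(a : ℤ))) '' E) \ ((fun k => k + (b : ℤ)) '' E) with hG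
  have hpG : (FreeGroup.lift (P x) w) '' G = G := by
    rw [hG, Set.image_sdiff (FreeGroup.lift (P x) w).injective, k1, k2]
  have hGfin : G.Finite := by
    refine Set.Finite.subset (Set.finite_Icc (-(a : ℤ) - R) ((b : ℤ) + R)) ?_
    rintro m ⟨⟨e, he, rfl⟩, hm⟩
    simp only [Set.mem_Icc]
    constructor
    · by_contra hcon
      exact hR2 e (by omega) he
    · by_contra hcon
      apply hm
      refine ⟨e + (-(a : ℤ)) - b, hR1 _ (by omega), ?_⟩
      ring
  have hkG : k ∈ G := by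
    refine ⟨⟨k + a, hR1 _ (by omega), by ring⟩, ?_⟩
    rintro ⟨e, he, hek⟩
    simp only at hek
    exact hR2 e (by omega) he
  exact exists_pow_of_finite _ hGfin hpG hkG

variable [MeasurableSpace X]

theorem ae_finite_orbits {μ : Measure X} [IsFiniteMeasure μ] {T : Equiv.Perm X}
    {c : Fin 2 → X → ℤ} {P : X → Fin 2 → Equiv.Perm ℤ}
    (hP : ∀ x i k, P x i k = k + c i ((T ^ k) x))
    (hT : ∀ k : ℤ, MeasurePreserving (T ^ k : Equiv.Perm X) μ μ)
    (hc : ∀ i, Measurable (c i)) (hi : ∀ i, Integrable (fun x => (c i x : ℝ)) μ) :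
    ∀ᵐ x ∂μ, ∃ w : FreeGroup (Fin 2), w ≠ 1 ∧
      ∀ k : ℤ, ∃ M : ℕ, 0 < M ∧ ((FreeGroup.lift (P x) w) ^ M) k = k := by
  classical
  let E : Finset ℤ → Set ℤ := fun F => symmDiff (F : Set ℤ) HL
  have hEfin : ∀ F, (symmDiff (E F) HL).Finite := by
    intro F
    simp only [E]
    rw [symmDiff_symmDiff_cancel_right]
    exact F.finite_toSet
  let B : FreeGroup (Fin 2) → Finset ℤ → Set X := fun w F =>
    {x | (FreeGroup.lift (P x) w) '' (E F) = E F}
  have hBm : ∀ w F, MeasurableSet (B w F) := by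
    intro w F
    have hmeas := measurable_pi hP (fun k => (hT k).measurable) hc w⁻¹
    have h1 : B w F = ⋂ k : ℤ, {x | (FreeGroup.lift (P x) w⁻¹ k ∈ E F) ↔ k ∈ E F} := by
      ext x
      simp only [B, Set.mem_ofPred_eq, Set.mem_iInter]
      rw [Set.ext_iff]
      apply forall_congr'
      intro k
      have h2 : k ∈ (FreeGroup.lift (P x) w) '' (E F) ↔ FreeGroup.lift (P x) w⁻¹ k ∈ E F := by
        rw [_root_.map_inv]
        constructor
        · rintro ⟨j, hj, rfl⟩
          simpa using hj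
        · intro h
          exact ⟨_, h, by simp⟩
      rw [h2]
    rw [h1]
    refine MeasurableSet.iInter (fun k => ?_)
    have h3 : {x | (FreeGroup.lift (P x) w⁻¹ k ∈ E F) ↔ k ∈ E F}
        = (fun x => FreeGroup.lift (P x) w⁻¹ k) ⁻¹' {m | m ∈ E F ↔ k ∈ E F} := rfl
    rw [h3]
    exact hmeas k (Set.to_countable _).measurableSet
  have hrec : ∀ w F, ∀ᵐ x ∂μ, x ∈ B w F →
      ∀ k : ℤ, ∃ M : ℕ, 0 < M ∧ ((FreeGroup.lift (P x) w) ^ M) k = k := by
    intro w F
    have c1 : Conservative (T ^ (1 : ℤ) : Equiv.Perm X) μ := (hT 1).conservative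
    have c2 : Conservative (T ^ (-1 : ℤ) : Equiv.Perm X) μ := (hT (-1)).conservative
    have r1 := c1.ae_mem_imp_frequently_image_mem (hBm w F).nullMeasurableSet
    have r2 := c2.ae_mem_imp_frequently_image_mem (hBm w F).nullMeasurableSet
    filter_upwards [r1, r2] with x hx1 hx2 hx k
    refine finite_orbits hP (hEfin F) ((hx1 hx).mono ?_) ((hx2 hx).mono ?_) k
    · intro n hn
      have : ((T ^ (1 : ℤ) : Equiv.Perm X) : X → X)^[n] x = (T ^ (n : ℤ)) x := by
        rw [Equiv.Perm.iterate_eq_pow, zpow_one, zpow_natCast]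
      rw [this] at hn
      exact hn
    · intro n hn
      have : ((T ^ (-1 : ℤ) : Equiv.Perm X) : X → X)^[n] x = (T ^ (-(n : ℤ))) x := by
        rw [Equiv.Perm.iterate_eq_pow, ← zpow_natCast, ← zpow_mul]
        simp
      rw [this] at hn
      exact hn
  have hcount : ∀ᵐ x ∂μ, ∀ w : FreeGroup (Fin 2), ∀ F : Finset ℤ, x ∈ B w F →
      ∀ k : ℤ, ∃ M : ℕ, 0 < M ∧ ((FreeGroup.lift (P x) w) ^ M) k = k := by
    have : Countable (FreeGroup (Fin 2)) := by
      unfold FreeGroup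
      infer_instance
    rw [ae_all_iff]
    intro w
    rw [ae_all_iff]
    intro F
    exact hrec w F
  filter_upwards [ae_exists_fixed hP hT hc hi, hcount] with x h1 h2
  obtain ⟨w, hw, E', hE', hwE⟩ := h1
  refine ⟨w, hw, ?_⟩
  apply h2 w hE'.toFinset
  simp only [B, E, Set.mem_ofPred_eq, Set.Finite.coe_toFinset]
  rw [symmDiff_symmDiff_cancel_right, hwE]

end Pool.Agent.Helper34.FG
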