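import Pool.Agent.Helper34.FG.Gap
import Pool.Agent.Helper34.FG.Recur

/-!
Stationary pairs of permutations of the integers that move finitely many points across the origin.
-/

namespace Pool.Agent.Helper34.FG

open Real MeasureTheory FreeGroup Filter

variable {X : Type*}

theorem crossLe_shift {T : Equiv.Perm X} {c : Fin 2 → X → ℤ} {P : X → Fin 2 → Equiv.Perm ℤ}
    (hP : ∀ x i k, P x i k = k + c i ((T ^ k) x)) {x : X} {n : ℤ} {i : Fin 2} {K : ℕ}
    (h : CrossLe (P ((T ^ n) x) i) 0 K) : CrossLe (P x i) n K := by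
  classical
  obtain ⟨S, hS1, hS2⟩ := h
  refine ⟨S.image (fun k => k + n), Finset.card_image_le.trans hS1, ?_⟩
  intro k hk
  rw [Finset.mem_image]
  refine ⟨k - n, hS2 _ ?_, by ring⟩
  have h1 : P ((T ^ n) x) i (k - n) = P x i k - n := by
    rw [hP, hP, zpow_zpow_apply]
    have : k - n + n = k := by ring
    rw [this]; ring
  rw [h1]
  intro hcon
  apply hk
  constructor
  · intro h2
    have := hcon.1 (by omega)
    omega
  · intro h2
    have := hcon.2 (by omega)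
    omega

theorem cross_bounded {q : Equiv.Perm ℤ} (h : {k : ℤ | ¬ (0 ≤ k ↔ 0 ≤ q k)}.Finite) (g : ℤ) :
    ∃ M : ℤ, ∀ k, ¬ (g ≤ k ↔ g ≤ q k) → k < M ∧ q k < M := by
  have hfin : {k : ℤ | ¬ (g ≤ k ↔ g ≤ q k)}.Finite := by
    have h2 : {k : ℤ | ¬ (g ≤ k ↔ g ≤ q k)} ⊆ {k : ℤ | ¬ (0 ≤ k ↔ 0 ≤ q k)}
        ∪ (Set.Icc (-|g|) |g| ∪ q ⁻¹' (Set.Icc (-|g|) |g|)) := by
      intro k hk
      simp only [Set.mem_union, Set.mem_ofPred_eq, Set.mem_preimage, Set.mem_Icc] at hk ⊢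
      by_contra hcon
      simp only [not_or, not_and_or, not_le, not_not] at hcon
      obtain ⟨h3, h4, h5⟩ := hcon
      rcases abs_cases g with ⟨h6, h7⟩ | ⟨h6, h7⟩ <;> rw [h6] at h4 h5 <;>
      · apply hk
        constructor
        · intro h8
          have h9 := h3.1
          rcases h4 with h4 | h4 <;> rcases h5 with h5 | h5 <;> omega
        · intro h8
          have h9 := h3.2
          rcases h4 with h4 | h4 <;> rcases h5 with h5 | h5 <;> omega
    refine Set.Finite.subset (h.union ((Set.finite_Icc _ _).union ?_)) h2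
    exact (Set.finite_Icc _ _).preimage q.injective.injOn
  obtain ⟨A, hA⟩ := hfin.bddAbove
  obtain ⟨B, hB⟩ := (hfin.image q).bddAbove
  refine ⟨max A B + 1, fun k hk => ?_⟩
  have h1 := hA hk
  have h2 := hB ⟨k, hk, rfl⟩
  have h3 := le_max_left A B
  have h4 := le_max_right A B
  constructor <;> omega

variable [MeasurableSpace X]

theorem ae_exists_fixed' {μ : Measure X} [IsFiniteMeasure μ] {T : Equiv.Perm X}
    {c : Fin 2 → X → ℤ} {P : X → Fin 2 → Equiv.Perm ℤ}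
    (hP : ∀ x i k, P x i k = k + c i ((T ^ k) x))
    (hT : ∀ k : ℤ, MeasurePreserving (T ^ k : Equiv.Perm X) μ μ)
    (hc : ∀ i, Measurable (c i))
    (hf : ∀ i, ∀ᵐ x ∂μ, {k : ℤ | ¬ (0 ≤ k ↔ 0 ≤ k + c i ((T ^ k) x))}.Finite) :
    ∀ᵐ x ∂μ, ∃ w : FreeGroup (Fin 2), w ≠ 1 ∧ ∃ E : Set ℤ, (symmDiff E HL).Finite ∧
      (FreeGroup.lift (P x) w) '' E = E := by
  classical
  let A : ℕ → Set X := fun K => {x | ∀ i, CrossLe (P x i) 0 K}
  have hAm : ∀ K, MeasurableSet (A K) := by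
    intro K
    have h1 : A K = ⋂ i : Fin 2, ⋃ S : {S : Finset ℤ // S.card ≤ K}, ⋂ k : ℤ,
        {x | ¬ (0 ≤ k ↔ 0 ≤ P x i k) → k ∈ S.1} := by
      ext x
      simp only [A, CrossLe, Set.mem_ofPred_eq, Set.mem_iInter, Set.mem_iUnion, Subtype.exists,
        exists_prop]
    rw [h1]
    refine MeasurableSet.iInter (fun i => MeasurableSet.iUnion (fun S =>
      MeasurableSet.iInter (fun k => ?_)))
    have h2 : {x | ¬ (0 ≤ k ↔ 0 ≤ P x i k) → k ∈ S.1}
        = (fun x => k + c i ((T ^ k) x)) ⁻¹' {m | ¬ (0 ≤ k ↔ 0 ≤ m) → k ∈ S.1} := by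
      ext x
      simp only [Set.mem_ofPred_eq, Set.mem_preimage, hP]
    rw [h2]
    exact (measurable_const.add ((hc i).comp (hT k).measurable))
      (Set.to_countable _).measurableSet
  have hrec : ∀ᵐ x ∂μ, ∀ K, x ∈ A K → ∃ᶠ n : ℕ in atTop, (T ^ (n : ℤ)) x ∈ A K := by
    rw [ae_all_iff]
    intro K
    have c1 : Conservative (T ^ (1 : ℤ) : Equiv.Perm X) μ := (hT 1).conservative
    have r1 := c1.ae_mem_imp_frequently_image_mem (hAm K).nullMeasurableSet
    filter_upwards [r1] with x hx1 hx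
    refine (hx1 hx).mono ?_
    intro n hn
    have : ((T ^ (1 : ℤ) : Equiv.Perm X) : X → X)^[n] x = (T ^ (n : ℤ)) x := by
      rw [Equiv.Perm.iterate_eq_pow, zpow_one, zpow_natCast]
    rw [this] at hn
    exact hn
  filter_upwards [hrec, hf 0, hf 1] with x hx hf0 hf1
  have hfin : ∀ i, {k : ℤ | ¬ (0 ≤ k ↔ 0 ≤ P x i k)}.Finite := by
    intro i
    simp_rw [hP]
    fin_cases i
    · exact hf0
    · exact hf1
  have hxA : ∃ K, x ∈ A K := by
    refine ⟨max (hfin 0).toFinset.card (hfin 1).toFinset.card, ?_⟩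
    intro i
    refine ⟨(hfin i).toFinset, ?_, fun k hk => by simpa using hk⟩
    fin_cases i
    · exact le_max_left _ _
    · exact le_max_right _ _
  obtain ⟨K, hK⟩ := hxA
  have hfr := frequently_atTop.1 (hx K hK)
  refine exists_fixed_of_gaps (P x) (fun i g => cross_bounded (hfin i) g)
    (fun i => (mem_finCut_iff _).2 (hfin i)) K ?_
  intro M
  obtain ⟨n, hn, hn'⟩ := hfr M.toNat
  refine ⟨n, Int.toNat_le.1 hn, fun i => ?_⟩
  exact crossLe_shift hP (hn' i)

theorem ae_finite_orbits' {μ : Measure X} [IsFiniteMeasure μ] {T : Equiv.Perm X}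
    {c : Fin 2 → X → ℤ} {P : X → Fin 2 → Equiv.Perm ℤ}
    (hP : ∀ x i k, P x i k = k + c i ((T ^ k) x))
    (hT : ∀ k : ℤ, MeasurePreserving (T ^ k : Equiv.Perm X) μ μ)
    (hc : ∀ i, Measurable (c i))
    (hf : ∀ i, ∀ᵐ x ∂μ, {k : ℤ | ¬ (0 ≤ k ↔ 0 ≤ k + c i ((T ^ k) x))}.Finite) :
    ∀ᵐ x ∂μ, ∃ w : FreeGroup (Fin 2), w ≠ 1 ∧
      ∀ k : ℤ, ∃ M : ℕ, 0 < M ∧ ((FreeGroup.lift (P x) w) ^ M) k = k := by
  classical
  let E : Finset ℤ → Set ℤ := fun F => symmDiff (F : Set ℤ) HL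
  have hEfin : ∀ F, (symmDiff (E F) HL).Finite := by
    intro F
    simp only [E]
    rw [symmDiff_symmDiff_cancel_right]
    exact F.finite_toSet
  let B : FreeGroup (Fin 2) → Finset ℤ → Set X := fun w F =>
    {x | (FreeGroup.lift (P x) w) '' (E F) = E F}
  have hBm : ∀ w F, MeasurableSet (B w F) := by
    intro w F
    have hmeas := measurable_pi hP (fun k => (hT k).measurable) hc w⁻¹
    have h1 : B w F = ⋂ k : ℤ, {x | (FreeGroup.lift (P x) w⁻¹ k ∈ E F) ↔ k ∈ E F} := by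
      ext x
      simp only [B, Set.mem_ofPred_eq, Set.mem_iInter]
      rw [Set.ext_iff]
      apply forall_congr'
      intro k
      have h2 : k ∈ (FreeGroup.lift (P x) w) '' (E F) ↔ FreeGroup.lift (P x) w⁻¹ k ∈ E F := by
        rw [_root_.map_inv]
        constructor
        · rintro ⟨j, hj, rfl⟩
          simpa using hj
        · intro h
          exact ⟨_, h, by simp⟩
      rw [h2]
    rw [h1]
    refine MeasurableSet.iInter (fun k => ?_)
    have h3 : {x | (FreeGroup.lift (P x) w⁻¹ k ∈ E F) ↔ k ∈ E F}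
        = (fun x => FreeGroup.lift (P x) w⁻¹ k) ⁻¹' {m | m ∈ E F ↔ k ∈ E F} := rfl
    rw [h3]
    exact hmeas k (Set.to_countable _).measurableSet
  have hrec : ∀ w F, ∀ᵐ x ∂μ, x ∈ B w F →
      ∀ k : ℤ, ∃ M : ℕ, 0 < M ∧ ((FreeGroup.lift (P x) w) ^ M) k = k := by
    intro w F
    have c1 : Conservative (T ^ (1 : ℤ) : Equiv.Perm X) μ := (hT 1).conservative
    have c2 : Conservative (T ^ (-1 : ℤ) : Equiv.Perm X) μ := (hT (-1)).conservative
    have r1 := c1.ae_mem_imp_frequently_image_mem (hBm w F).nullMeasurableSet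
    have r2 := c2.ae_mem_imp_frequently_image_mem (hBm w F).nullMeasurableSet
    filter_upwards [r1, r2] with x hx1 hx2 hx k
    refine finite_orbits hP (hEfin F) ((hx1 hx).mono ?_) ((hx2 hx).mono ?_) k
    · intro n hn
      have : ((T ^ (1 : ℤ) : Equiv.Perm X) : X → X)^[n] x = (T ^ (n : ℤ)) x := by
        rw [Equiv.Perm.iterate_eq_pow, zpow_one, zpow_natCast]
      rw [this] at hn
      exact hn
    · intro n hn
      have : ((T ^ (-1 : ℤ) : Equiv.Perm X) : X → X)^[n] x = (T ^ (-(n : ℤ))) x := by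
        rw [Equiv.Perm.iterate_eq_pow, ← zpow_natCast, ← zpow_mul]
        simp
      rw [this] at hn
      exact hn
  have hcount : ∀ᵐ x ∂μ, ∀ w : FreeGroup (Fin 2), ∀ F : Finset ℤ, x ∈ B w F →
      ∀ k : ℤ, ∃ M : ℕ, 0 < M ∧ ((FreeGroup.lift (P x) w) ^ M) k = k := by
    have : Countable (FreeGroup (Fin 2)) := by
      unfold FreeGroup
      infer_instance
    rw [ae_all_iff]
    intro w
    rw [ae_all_iff]
    intro F
    exact hrec w F
  filter_upwards [ae_exists_fixed' hP hT hc hf, hcount] with x h1 h2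
  obtain ⟨w, hw, E', hE', hwE⟩ := h1
  refine ⟨w, hw, ?_⟩
  apply h2 w hE'.toFinset
  simp only [B, E, Set.mem_ofPred_eq, Set.Finite.coe_toFinset]
  rw [symmDiff_symmDiff_cancel_right, hwE]

end Pool.Agent.Helper34.FG
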