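import Mathlib

/-!
Commutation in free groups.
-/

namespace Pool.Agent.Helper34.FG

open FreeGroup

universe u

theorem isCyclic_freeGroup_of_subsingleton (ι : Type u) [Subsingleton ι] :
    IsCyclic (FreeGroup ι) := by
  rcases isEmpty_or_nonempty ι with h | h
  · have : Subsingleton (FreeGroup ι) := by
      constructor
      intro a b
      have key : ∀ a : FreeGroup ι, a = 1 := by
        intro a
        induction a using FreeGroup.induction_on with
        | C1 => rfl
        | of i => exact (h.false i).elim
        | inv_of i _ => exact (h.false i).elim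
        | mul x y hx hy => rw [hx, hy, one_mul]
      rw [key a, key b]
    exact isCyclic_of_subsingleton
  · obtain ⟨i⟩ := h
    have : Unique ι := { default := i, uniq := fun a => Subsingleton.elim a i }
    infer_instance

theorem of_not_commute {ι : Type u} {a b : ι} (hab : a ≠ b) :
    ¬ Commute (FreeGroup.of a) (FreeGroup.of b) := by
  classical
  intro h
  let f : ι → Equiv.Perm (Fin 3) := fun i => if i = a then Equiv.swap 0 1 else Equiv.swap 1 2
  have h2 : Commute (FreeGroup.lift f (FreeGroup.of a)) (FreeGroup.lift f (FreeGroup.of b)) :=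
    h.map (FreeGroup.lift f)
  rw [FreeGroup.lift_apply_of, FreeGroup.lift_apply_of] at h2
  simp only [f, if_true, if_neg hab.symm] at h2
  revert h2
  unfold Commute SemiconjBy
  decide

theorem cyclic_of_commute {ι : Type u} (u v : FreeGroup ι) (h : Commute u v) :
    ∃ z : FreeGroup ι, u ∈ Subgroup.zpowers z ∧ v ∈ Subgroup.zpowers z := by
  classical
  set H : Subgroup (FreeGroup ι) := Subgroup.closure {u, v} with hH
  have hcomm : ∀ x ∈ H, ∀ y ∈ H, x * y = y * x := by
    have : IsMulCommutative H := Subgroup.isMulCommutative_closure (by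
      intro x hx y hy
      rcases hx with rfl | rfl <;> rcases hy with rfl | rfl
      · rfl
      · exact h
      · exact h.symm
      · rfl)
    intro x hx y hy
    have h1 := this.is_comm.comm ⟨x, hx⟩ ⟨y, hy⟩
    exact congrArg Subtype.val h1
  have hsub : Subsingleton (IsFreeGroup.Generators H) := by
    constructor
    intro a b
    by_contra hab
    apply of_not_commute hab
    set e := IsFreeGroup.toFreeGroup H with he
    have h1 : Commute (e.symm (FreeGroup.of a)) (e.symm (FreeGroup.of b)) := by
      apply Subtype.ext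
      exact hcomm _ (e.symm (FreeGroup.of a)).2 _ (e.symm (FreeGroup.of b)).2
    have h2 := h1.map e
    simpa using h2
  have hc : IsCyclic H := by
    have := isCyclic_freeGroup_of_subsingleton (IsFreeGroup.Generators H)
    exact isCyclic_of_surjective (IsFreeGroup.toFreeGroup H).symm
      (IsFreeGroup.toFreeGroup H).symm.surjective
  obtain ⟨g, hg⟩ := hc.exists_generator
  refine ⟨g, ?_, ?_⟩
  · obtain ⟨n, hn⟩ := hg ⟨u, Subgroup.subset_closure (by simp)⟩
    exact ⟨n, by simpa using congrArg Subtype.val hn⟩
  · obtain ⟨n, hn⟩ := hg ⟨v, Subgroup.subset_closure (by simp)⟩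
    exact ⟨n, by simpa using congrArg Subtype.val hn⟩

/-- exponent sum at a letter -/
noncomputable def expo {ι : Type u} [DecidableEq ι] (a : ι) : FreeGroup ι →* Multiplicative ℤ :=
  FreeGroup.lift (fun i => if i = a then Multiplicative.ofAdd 1 else 1)

theorem eq_one_of_commute_of {ι : Type u} {a b : ι} (hab : a ≠ b) {u : FreeGroup ι}
    (ha : Commute u (FreeGroup.of a)) (hb : Commute u (FreeGroup.of b)) : u = 1 := by
  classical
  by_contra hu
  -- `u` is a power of `of c` for each of the two letters
  have key : ∀ c : ι, Commute u (FreeGroup.of c) → ∃ n : ℤ, u = FreeGroup.of c ^ n := by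
    intro c hc
    obtain ⟨z, ⟨m, hm⟩, ⟨n, hn⟩⟩ := cyclic_of_commute u (FreeGroup.of c) hc
    simp only at hm hn
    have h1 : expo c (z ^ n) = Multiplicative.ofAdd (1 : ℤ) := by
      rw [hn]; simp [expo]
    have h2 : n * Multiplicative.toAdd (expo c z) = 1 := by
      have h3 := congrArg Multiplicative.toAdd h1
      rw [map_zpow] at h3
      simpa using h3
    have h4 : n = 1 ∨ n = -1 := by
      rcases Int.eq_one_or_neg_one_of_mul_eq_one h2 with h | h
      · left; exact h
      · right; exact h
    rcases h4 with rfl | rfl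
    · refine ⟨m, ?_⟩
      rw [← hn, ← hm]; simp
    · refine ⟨-m, ?_⟩
      rw [← hn, ← hm]; simp
  obtain ⟨n, hn⟩ := key a ha
  obtain ⟨m, hm⟩ := key b hb
  have h1 : expo a u = Multiplicative.ofAdd n := by
    rw [hn, map_zpow]; simp [expo, ← ofAdd_zsmul]
  have h2 : expo a u = 1 := by
    rw [hm, map_zpow]; simp [expo, hab.symm]
  rw [h2] at h1
  have h3 : n = 0 := by
    have := congrArg Multiplicative.toAdd h1
    simpa using this.symm
  apply hu
  rw [hn, h3, zpow_zero]

theorem centralizer_cyclic {ι : Type u} {u : FreeGroup ι} (hu : u ≠ 1) :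
    ∃ z : FreeGroup ι, Commute z u ∧ ∀ g, Commute g u → g ∈ Subgroup.zpowers z := by
  classical
  set H : Subgroup (FreeGroup ι) := Subgroup.centralizer {u} with hH
  have hmem : ∀ g, g ∈ H ↔ Commute g u := by
    intro g
    rw [hH, Subgroup.mem_centralizer_singleton_iff]
    constructor
    · intro h; exact h
    · intro h; exact h
  have huH : u ∈ H := (hmem u).2 (Commute.refl u)
  set e := IsFreeGroup.toFreeGroup H with he
  have hsub : Subsingleton (IsFreeGroup.Generators H) := by
    constructor
    intro a b
    by_contra hab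
    have hcen : ∀ x : H, Commute (e ⟨u, huH⟩) (e x) := by
      intro x
      apply Commute.map _ e
      apply Subtype.ext
      exact ((hmem x).1 x.2).symm
    have h1 := hcen (e.symm (FreeGroup.of a))
    have h2 := hcen (e.symm (FreeGroup.of b))
    rw [MulEquiv.apply_symm_apply] at h1 h2
    have h3 := eq_one_of_commute_of hab h1 h2
    apply hu
    have h4 : (⟨u, huH⟩ : H) = 1 := by
      apply e.injective
      rw [h3, _root_.map_one]
    exact congrArg Subtype.val h4
  have hc : IsCyclic H := by
    have := isCyclic_freeGroup_of_subsingleton (IsFreeGroup.Generators H)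
    exact isCyclic_of_surjective (IsFreeGroup.toFreeGroup H).symm
      (IsFreeGroup.toFreeGroup H).symm.surjective
  obtain ⟨g, hg⟩ := hc.exists_generator
  refine ⟨g, (hmem g).1 g.2, ?_⟩
  intro x hx
  obtain ⟨n, hn⟩ := hg ⟨x, (hmem x).2 hx⟩
  exact ⟨n, by simpa using congrArg Subtype.val hn⟩

theorem commute_trans {ι : Type u} {x y z : FreeGroup ι} (hy : y ≠ 1) (h1 : Commute x y)
    (h2 : Commute z y) : Commute x z := by
  obtain ⟨w, -, hw⟩ := centralizer_cyclic hy
  obtain ⟨n, hn⟩ := hw x h1
  obtain ⟨m, hm⟩ := hw z h2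
  simp only at hn hm
  rw [← hn, ← hm]
  exact (Commute.refl w).zpow_zpow n m

theorem exists_not_commute (u v : FreeGroup (Fin 2)) (hu : u ≠ 1) (hv : v ≠ 1) :
    ∃ k : FreeGroup (Fin 2), ¬ Commute u (k * v * k⁻¹) := by
  by_contra hcon
  push Not at hcon
  have hvk : ∀ k, Commute (k * v * k⁻¹) v := by
    intro k
    apply commute_trans hu (hcon k).symm
    have := hcon 1
    simpa using this.symm
  obtain ⟨z, hzv, hz⟩ := centralizer_cyclic hv
  have hz1 : z ≠ 1 := by
    rintro rfl
    obtain ⟨n, hn⟩ := hz v (Commute.refl v)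
    simp only [one_zpow] at hn
    exact hv hn.symm
  have hconj : ∀ g : FreeGroup (Fin 2), g * z * g⁻¹ ∈ Subgroup.zpowers z := by
    intro g
    apply hz
    have h1 : Commute (g * z * g⁻¹) (g * v * g⁻¹) := by
      have := hzv.map (MulAut.conj g)
      simpa [MulAut.conj_apply] using this
    refine commute_trans (y := g * v * g⁻¹) ?_ h1 (hvk g).symm
    intro h
    apply hv
    rwa [conj_eq_one_iff] at h
  have hgen : ∀ g : FreeGroup (Fin 2), g ≠ 1 → Commute z g := by
    intro g hg
    obtain ⟨m, hm⟩ := hconj g
    obtain ⟨n, hn⟩ := hconj g⁻¹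
    simp only [inv_inv] at hm hn
    have h1 : z ^ (m * n) = z := by
      rw [zpow_mul, hm, conj_zpow, hn]
      group
    have h2 : m * n = 1 := by
      have h0 : z ^ (m * n - 1) = 1 := by rw [zpow_sub_one, h1, mul_inv_cancel]
      have h00 := (IsMulTorsionFree.zpow_eq_one_iff_right hz1).1 h0
      omega
    have h3 : Commute z (g ^ 2) := by
      have h4 : g * (g * z * g⁻¹) * g⁻¹ = z := by
        rcases Int.eq_one_or_neg_one_of_mul_eq_one h2 with h | h
        · rw [← hm, h, zpow_one, ← hm, h, zpow_one]
        · rw [← hm, h, zpow_neg, zpow_one]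
          have h5 : g * z⁻¹ * g⁻¹ = (g * z * g⁻¹)⁻¹ := by group
          rw [h5, ← hm, h, zpow_neg, zpow_one, inv_inv]
      change z * g ^ 2 = g ^ 2 * z
      have h6 : g ^ 2 * z = (g * (g * z * g⁻¹) * g⁻¹) * g ^ 2 := by
        simp only [pow_two, mul_assoc, inv_mul_cancel_left, inv_mul_cancel, mul_one]
      rw [h6, h4]
    have h7 : g ^ 2 ≠ 1 := by
      intro h
      exact hg ((pow_eq_one_iff_left (two_ne_zero)).1 h)
    exact commute_trans h7 h3 ((Commute.refl g).pow_right 2)
  apply hz1
  refine eq_one_of_commute_of (a := (0 : Fin 2)) (b := 1) (by decide) ?_ ?_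
  · apply hgen
    exact FreeGroup.of_ne_one 0
  · apply hgen
    exact FreeGroup.of_ne_one 1

end Pool.Agent.Helper34.FG
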