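import Pool.Agent.Helper34.FG.Grp

/-!
Conjugates that commute in free groups.
-/

namespace Pool.Agent.Helper34.FG

universe u

/-- in a free group an element normalising the centraliser of `v` centralises it -/
theorem commute_of_commute_conj {ι : Type u} {g v : FreeGroup ι} (hv : v ≠ 1)
    (h : Commute (g * v * g⁻¹) v) : Commute g v := by
  rcases eq_or_ne g 1 with rfl | hg
  · exact Commute.one_left v
  obtain ⟨z, hzv, hz⟩ := centralizer_cyclic hv
  have hz1 : z ≠ 1 := by
    rintro rfl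
    obtain ⟨n, hn⟩ := hz v (Commute.refl v)
    simp only [one_zpow] at hn
    exact hv hn.symm
  have hconj : ∀ g : FreeGroup ι, Commute (g * v * g⁻¹) v → g * z * g⁻¹ ∈ Subgroup.zpowers z := by
    intro g h
    apply hz
    have h1 : Commute (g * z * g⁻¹) (g * v * g⁻¹) := by
      have := hzv.map (MulAut.conj g)
      simpa [MulAut.conj_apply] using this
    refine commute_trans (y := g * v * g⁻¹) ?_ h1 h.symm
    intro h
    apply hv
    rwa [conj_eq_one_iff] at h
  have h' : Commute (g⁻¹ * v * g⁻¹⁻¹) v := by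
    have h2 := (h.map (MulAut.conj g⁻¹)).symm
    simp only [MulAut.conj_apply, inv_inv] at h2 ⊢
    have e : g⁻¹ * (g * v * g⁻¹) * g = v := by group
    rw [e] at h2
    exact h2
  obtain ⟨m, hm⟩ := hconj g h
  obtain ⟨n, hn⟩ := hconj g⁻¹ h'
  simp only [inv_inv] at hm hn
  have h1 : z ^ (m * n) = z := by
    rw [zpow_mul, hm, conj_zpow, hn]
    group
  have h2 : m * n = 1 := by
    have h0 : z ^ (m * n - 1) = 1 := by rw [zpow_sub_one, h1, mul_inv_cancel]
    have h00 := (IsMulTorsionFree.zpow_eq_one_iff_right hz1).1 h0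
    omega
  have h3 : Commute z (g ^ 2) := by
    have h4 : g * (g * z * g⁻¹) * g⁻¹ = z := by
      rcases Int.eq_one_or_neg_one_of_mul_eq_one h2 with h | h
      · rw [← hm, h, zpow_one, ← hm, h, zpow_one]
      · rw [← hm, h, zpow_neg, zpow_one]
        have h5 : g * z⁻¹ * g⁻¹ = (g * z * g⁻¹)⁻¹ := by group
        rw [h5, ← hm, h, zpow_neg, zpow_one, inv_inv]
    change z * g ^ 2 = g ^ 2 * z
    have h6 : g ^ 2 * z = (g * (g * z * g⁻¹) * g⁻¹) * g ^ 2 := by
      simp only [pow_two, mul_assoc, inv_mul_cancel_left, inv_mul_cancel, mul_one]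
    rw [h6, h4]
  have h7 : g ^ 2 ≠ 1 := by
    intro h
    exact hg ((pow_eq_one_iff_left (two_ne_zero)).1 h)
  have h8 : Commute z g := commute_trans h7 h3 ((Commute.refl g).pow_right 2)
  exact commute_trans hz1 h8.symm hzv.symm

theorem exists_gen_not_commute {u : FreeGroup (Fin 2)} (hu : u ≠ 1) :
    ∃ i : Fin 2, ¬ Commute u (FreeGroup.of i * u * (FreeGroup.of i)⁻¹) := by
  by_contra hcon
  push Not at hcon
  apply hu
  refine eq_one_of_commute_of (a := (0 : Fin 2)) (b := 1) (by decide) ?_ ?_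
  · exact (commute_of_commute_conj hu (hcon 0).symm).symm
  · exact (commute_of_commute_conj hu (hcon 1).symm).symm

theorem not_commute_or {h₁ h₂ z : FreeGroup (Fin 2)} (hh : ¬ Commute h₁ h₂) (hz : z ≠ 1) :
    ¬ Commute z h₁ ∨ ¬ Commute z h₂ := by
  by_contra hcon
  push Not at hcon
  exact hh (commute_trans hz hcon.1.symm hcon.2.symm)

theorem exists_not_commute_of_pair {h₁ h₂ u v : FreeGroup (Fin 2)} (hh : ¬ Commute h₁ h₂)
    (hu : u ≠ 1) (hv : v ≠ 1) :
    ∃ k, (k = 1 ∨ k = h₁ ∨ k = h₂) ∧ ¬ Commute u (k * v * k⁻¹) := by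
  by_contra hcon
  push Not at hcon
  have h0 : Commute u v := by simpa using hcon 1 (Or.inl rfl)
  have h1 := hcon h₁ (Or.inr (Or.inl rfl))
  have h2 := hcon h₂ (Or.inr (Or.inr rfl))
  have e1 : Commute h₁ v := commute_of_commute_conj hv (commute_trans hu h1.symm h0.symm)
  have e2 : Commute h₂ v := commute_of_commute_conj hv (commute_trans hu h2.symm h0.symm)
  exact hh (commute_trans hv e1 e2)

end Pool.Agent.Helper34.FG
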