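import Pool.Agent.Helper34.FG.Mass

/-!
From skew transformations over a full group to permutations of the orbits.
-/

namespace Pool.Agent.Helper34.FG

open MeasureTheory FreeGroup

variable {X A : Type*} [CommGroup A]

theorem orbit_bijective {T : Equiv.Perm X} {c : X → ℤ} {θ : X → A} {s : Equiv.Perm (X × A)}
    (hs : ∀ x z, s (x, z) = ((T ^ (c x)) x, θ x * z)) (x : X) :
    Function.Bijective (fun k : ℤ => k + c ((T ^ k) x)) := by
  constructor
  · intro k l hkl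
    simp only at hkl
    have h1 : s ((T ^ k) x, (θ ((T ^ k) x))⁻¹) = s ((T ^ l) x, (θ ((T ^ l) x))⁻¹) := by
      rw [hs, hs, zpow_zpow_apply, zpow_zpow_apply, mul_inv_cancel, mul_inv_cancel,
        add_comm (c ((T ^ k) x)) k, add_comm (c ((T ^ l) x)) l, hkl]
    have h2 : (T ^ k) x = (T ^ l) x := congrArg Prod.fst (s.injective h1)
    rw [h2] at hkl
    omega
  · intro m
    obtain ⟨⟨y, z⟩, hy⟩ := s.surjective ((T ^ m) x, (1 : A))
    rw [hs] at hy
    have h1 : (T ^ (c y)) y = (T ^ m) x := congrArg Prod.fst hy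
    have h2 : (T ^ (m - c y)) x = y := by
      have h3 := congrArg (T ^ (-(c y)) : Equiv.Perm X) h1
      rw [zpow_zpow_apply, zpow_zpow_apply, neg_add_cancel, zpow_zero] at h3
      rw [sub_eq_neg_add, ← h3]
      rfl
    refine ⟨m - c y, ?_⟩
    simp only
    rw [h2]
    ring

theorem link {T : Equiv.Perm X} {c : Fin 2 → X → ℤ} {P : X → Fin 2 → Equiv.Perm ℤ}
    (hP : ∀ x i k, P x i k = k + c i ((T ^ k) x)) {θ : Fin 2 → X → A}
    {ρ : FreeGroup (Fin 2) →* Equiv.Perm (X × A)}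
    (hρ : ∀ i x z, ρ (FreeGroup.of i) (x, z) = ((T ^ (c i x)) x, θ i x * z))
    (w : FreeGroup (Fin 2)) (x : X) :
    ∀ (k : ℤ) (z : A), ∃ z' : A,
      ρ w ((T ^ k) x, z) = ((T ^ (FreeGroup.lift (P x) w k)) x, z') := by
  induction w using FreeGroup.induction_on with
  | C1 => intro k z; exact ⟨z, by simp⟩
  | of i =>
    intro k z
    refine ⟨θ i ((T ^ k) x) * z, ?_⟩
    rw [hρ, FreeGroup.lift_apply_of, hP, zpow_zpow_apply, add_comm]
  | inv_of i h =>
    intro k z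
    set j := (P x i)⁻¹ k with hj
    have hjk : P x i j = k := by rw [hj]; simp
    refine ⟨(θ i ((T ^ j) x))⁻¹ * z, ?_⟩
    rw [_root_.map_inv, _root_.map_inv, FreeGroup.lift_apply_of, Equiv.Perm.inv_eq_iff_eq, hρ,
      zpow_zpow_apply, mul_inv_cancel_left]
    have h1 : c i ((T ^ j) x) + j = k := by
      rw [← hjk, hP, add_comm]
    rw [← hj, h1]
  | mul u v hu hv =>
    intro k z
    obtain ⟨z1, h1⟩ := hv k z
    obtain ⟨z2, h2⟩ := hu (FreeGroup.lift (P x) v k) z1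
    refine ⟨z2, ?_⟩
    rw [_root_.map_mul, Equiv.Perm.mul_apply, h1, h2, _root_.map_mul, Equiv.Perm.mul_apply]

theorem fibre {T : Equiv.Perm X} {c : Fin 2 → X → ℤ} {θ : Fin 2 → X → A}
    {ρ : FreeGroup (Fin 2) →* Equiv.Perm (X × A)}
    (hρ : ∀ i x z, ρ (FreeGroup.of i) (x, z) = ((T ^ (c i x)) x, θ i x * z))
    (w : FreeGroup (Fin 2)) (a : A) :
    ∀ (x : X) (z : A), ρ w (x, z * a) = ((ρ w (x, z)).1, (ρ w (x, z)).2 * a) := by
  induction w using FreeGroup.induction_on with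
  | C1 => intro x z; simp
  | of i => intro x z; rw [hρ, hρ]; simp only [mul_assoc]
  | inv_of i h =>
    intro x z
    rw [_root_.map_inv, Equiv.Perm.inv_eq_iff_eq]
    have h1 := h ((ρ (FreeGroup.of i))⁻¹ (x, z)).1 ((ρ (FreeGroup.of i))⁻¹ (x, z)).2
    have h2 : (ρ (FreeGroup.of i)) ((ρ (FreeGroup.of i))⁻¹ (x, z)) = (x, z) :=
      (ρ (FreeGroup.of i)).apply_symm_apply (x, z)
    rw [Prod.mk.eta, h2] at h1
    exact h1.symm
  | mul u v hu hv =>
    intro x z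
    rw [_root_.map_mul, Equiv.Perm.mul_apply, hv, hu, Equiv.Perm.mul_apply]

theorem eq_self_of_commutator {T : Equiv.Perm X} {c : Fin 2 → X → ℤ}
    {P : X → Fin 2 → Equiv.Perm ℤ} (hP : ∀ x i k, P x i k = k + c i ((T ^ k) x))
    {θ : Fin 2 → X → A} {ρ : FreeGroup (Fin 2) →* Equiv.Perm (X × A)}
    (hρ : ∀ i x z, ρ (FreeGroup.of i) (x, z) = ((T ^ (c i x)) x, θ i x * z))
    (u v : FreeGroup (Fin 2)) {x : X} (hu : x ∉ Bad P u) (hv : x ∉ Bad P v) (z : A) :
    ρ (u * v * u⁻¹ * v⁻¹) (x, z) = (x, z) := by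
  have key : ∀ w, x ∉ Bad P w → ∃ α : A, ∀ z, ρ w (x, z) = (x, α * z) := by
    intro w hw
    have hw0 : FreeGroup.lift (P x) w 0 = 0 := by
      by_contra h; exact hw h
    obtain ⟨α, hα⟩ := link hP hρ w x 0 1
    rw [hw0] at hα
    simp only [zpow_zero, Equiv.Perm.coe_one, id_eq] at hα
    refine ⟨α, fun z => ?_⟩
    have h1 := fibre hρ w z x 1
    rw [one_mul, hα] at h1
    exact h1
  obtain ⟨α, hα⟩ := key u hu
  obtain ⟨β, hβ⟩ := key v hv
  have e : u * v * u⁻¹ * v⁻¹ = (u * v) * (v * u)⁻¹ := by group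
  have h1 : ρ ((v * u)⁻¹) (x, z) = (x, (β * α)⁻¹ * z) := by
    rw [_root_.map_inv, Equiv.Perm.inv_eq_iff_eq, _root_.map_mul, Equiv.Perm.mul_apply, hα, hβ]
    congr 1
    group
  rw [e, _root_.map_mul, Equiv.Perm.mul_apply, h1, _root_.map_mul, Equiv.Perm.mul_apply, hβ, hα]
  congr 1
  rw [mul_comm β α]
  group

theorem measurePreserving_zpow [MeasurableSpace X] {μ : Measure X} {T : Equiv.Perm X}
    (hT : MeasurePreserving T μ μ) (hT' : Measurable T.symm) (k : ℤ) :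
    MeasurePreserving (T ^ k : Equiv.Perm X) μ μ := by
  have hinv : MeasurePreserving (T⁻¹ : Equiv.Perm X) μ μ := by
    let e : X ≃ᵐ X := { toEquiv := T, measurable_toFun := hT.measurable, measurable_invFun := hT' }
    have he : MeasurePreserving e μ μ := hT
    exact he.symm
  have hpow : ∀ (S : Equiv.Perm X), MeasurePreserving S μ μ → ∀ n : ℕ,
      MeasurePreserving (S ^ n : Equiv.Perm X) μ μ := by
    intro S hS n
    rw [← Equiv.Perm.iterate_eq_pow]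
    exact hS.iterate n
  rcases Int.eq_nat_or_neg k with ⟨n, rfl | rfl⟩
  · rw [zpow_natCast]
    exact hpow T hT n
  · rw [zpow_neg, zpow_natCast, ← inv_pow]
    exact hpow _ hinv n

theorem main [MeasurableSpace X] (μ : Measure X) [IsProbabilityMeasure μ]
    (T : Equiv.Perm X) (hT : MeasurePreserving T μ μ) (hT' : Measurable T.symm)
    (c : Fin 2 → X → ℤ) (hc : ∀ i, Measurable (c i))
    (hi : ∀ i, Integrable (fun x => (c i x : ℝ)) μ)
    (θ : Fin 2 → X → A) (ρ : FreeGroup (Fin 2) →* Equiv.Perm (X × A))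
    (hρ : ∀ i x z, ρ (FreeGroup.of i) (x, z) = ((T ^ (c i x)) x, θ i x * z)) :
    ∀ ε : ENNReal, 0 < ε →
      ∃ w : FreeGroup (Fin 2), w ≠ 1 ∧ μ {x | ∃ z, ρ w (x, z) ≠ (x, z)} < ε := by
  intro ε hε
  let P : X → Fin 2 → Equiv.Perm ℤ := fun x i =>
    Equiv.ofBijective _ (orbit_bijective (c := c i) (θ := θ i) (s := ρ (FreeGroup.of i)) (hρ i) x)
  have hP : ∀ x i k, P x i k = k + c i ((T ^ k) x) := fun x i k => rfl
  have hTk := measurePreserving_zpow hT hT'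
  have hε2 : 0 < ε / 2 := ENNReal.div_pos hε.ne' (by simp)
  obtain ⟨Q, hQ1, hQ⟩ := exists_small hP hTk hc hi hε2
  obtain ⟨k, hk⟩ := exists_not_commute Q Q hQ1 hQ1
  refine ⟨Q * (k * Q * k⁻¹) * Q⁻¹ * (k * Q * k⁻¹)⁻¹, ?_, ?_⟩
  · intro h
    apply hk
    rw [mul_inv_eq_one] at h
    rw [mul_inv_eq_iff_eq_mul] at h
    exact h
  · have hsub : {x | ∃ z, ρ (Q * (k * Q * k⁻¹) * Q⁻¹ * (k * Q * k⁻¹)⁻¹) (x, z) ≠ (x, z)}
        ⊆ Bad P Q ∪ Bad P (k * Q * k⁻¹) := by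
      rintro x ⟨z, hz⟩
      by_contra hcon
      simp only [Set.mem_union, not_or] at hcon
      exact hz (eq_self_of_commutator hP hρ _ _ hcon.1 hcon.2 z)
    have hconj := measure_bad_conj (μ := μ) hP hTk hc k Q (D := Set.univ) MeasurableSet.univ
      (by simp)
    simp only [Set.inter_univ] at hconj
    by_cases htop : ε = ⊤
    · rw [htop]; exact measure_lt_top _ _
    calc μ {x | ∃ z, ρ (Q * (k * Q * k⁻¹) * Q⁻¹ * (k * Q * k⁻¹)⁻¹) (x, z) ≠ (x, z)}
        ≤ μ (Bad P Q ∪ Bad P (k * Q * k⁻¹)) := measure_mono hsub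
      _ ≤ μ (Bad P Q) + μ (Bad P (k * Q * k⁻¹)) := measure_union_le _ _
      _ = μ (Bad P Q) + μ (Bad P Q) := by rw [hconj]
      _ < ε / 2 + ε / 2 := ENNReal.add_lt_add hQ hQ
      _ = ε := ENNReal.add_halves ε

end Pool.Agent.Helper34.FG
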