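import Pool.Agent.Helper34.FG.Recur
import Pool.Agent.Helper34.FG.Grp

/-!
Mass transport and words with small support.
-/

namespace Pool.Agent.Helper34.FG

open Real MeasureTheory FreeGroup Filter

variable {X : Type*}

/-- the points moved by a word on the base -/
def Bad (P : X → Fin 2 → Equiv.Perm ℤ) (w : FreeGroup (Fin 2)) : Set X :=
  {x | FreeGroup.lift (P x) w 0 ≠ 0}

/-- the transformation of the base given by a word -/
def sig (T : Equiv.Perm X) (P : X → Fin 2 → Equiv.Perm ℤ) (w : FreeGroup (Fin 2)) (x : X) : X :=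
  (T ^ (FreeGroup.lift (P x) w 0)) x

variable [MeasurableSpace X] {μ : Measure X} {T : Equiv.Perm X} {c : Fin 2 → X → ℤ}
  {P : X → Fin 2 → Equiv.Perm ℤ}

theorem measurable_bad (hP : ∀ x i k, P x i k = k + c i ((T ^ k) x))
    (hT : ∀ k : ℤ, Measurable (T ^ k : Equiv.Perm X))
    (hc : ∀ i, Measurable (c i)) (w : FreeGroup (Fin 2)) : MeasurableSet (Bad P w) :=
  (measurable_pi hP hT hc w 0) (measurableSet_singleton (0 : ℤ)).compl

theorem measure_sig (hP : ∀ x i k, P x i k = k + c i ((T ^ k) x))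
    (hT : ∀ k : ℤ, MeasurePreserving (T ^ k : Equiv.Perm X) μ μ)
    (hc : ∀ i, Measurable (c i)) (w : FreeGroup (Fin 2)) {A : Set X} (hA : MeasurableSet A) :
    μ {x | sig T P w x ∈ A} = μ A := by
  have hm := measurable_pi hP (fun k => (hT k).measurable) hc w
  have e1 : {x | sig T P w x ∈ A}
      = ⋃ n : ℤ, ((T ^ n : Equiv.Perm X) : X → X) ⁻¹'
        ({y | FreeGroup.lift (P y) w (-n) = 0} ∩ A) := by
    ext x
    simp only [Set.mem_ofPred_eq, Set.mem_iUnion, Set.mem_preimage, Set.mem_inter_iff]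
    constructor
    · intro h
      refine ⟨FreeGroup.lift (P x) w 0, ?_, h⟩
      rw [pi_shift hP]; simp
    · rintro ⟨n, h1, h2⟩
      rw [pi_shift hP] at h1
      simp only [neg_add_cancel] at h1
      have h3 : FreeGroup.lift (P x) w 0 = n := by omega
      unfold sig
      rw [h3]; exact h2
  have e2 : A = ⋃ n : ℤ, ({y | FreeGroup.lift (P y) w (-n) = 0} ∩ A) := by
    ext x
    simp only [Set.mem_iUnion, Set.mem_inter_iff, Set.mem_ofPred_eq]
    constructor
    · intro h
      refine ⟨-((FreeGroup.lift (P x) w).symm 0), ?_, h⟩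
      simp
    · rintro ⟨_, _, h⟩; exact h
  have hmeas : ∀ n : ℤ, MeasurableSet ({y | FreeGroup.lift (P y) w (-n) = 0} ∩ A) := fun n =>
    (hm (-n) (measurableSet_singleton (0 : ℤ))).inter hA
  rw [e1, measure_iUnion]
  · conv_rhs => rw [e2]
    rw [measure_iUnion _ hmeas]
    · apply tsum_congr
      intro n
      exact (hT n).measure_preimage (hmeas n).nullMeasurableSet
    · intro n m hnm
      rw [Function.onFun, Set.disjoint_left]
      rintro x ⟨h1, _⟩ ⟨h2, _⟩
      simp only [Set.mem_ofPred_eq] at h1 h2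
      have := (FreeGroup.lift (P x) w).injective (h1.trans h2.symm)
      exact hnm (by omega)
  · intro n m hnm
    rw [Function.onFun, Set.disjoint_left]
    rintro x ⟨h1, _⟩ ⟨h2, _⟩
    simp only [Set.mem_ofPred_eq] at h1 h2
    rw [pi_shift hP] at h1 h2
    simp only [neg_add_cancel] at h1 h2
    exact hnm (by omega)
  · intro n
    exact (hT n).measurable (hmeas n)

omit [MeasurableSpace X] in
theorem bad_mul (u v : FreeGroup (Fin 2)) : Bad P (u * v) ⊆ Bad P u ∪ Bad P v := by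
  intro x hx
  by_contra hcon
  simp only [Set.mem_union, not_or, Bad, Set.mem_ofPred_eq, not_not] at hcon
  apply hx
  rw [_root_.map_mul, Equiv.Perm.mul_apply, hcon.2, hcon.1]

omit [MeasurableSpace X] in
theorem bad_inv (u : FreeGroup (Fin 2)) : Bad P u⁻¹ = Bad P u := by
  ext x
  simp only [Bad, Set.mem_ofPred_eq, _root_.map_inv, ne_eq, not_iff_not]
  rw [Equiv.Perm.inv_eq_iff_eq, eq_comm]

omit [MeasurableSpace X] in
theorem bad_conj (hP : ∀ x i k, P x i k = k + c i ((T ^ k) x)) (k u : FreeGroup (Fin 2)) :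
    Bad P (k * u * k⁻¹) = {x | sig T P k⁻¹ x ∈ Bad P u} := by
  ext x
  simp only [Bad, Set.mem_ofPred_eq, sig, ne_eq, not_iff_not, _root_.map_mul, _root_.map_inv,
    Equiv.Perm.mul_apply]
  rw [pi_shift hP]
  constructor
  · intro h
    rw [← Equiv.Perm.eq_inv_iff_eq] at h
    rw [zero_add, h, sub_self]
  · intro h
    rw [← Equiv.Perm.eq_inv_iff_eq]
    rw [zero_add] at h
    omega

/-- the points on whose orbit the word has only finite orbits -/
def Fo (P : X → Fin 2 → Equiv.Perm ℤ) (w : FreeGroup (Fin 2)) : Set X :=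
  {x | ∀ k : ℤ, ∃ M : ℕ, 0 < M ∧ ((FreeGroup.lift (P x) w) ^ M) k = k}

omit [MeasurableSpace X] in
theorem fo_invariant (hP : ∀ x i k, P x i k = k + c i ((T ^ k) x)) (w : FreeGroup (Fin 2))
    (x : X) (j : ℤ) : (T ^ j) x ∈ Fo P w ↔ x ∈ Fo P w := by
  have key : ∀ k : ℤ, ∀ M : ℕ, ((FreeGroup.lift (P ((T ^ j) x)) w) ^ M) k = k ↔
      ((FreeGroup.lift (P x) w) ^ M) (k + j) = k + j := by
    intro k M
    rw [← map_pow, ← map_pow, pi_shift hP]
    constructor <;> intro h <;> omega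
  constructor
  · intro h k
    obtain ⟨M, h0, h1⟩ := h (k - j)
    refine ⟨M, h0, ?_⟩
    rw [key] at h1
    simpa using h1
  · intro h k
    obtain ⟨M, h0, h1⟩ := h (k + j)
    exact ⟨M, h0, (key k M).2 h1⟩

theorem measurable_fo (hP : ∀ x i k, P x i k = k + c i ((T ^ k) x))
    (hT : ∀ k : ℤ, Measurable (T ^ k : Equiv.Perm X))
    (hc : ∀ i, Measurable (c i)) (w : FreeGroup (Fin 2)) : MeasurableSet (Fo P w) := by
  have h1 : Fo P w = ⋂ k : ℤ, ⋃ M : {M : ℕ // 0 < M}, (fun x => FreeGroup.lift (P x) (w ^ M.1) k)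
      ⁻¹' {k} := by
    ext x
    simp only [Fo, Set.mem_ofPred_eq, Set.mem_iInter, Set.mem_iUnion, Set.mem_preimage,
      Set.mem_singleton_iff, map_pow, Subtype.exists, exists_prop]
  rw [h1]
  refine MeasurableSet.iInter (fun k => MeasurableSet.iUnion (fun M => ?_))
  exact measurable_pi hP hT hc (w ^ M.1) k (measurableSet_singleton k)

/-- conjugates have the same moved measure on an invariant set -/
theorem measure_bad_conj (hP : ∀ x i k, P x i k = k + c i ((T ^ k) x))
    (hT : ∀ k : ℤ, MeasurePreserving (T ^ k : Equiv.Perm X) μ μ)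
    (hc : ∀ i, Measurable (c i)) (k u : FreeGroup (Fin 2)) {D : Set X} (hD : MeasurableSet D)
    (hDinv : ∀ x (j : ℤ), (T ^ j) x ∈ D ↔ x ∈ D) :
    μ (Bad P (k * u * k⁻¹) ∩ D) = μ (Bad P u ∩ D) := by
  rw [← measure_sig hP hT hc k⁻¹ ((measurable_bad hP (fun k => (hT k).measurable) hc u).inter hD),
    bad_conj hP k u]
  congr 1
  ext x
  simp only [Set.mem_inter_iff, Set.mem_ofPred_eq, sig]
  rw [hDinv]

/-- commutators are small where one factor is small -/
theorem measure_bad_comm (hP : ∀ x i k, P x i k = k + c i ((T ^ k) x))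
    (hT : ∀ k : ℤ, MeasurePreserving (T ^ k : Equiv.Perm X) μ μ)
    (hc : ∀ i, Measurable (c i)) (u v : FreeGroup (Fin 2)) {D : Set X} (hD : MeasurableSet D)
    (hDinv : ∀ x (j : ℤ), (T ^ j) x ∈ D ↔ x ∈ D) :
    μ (Bad P (u * v * u⁻¹ * v⁻¹) ∩ D) ≤ 2 * μ (Bad P u ∩ D) ∧
    μ (Bad P (u * v * u⁻¹ * v⁻¹) ∩ D) ≤ 2 * μ (Bad P v ∩ D) := by
  constructor
  · have e : u * v * u⁻¹ * v⁻¹ = u * (v * u⁻¹ * v⁻¹) := by group
    rw [e]
    calc μ (Bad P (u * (v * u⁻¹ * v⁻¹)) ∩ D)
        ≤ μ ((Bad P u ∩ D) ∪ (Bad P (v * u⁻¹ * v⁻¹) ∩ D)) := by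
          rw [← Set.union_inter_distrib_right]
          exact measure_mono (Set.inter_subset_inter_left _ (bad_mul _ _))
      _ ≤ μ (Bad P u ∩ D) + μ (Bad P (v * u⁻¹ * v⁻¹) ∩ D) := measure_union_le _ _
      _ = 2 * μ (Bad P u ∩ D) := by
          rw [measure_bad_conj hP hT hc v u⁻¹ hD hDinv, bad_inv, two_mul]
  · calc μ (Bad P (u * v * u⁻¹ * v⁻¹) ∩ D)
        ≤ μ ((Bad P (u * v * u⁻¹) ∩ D) ∪ (Bad P v⁻¹ ∩ D)) := by
          rw [← Set.union_inter_distrib_right]
          exact measure_mono (Set.inter_subset_inter_left _ (bad_mul _ _))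
      _ ≤ μ (Bad P (u * v * u⁻¹) ∩ D) + μ (Bad P v⁻¹ ∩ D) := measure_union_le _ _
      _ = 2 * μ (Bad P v ∩ D) := by
          rw [measure_bad_conj hP hT hc u v hD hDinv, bad_inv, two_mul]

/-- powers of a word with finite orbits are eventually trivial in measure -/
theorem exists_power (hP : ∀ x i k, P x i k = k + c i ((T ^ k) x))
    (hT : ∀ k : ℤ, Measurable (T ^ k : Equiv.Perm X)) [IsFiniteMeasure μ]
    (hc : ∀ i, Measurable (c i)) (w : FreeGroup (Fin 2)) {ε : ENNReal} (hε : 0 < ε) :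
    ∃ M : ℕ, 0 < M ∧ μ (Bad P (w ^ M) ∩ Fo P w) < ε := by
  set A : ℕ → Set X := fun n => Bad P (w ^ n.factorial) ∩ Fo P w with hA
  have hAm : ∀ n, MeasurableSet (A n) := fun n =>
    (measurable_bad hP hT hc _).inter (measurable_fo hP hT hc w)
  have hanti : Antitone A := by
    apply antitone_nat_of_succ_le
    intro n x hx
    refine ⟨?_, hx.2⟩
    have h1 := hx.1
    simp only [Bad, Set.mem_ofPred_eq, map_pow] at h1 ⊢
    intro h2
    apply h1
    rw [Nat.factorial_succ, mul_comm, pow_mul]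
    set q := (FreeGroup.lift (P x) w) ^ n.factorial with hq
    have h3 : ∀ j : ℕ, (q ^ j) 0 = 0 := by
      intro j
      induction j with
      | zero => simp
      | succ j ih => rw [pow_succ, Equiv.Perm.mul_apply, h2, ih]
    exact h3 _
  have hempty : ⋂ n, A n = ∅ := by
    ext x
    simp only [Set.mem_iInter, Set.mem_empty_iff_false, iff_false, not_forall]
    by_cases hx : x ∈ Fo P w
    · obtain ⟨M, h0, h1⟩ := hx 0
      refine ⟨M, ?_⟩
      rintro ⟨h2, -⟩
      apply h2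
      obtain ⟨d, hd⟩ := Nat.dvd_factorial h0 le_rfl
      rw [map_pow, hd, pow_mul]
      set q := (FreeGroup.lift (P x) w) ^ M with hq
      have h3 : ∀ j : ℕ, (q ^ j) 0 = 0 := by
        intro j
        induction j with
        | zero => simp
        | succ j ih => rw [pow_succ, Equiv.Perm.mul_apply, h1, ih]
      exact h3 _
    · exact ⟨0, fun h => hx h.2⟩
  have htend := tendsto_measure_iInter_atTop (μ := μ) (s := A)
    (fun n => (hAm n).nullMeasurableSet) hanti ⟨0, measure_ne_top _ _⟩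
  rw [hempty, measure_empty] at htend
  have hev := htend.eventually (gt_mem_nhds hε)
  obtain ⟨n, hn⟩ := hev.exists
  exact ⟨n.factorial, Nat.factorial_pos n, hn⟩

theorem exists_small_on (hP : ∀ x i k, P x i k = k + c i ((T ^ k) x))
    (hT : ∀ k : ℤ, MeasurePreserving (T ^ k : Equiv.Perm X) μ μ) [IsFiniteMeasure μ]
    (hc : ∀ i, Measurable (c i)) (S : Finset (FreeGroup (Fin 2))) (hS : ∀ w ∈ S, w ≠ 1) :
    ∀ ε : ENNReal, 0 < ε → ∃ Q : FreeGroup (Fin 2), Q ≠ 1 ∧
      ∀ w ∈ S, μ (Bad P Q ∩ Fo P w) ≤ ε := by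
  classical
  induction S using Finset.induction_on with
  | empty =>
    intro ε _
    exact ⟨FreeGroup.of 0, FreeGroup.of_ne_one 0, by simp⟩
  | insert w S hw ih =>
    intro ε hε
    have hε2 : 0 < ε / 2 := ENNReal.div_pos hε.ne' (by simp)
    obtain ⟨Q, hQ1, hQ⟩ := ih (fun w hw => hS w (Finset.mem_insert_of_mem hw)) (ε / 2) hε2
    obtain ⟨M, hM0, hM⟩ := exists_power (μ := μ) hP (fun k => (hT k).measurable) hc w hε2
    have hw1 : w ≠ 1 := hS w (Finset.mem_insert_self _ _)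
    have hwM : w ^ M ≠ 1 := by
      intro h
      exact hw1 ((pow_eq_one_iff_left hM0.ne').1 h)
    obtain ⟨k, hk⟩ := exists_not_commute Q (w ^ M) hQ1 hwM
    refine ⟨Q * (k * w ^ M * k⁻¹) * Q⁻¹ * (k * w ^ M * k⁻¹)⁻¹, ?_, ?_⟩
    · intro h
      apply hk
      rw [mul_inv_eq_one] at h
      rw [mul_inv_eq_iff_eq_mul] at h
      exact h
    · intro v hv
      have hfm := measurable_fo hP (fun k => (hT k).measurable) hc v
      have hfi := fo_invariant hP v
      have h2 : 2 * (ε / 2) = ε := ENNReal.mul_div_cancel (by simp) (by simp)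
      rcases Finset.mem_insert.1 hv with rfl | hv
      · refine (measure_bad_comm hP hT hc Q (k * v ^ M * k⁻¹) hfm hfi).2.trans ?_
        rw [measure_bad_conj hP hT hc k _ hfm hfi]
        calc 2 * μ (Bad P (v ^ M) ∩ Fo P v) ≤ 2 * (ε / 2) := by gcongr
          _ = ε := h2
      · refine (measure_bad_comm hP hT hc Q (k * w ^ M * k⁻¹) hfm hfi).1.trans ?_
        calc 2 * μ (Bad P Q ∩ Fo P v) ≤ 2 * (ε / 2) := by
              gcongr
              exact hQ v hv
          _ = ε := h2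

theorem exists_small (hP : ∀ x i k, P x i k = k + c i ((T ^ k) x))
    (hT : ∀ k : ℤ, MeasurePreserving (T ^ k : Equiv.Perm X) μ μ) [IsFiniteMeasure μ]
    (hc : ∀ i, Measurable (c i)) (hi : ∀ i, Integrable (fun x => (c i x : ℝ)) μ)
    {ε : ENNReal} (hε : 0 < ε) : ∃ Q : FreeGroup (Fin 2), Q ≠ 1 ∧ μ (Bad P Q) < ε := by
  classical
  have hcnt : Countable (FreeGroup (Fin 2)) := by
    unfold FreeGroup
    infer_instance
  have hne : Nonempty {w : FreeGroup (Fin 2) // w ≠ 1} := ⟨⟨FreeGroup.of 0, FreeGroup.of_ne_one 0⟩⟩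
  obtain ⟨e, he⟩ := exists_surjective_nat {w : FreeGroup (Fin 2) // w ≠ 1}
  set A : ℕ → Set X := fun n => (⋃ i ∈ Finset.range n, Fo P (e i).1)ᶜ with hA
  have hAm : ∀ n, MeasurableSet (A n) := fun n =>
    (MeasurableSet.biUnion (Set.to_countable _)
      (fun i _ => measurable_fo hP (fun k => (hT k).measurable) hc _)).compl
  have hanti : Antitone A := by
    intro n m hnm
    apply Set.compl_subset_compl.2
    apply Set.biUnion_subset_biUnion_left
    intro i hi
    exact Finset.mem_range.2 (lt_of_lt_of_le (Finset.mem_range.1 hi) hnm)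
  have hzero : μ (⋂ n, A n) = 0 := by
    have hae := ae_finite_orbits hP hT hc hi
    rw [← compl_mem_ae_iff]
    filter_upwards [hae] with x hx hcon
    obtain ⟨w, hw, hwx⟩ := hx
    obtain ⟨i, hi⟩ := he ⟨w, hw⟩
    rw [Set.mem_iInter] at hcon
    apply hcon (i + 1)
    simp only [Set.mem_iUnion]
    refine ⟨i, by simp, ?_⟩
    rw [hi]
    exact hwx
  have htend := tendsto_measure_iInter_atTop (μ := μ) (s := A)
    (fun n => (hAm n).nullMeasurableSet) hanti ⟨0, measure_ne_top _ _⟩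
  rw [hzero] at htend
  have hε2 : 0 < ε / 2 := ENNReal.div_pos hε.ne' (by simp)
  obtain ⟨n, hn⟩ := (htend.eventually (gt_mem_nhds hε2)).exists
  set S : Finset (FreeGroup (Fin 2)) := (Finset.range n).image (fun i => (e i).1) with hSdef
  have hS : ∀ w ∈ S, w ≠ 1 := by
    intro w hw
    rw [hSdef, Finset.mem_image] at hw
    obtain ⟨i, -, rfl⟩ := hw
    exact (e i).2
  have hδ : (0 : ENNReal) < ε / 2 / (n + 1) := ENNReal.div_pos hε2.ne' (by simp)
  obtain ⟨Q, hQ1, hQ⟩ := exists_small_on (μ := μ) hP hT hc S hS _ hδ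
  refine ⟨Q, hQ1, ?_⟩
  have hsub : Bad P Q ⊆ A n ∪ ⋃ i ∈ Finset.range n, (Bad P Q ∩ Fo P (e i).1) := by
    intro x hx
    by_cases h : x ∈ A n
    · left; exact h
    · right
      simp only [hA, Set.mem_compl_iff, not_not] at h
      rw [Set.mem_iUnion₂] at h ⊢
      obtain ⟨i, hi, hxi⟩ := h
      exact ⟨i, hi, hx, hxi⟩
  by_cases htop : ε = ⊤
  · rw [htop]; exact measure_lt_top _ _
  calc μ (Bad P Q) ≤ μ (A n ∪ ⋃ i ∈ Finset.range n, (Bad P Q ∩ Fo P (e i).1)) := measure_mono hsub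
    _ ≤ μ (A n) + μ (⋃ i ∈ Finset.range n, (Bad P Q ∩ Fo P (e i).1)) := measure_union_le _ _
    _ ≤ μ (A n) + ∑ i ∈ Finset.range n, μ (Bad P Q ∩ Fo P (e i).1) := by
        gcongr
        exact measure_biUnion_finset_le _ _
    _ ≤ μ (A n) + ∑ i ∈ Finset.range n, (ε / 2 / (n + 1)) := by
        gcongr with i hi
        exact hQ _ (Finset.mem_image_of_mem _ hi)
    _ ≤ μ (A n) + ε / 2 := by
        gcongr
        rw [Finset.sum_const, Finset.card_range, nsmul_eq_mul]
        calc (n : ENNReal) * (ε / 2 / (n + 1)) ≤ (n + 1) * (ε / 2 / (n + 1)) := by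
              gcongr
              exact le_self_add
          _ = ε / 2 := ENNReal.mul_div_cancel (by simp) (by simp)
    _ < ε / 2 + ε / 2 := by
        apply ENNReal.add_lt_add_right _ hn
        exact (ENNReal.div_lt_top htop (by simp)).ne
    _ = ε := ENNReal.add_halves ε

end Pool.Agent.Helper34.FG
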