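import Pool.Agent.Helper34.FG.NonFree
import Pool.Agent.Helper34.FG.Grp2

/-!
Sequences of words whose transformations converge weakly to the identity.
-/

namespace Pool.Agent.Helper34.FG

open MeasureTheory FreeGroup Filter Topology

variable {X : Type*} [MeasurableSpace X] {μ : Measure X} {T : Equiv.Perm X} {c : Fin 2 → X → ℤ}
  {P : X → Fin 2 → Equiv.Perm ℤ}

/-- the distance between the moved sets of two words -/
noncomputable def wd (μ : Measure X) (P : X → Fin 2 → Equiv.Perm ℤ) (u w : FreeGroup (Fin 2)) :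
    ENNReal := μ (symmDiff (Bad P u) (Bad P w))

theorem wd_self (u : FreeGroup (Fin 2)) : wd μ P u u = 0 := by
  unfold wd; simp

theorem wd_comm (u w : FreeGroup (Fin 2)) : wd μ P u w = wd μ P w u := by
  unfold wd; rw [symmDiff_comm]

theorem wd_triangle (u v w : FreeGroup (Fin 2)) : wd μ P u w ≤ wd μ P u v + wd μ P v w := by
  unfold wd
  exact (measure_mono (symmDiff_triangle _ _ _)).trans (measure_union_le _ _)

theorem wd_conj (hP : ∀ x i k, P x i k = k + c i ((T ^ k) x))
    (hT : ∀ k : ℤ, MeasurePreserving (T ^ k : Equiv.Perm X) μ μ)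
    (hc : ∀ i, Measurable (c i)) (k u w : FreeGroup (Fin 2)) :
    wd μ P (k * u * k⁻¹) (k * w * k⁻¹) = wd μ P u w := by
  unfold wd
  have hm := fun w => measurable_bad hP (fun k => (hT k).measurable) hc w
  rw [bad_conj hP, bad_conj hP, ← measure_sig hP hT hc k⁻¹ ((hm u).symmDiff (hm w))]
  rfl

/-- the sequence of words is asymptotically trivial on all moved sets -/
def Near (μ : Measure X) (P : X → Fin 2 → Equiv.Perm ℤ) (v : ℕ → FreeGroup (Fin 2)) : Prop :=
  ∀ w, Tendsto (fun n => wd μ P (v n * w * (v n)⁻¹) w) atTop (𝓝 0)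

/-- the words of the sequence move asymptotically nothing of what `z` fixes -/
def Cov (μ : Measure X) (P : X → Fin 2 → Equiv.Perm ℤ) (v : ℕ → FreeGroup (Fin 2))
    (z : FreeGroup (Fin 2)) : Prop :=
  Tendsto (fun n => μ (Bad P (v n) \ Bad P z)) atTop (𝓝 0)

theorem tendsto_zero_of_le {f g : ℕ → ENNReal} (hg : Tendsto g atTop (𝓝 0))
    (h : ∀ n, f n ≤ g n) : Tendsto f atTop (𝓝 0) :=
  tendsto_of_tendsto_of_tendsto_of_le_of_le tendsto_const_nhds hg (fun _ => zero_le) h

theorem tendsto_add_zero {f g : ℕ → ENNReal} (hf : Tendsto f atTop (𝓝 0))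
    (hg : Tendsto g atTop (𝓝 0)) : Tendsto (fun n => f n + g n) atTop (𝓝 0) := by
  have := hf.add hg
  rwa [add_zero] at this

theorem Near.one : Near μ P (fun _ => 1) := by
  intro w
  simp only [one_mul, inv_one, mul_one, wd_self]
  exact tendsto_const_nhds

theorem Near.of_le {u v : ℕ → FreeGroup (Fin 2)} (hu : Near μ P u) (hv : Near μ P v)
    {w : ℕ → FreeGroup (Fin 2)} (h : ∀ n, w n = u n ∨ w n = v n) : Near μ P w := by
  intro z
  refine tendsto_zero_of_le (tendsto_add_zero (hu z) (hv z)) ?_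
  intro n
  rcases h n with h | h
  · rw [h]; exact le_add_right le_rfl
  · rw [h]; exact le_add_left le_rfl

section

variable (hP : ∀ x i k, P x i k = k + c i ((T ^ k) x))
  (hT : ∀ k : ℤ, MeasurePreserving (T ^ k : Equiv.Perm X) μ μ) (hc : ∀ i, Measurable (c i))

include hP hT hc

theorem Near.mul {u v : ℕ → FreeGroup (Fin 2)} (hu : Near μ P u) (hv : Near μ P v) :
    Near μ P (fun n => u n * v n) := by
  intro w
  refine tendsto_zero_of_le (tendsto_add_zero (hv w) (hu w)) ?_
  intro n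
  have e : u n * v n * w * (u n * v n)⁻¹ = u n * (v n * w * (v n)⁻¹) * (u n)⁻¹ := by group
  rw [e]
  refine (wd_triangle _ (u n * w * (u n)⁻¹) _).trans ?_
  rw [wd_conj hP hT hc]

theorem Near.inv {u : ℕ → FreeGroup (Fin 2)} (hu : Near μ P u) : Near μ P (fun n => (u n)⁻¹) := by
  intro w
  refine tendsto_zero_of_le (hu w) ?_
  intro n
  rw [← wd_conj hP hT hc (u n) ((u n)⁻¹ * w * (u n)⁻¹⁻¹) w]
  have e : u n * ((u n)⁻¹ * w * (u n)⁻¹⁻¹) * (u n)⁻¹ = w := by group
  rw [e, wd_comm]

theorem Near.conj {u : ℕ → FreeGroup (Fin 2)} (hu : Near μ P u) (k : FreeGroup (Fin 2)) :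
    Near μ P (fun n => k * u n * k⁻¹) := by
  intro w
  refine tendsto_zero_of_le (hu (k⁻¹ * w * k)) ?_
  intro n
  have e : k * u n * k⁻¹ * w * (k * u n * k⁻¹)⁻¹
      = k * (u n * (k⁻¹ * w * k) * (u n)⁻¹) * k⁻¹ := by group
  have e2 : w = k * (k⁻¹ * w * k) * k⁻¹ := by group
  rw [e]
  conv_lhs => rw [e2]
  have e3 : k⁻¹ * (k * (k⁻¹ * w * k) * k⁻¹) * k = k⁻¹ * w * k := by group
  rw [e3, wd_conj hP hT hc]

omit hT hc hP in
theorem Cov.mul {u v : ℕ → FreeGroup (Fin 2)} {z : FreeGroup (Fin 2)} (hu : Cov μ P u z)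
    (hv : Cov μ P v z) : Cov μ P (fun n => u n * v n) z := by
  refine tendsto_zero_of_le (tendsto_add_zero hu hv) ?_
  intro n
  refine (measure_mono ?_).trans (measure_union_le _ _)
  rintro x ⟨h1, h2⟩
  rcases bad_mul (u n) (v n) h1 with h | h
  · exact Or.inl ⟨h, h2⟩
  · exact Or.inr ⟨h, h2⟩

omit hT hc hP in
theorem Cov.inv {u : ℕ → FreeGroup (Fin 2)} {z : FreeGroup (Fin 2)} (hu : Cov μ P u z) :
    Cov μ P (fun n => (u n)⁻¹) z := by
  unfold Cov
  simp_rw [bad_inv]
  exact hu

omit hT hc hP in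
theorem Cov.self (z : FreeGroup (Fin 2)) : Cov μ P (fun _ => z) z := by
  unfold Cov
  simp only [sdiff_self, Set.bot_eq_empty, measure_empty]
  exact tendsto_const_nhds

theorem Cov.conj {u v : ℕ → FreeGroup (Fin 2)} {z : FreeGroup (Fin 2)} (hu : Cov μ P u z)
    (hv : Near μ P v) : Cov μ P (fun n => v n * u n * (v n)⁻¹) z := by
  refine tendsto_zero_of_le (tendsto_add_zero hu (hv z)) ?_
  intro n
  have hm := fun w => measurable_bad hP (fun k => (hT k).measurable) hc w
  have h1 : Bad P (v n * u n * (v n)⁻¹) \ Bad P z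
      ⊆ (Bad P (v n * u n * (v n)⁻¹) \ Bad P (v n * z * (v n)⁻¹))
        ∪ symmDiff (Bad P (v n * z * (v n)⁻¹)) (Bad P z) := by
    rintro x ⟨h1, h2⟩
    by_cases h3 : x ∈ Bad P (v n * z * (v n)⁻¹)
    · right; left; exact ⟨h3, h2⟩
    · left; exact ⟨h1, h3⟩
  refine (measure_mono h1).trans ((measure_union_le _ _).trans ?_)
  have h2 : μ (Bad P (v n * u n * (v n)⁻¹) \ Bad P (v n * z * (v n)⁻¹))
      = μ (Bad P (u n) \ Bad P z) := by
    rw [bad_conj hP, bad_conj hP, ← measure_sig hP hT hc (v n)⁻¹ ((hm (u n)).diff (hm z))]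
    rfl
  rw [h2]
  exact le_rfl

/-- a commutator with an asymptotically trivial sequence -/
theorem Cov.comm_left {u v : ℕ → FreeGroup (Fin 2)} {z : FreeGroup (Fin 2)} (hu : Cov μ P u z)
    (hv : Near μ P v) : Cov μ P (fun n => u n * v n * (u n)⁻¹ * (v n)⁻¹) z := by
  have h := hu.mul (hu.inv.conj hP hT hc hv)
  have e : ∀ n, u n * (v n * (u n)⁻¹ * (v n)⁻¹) = u n * v n * (u n)⁻¹ * (v n)⁻¹ := by
    intro n; group
  simp_rw [e] at h
  exact h

theorem Cov.comm_right {u v : ℕ → FreeGroup (Fin 2)} {z : FreeGroup (Fin 2)} (hv : Cov μ P v z)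
    (hu : Near μ P u) : Cov μ P (fun n => u n * v n * (u n)⁻¹ * (v n)⁻¹) z :=
  (hv.conj hP hT hc hu).mul hv.inv

theorem exists_seq {g : ℕ → FreeGroup (Fin 2)} (hg1 : ∀ n, g n ≠ 1) (hg : Near μ P g)
    (S : Finset (FreeGroup (Fin 2))) (hS : ∀ z ∈ S, z ≠ 1) :
    ∃ V : ℕ → FreeGroup (Fin 2), (∀ n, V n ≠ 1) ∧ Near μ P V ∧ ∀ z ∈ S, Cov μ P V z := by
  classical
  -- a noncommuting pair
  choose i hi using fun n => exists_gen_not_commute (hg1 n)
  set h : ℕ → FreeGroup (Fin 2) := fun n => FreeGroup.of (i n) * g n * (FreeGroup.of (i n))⁻¹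
    with hh
  have hnear : Near μ P h := by
    refine (hg.conj hP hT hc (FreeGroup.of 0)).of_le (hg.conj hP hT hc (FreeGroup.of 1)) ?_
    intro n
    have : i n = 0 ∨ i n = 1 := by
      have := (i n).2
      rcases Nat.lt_or_ge (i n).1 1 with h | h
      · left; ext; simp; omega
      · right; ext; simp; omega
    rcases this with h1 | h1
    · left; rw [hh]; simp only; rw [h1]
    · right; rw [hh]; simp only; rw [h1]
  have hnc : ∀ n, ¬ Commute (g n) (h n) := hi
  induction S using Finset.induction_on with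
  | empty => exact ⟨g, hg1, hg, by simp⟩
  | insert z S hz ih =>
    obtain ⟨V, hV1, hV2, hV3⟩ := ih (fun z hz => hS z (Finset.mem_insert_of_mem hz))
    have hz1 : z ≠ 1 := hS z (Finset.mem_insert_self _ _)
    have hq : ∀ n, ∃ q, (q = g n ∨ q = h n) ∧ ¬ Commute z q := by
      intro n
      rcases not_commute_or (hnc n) hz1 with h1 | h1
      · exact ⟨_, Or.inl rfl, h1⟩
      · exact ⟨_, Or.inr rfl, h1⟩
    choose q hq1 hq2 using hq
    have hqn : Near μ P q := hg.of_le hnear hq1
    set y : ℕ → FreeGroup (Fin 2) := fun n => z * q n * z⁻¹ * (q n)⁻¹ with hy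
    have hy1 : ∀ n, y n ≠ 1 := by
      intro n h1
      apply hq2 n
      rw [hy] at h1
      simp only at h1
      rw [mul_inv_eq_one, mul_inv_eq_iff_eq_mul] at h1
      exact h1
    have hyn : Near μ P y := (hqn.conj hP hT hc z).mul hP hT hc (hqn.inv hP hT hc)
    have hyc : Cov μ P y z := (Cov.self z).comm_left hP hT hc hqn
    choose k hk1 hk2 using fun n => exists_not_commute_of_pair (hnc n) (hV1 n) (hy1 n)
    have hkn : Near μ P k := by
      have h1 : Near μ P (fun n => if k n = 1 then 1 else k n) := by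
        refine Near.one.of_le (v := fun n => if k n = g n then g n else h n)
          (hg.of_le hnear (fun n => ?_)) (fun n => ?_)
        · by_cases h2 : k n = g n
          · left; rw [if_pos h2]
          · right; rw [if_neg h2]
        · by_cases h2 : k n = 1
          · left; rw [if_pos h2]
          · right
            rw [if_neg h2]
            rcases hk1 n with h3 | h3 | h3
            · exact absurd h3 h2
            · rw [if_pos h3, h3]
            · by_cases h4 : k n = g n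
              · rw [if_pos h4, h4]
              · rw [if_neg h4, h3]
      have e : (fun n => if k n = 1 then 1 else k n) = k := by
        funext n
        by_cases h2 : k n = 1
        · rw [if_pos h2, h2]
        · rw [if_neg h2]
      rwa [e] at h1
    set y' : ℕ → FreeGroup (Fin 2) := fun n => k n * y n * (k n)⁻¹ with hy'
    have hyn' : Near μ P y' := (hkn.mul hP hT hc hyn).mul hP hT hc (hkn.inv hP hT hc)
    have hyc' : Cov μ P y' z := hyc.conj hP hT hc hkn
    refine ⟨fun n => V n * y' n * (V n)⁻¹ * (y' n)⁻¹, ?_, ?_, ?_⟩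
    · intro n h1
      apply hk2 n
      rw [mul_inv_eq_one, mul_inv_eq_iff_eq_mul] at h1
      exact h1
    · exact ((hV2.mul hP hT hc hyn').mul hP hT hc (hV2.inv hP hT hc)).mul hP hT hc
        (hyn'.inv hP hT hc)
    · intro z' hz'
      rcases Finset.mem_insert.1 hz' with rfl | hz'
      · exact hyc'.comm_right hP hT hc hV2
      · exact (hV3 z' hz').comm_left hP hT hc hyn'

theorem exists_small_of_near [IsProbabilityMeasure μ] {g : ℕ → FreeGroup (Fin 2)}
    (hg1 : ∀ n, g n ≠ 1) (hg : Near μ P g) {ε : ENNReal} (hε : 0 < ε) :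
    ∃ Q : FreeGroup (Fin 2), Q ≠ 1 ∧ μ (Bad P Q) < ε := by
  classical
  have hm := fun w => measurable_bad hP (fun k => (hT k).measurable) hc w
  have hcnt : Countable (FreeGroup (Fin 2)) := by
    unfold FreeGroup
    infer_instance
  have hne : Nonempty {w : FreeGroup (Fin 2) // w ≠ 1} := ⟨⟨FreeGroup.of 0, FreeGroup.of_ne_one 0⟩⟩
  obtain ⟨e, he⟩ := exists_surjective_nat {w : FreeGroup (Fin 2) // w ≠ 1}
  set A : ℕ → Set X := fun n => ⋂ i ∈ Finset.range n, Bad P (e i).1 with hA
  have hAm : ∀ n, MeasurableSet (A n) := fun n =>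
    MeasurableSet.biInter (Set.to_countable _) (fun i _ => hm _)
  have hanti : Antitone A := by
    intro n m hnm
    apply Set.biInter_subset_biInter_left
    intro i hi
    exact Finset.mem_range.2 (lt_of_lt_of_le (Finset.mem_range.1 hi) hnm)
  have hzero : μ (⋂ n, A n) = 0 := by
    have hae := ae_nonfree hP hT hc
    rw [← compl_mem_ae_iff]
    filter_upwards [hae] with x hx hcon
    obtain ⟨w, hw, hwx⟩ := hx
    obtain ⟨i, hi⟩ := he ⟨w, hw⟩
    rw [Set.mem_iInter] at hcon
    have h1 := Set.mem_iInter₂.1 (hcon (i + 1)) i (by simp)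
    rw [hi] at h1
    exact h1 hwx
  have htend := tendsto_measure_iInter_atTop (μ := μ) (s := A)
    (fun n => (hAm n).nullMeasurableSet) hanti ⟨0, measure_ne_top _ _⟩
  rw [hzero] at htend
  have hε2 : 0 < ε / 2 := ENNReal.div_pos hε.ne' (by simp)
  obtain ⟨n, hn⟩ := (htend.eventually (gt_mem_nhds hε2)).exists
  set S : Finset (FreeGroup (Fin 2)) := (Finset.range n).image (fun i => (e i).1) with hSdef
  have hS : ∀ w ∈ S, w ≠ 1 := by
    intro w hw
    rw [hSdef, Finset.mem_image] at hw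
    obtain ⟨i, -, rfl⟩ := hw
    exact (e i).2
  obtain ⟨V, hV1, -, hV3⟩ := exists_seq hP hT hc hg1 hg S hS
  have hsum : Tendsto (fun k => ∑ i ∈ Finset.range n, μ (Bad P (V k) \ Bad P (e i).1)) atTop
      (𝓝 0) := by
    have := tendsto_finsetSum (Finset.range n) (fun i hi =>
      hV3 (e i).1 (Finset.mem_image_of_mem _ hi))
    simpa using this
  obtain ⟨k, hk⟩ := (hsum.eventually (gt_mem_nhds hε2)).exists
  refine ⟨V k, hV1 k, ?_⟩
  by_cases htop : ε = ⊤
  · rw [htop]; exact measure_lt_top _ _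
  have hsub : Bad P (V k) ⊆ A n ∪ ⋃ i ∈ Finset.range n, (Bad P (V k) \ Bad P (e i).1) := by
    intro x hx
    by_cases h : x ∈ A n
    · left; exact h
    · right
      simp only [hA, Set.mem_iInter, not_forall] at h
      obtain ⟨i, hi, hxi⟩ := h
      exact Set.mem_iUnion₂.2 ⟨i, hi, hx, hxi⟩
  calc μ (Bad P (V k)) ≤ μ (A n ∪ ⋃ i ∈ Finset.range n, (Bad P (V k) \ Bad P (e i).1)) :=
        measure_mono hsub
    _ ≤ μ (A n) + μ (⋃ i ∈ Finset.range n, (Bad P (V k) \ Bad P (e i).1)) := measure_union_le _ _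
    _ ≤ μ (A n) + ∑ i ∈ Finset.range n, μ (Bad P (V k) \ Bad P (e i).1) := by
        gcongr
        exact measure_biUnion_finset_le _ _
    _ < ε / 2 + ε / 2 := ENNReal.add_lt_add hn hk
    _ = ε := ENNReal.add_halves ε

end

end Pool.Agent.Helper34.FG
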