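import Pool.Agent.Helper34.FG.Mass

/-!
A free group cannot act freely by elements of the full group of a single transformation.
-/

namespace Pool.Agent.Helper34.FG

open Real MeasureTheory FreeGroup Filter

/-- the points of the orbit with trivial stabiliser -/
def FreePt (p : Fin 2 → Equiv.Perm ℤ) : Set ℤ :=
  {k | ∀ z : FreeGroup (Fin 2), z ≠ 1 → FreeGroup.lift p z k ≠ k}

theorem freePt_smul (p : Fin 2 → Equiv.Perm ℤ) (g : FreeGroup (Fin 2)) {k : ℤ}
    (hk : k ∈ FreePt p) : FreeGroup.lift p g k ∈ FreePt p := by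
  intro z hz h
  apply hk (g⁻¹ * z * g)
  · intro h1
    apply hz
    have : z = g * (g⁻¹ * z * g) * g⁻¹ := by group
    rw [this, h1]; group
  · rw [_root_.map_mul, _root_.map_mul, Equiv.Perm.mul_apply, Equiv.Perm.mul_apply, h,
      _root_.map_inv]
    simp

open Classical in
/-- Foelner sets do not exist for free actions of the free group. -/
theorem card_le_of_free {S : Type*} [MulAction (FreeGroup (Fin 2)) S]
    (hfree : ∀ (g : FreeGroup (Fin 2)) (s : S), g • s = s → g = 1) (Fs : Finset S) :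
    Fs.card ≤ 16 * ∑ i : Fin 2, (Fs.filter (fun s => (of i)⁻¹ • s ∉ Fs)).card := by
  rcases Nat.eq_zero_or_pos Fs.card with h0 | hpos
  · rw [h0]; exact Nat.zero_le _
  have hN : (0 : ℝ) < Fs.card := by exact_mod_cast hpos
  set c : ℝ := 1 / Real.sqrt Fs.card with hc
  have hcc : c * c = 1 / Fs.card := by
    rw [hc, div_mul_div_comm, one_mul, Real.mul_self_sqrt hN.le]
  let f : S → ℝ := fun s => if s ∈ Fs then c else 0
  have hfpos : ∀ s ∈ Fs, f s = c := fun s hs => if_pos hs
  have hfneg : ∀ s ∉ Fs, f s = 0 := fun s hs => if_neg hs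
  clear_value f
  have hsupp : f.support ⊆ Fs := by
    intro s hs
    by_contra hcon
    exact hs (hfneg s (fun h => hcon h))
  have hf1 : ∑' s, f s * f s = 1 := by
    rw [tsum_eq_sum (s := Fs)]
    · rw [Finset.sum_congr rfl (g := fun _ => c * c)]
      · rw [Finset.sum_const, nsmul_eq_mul, hcc]
        field_simp
      · intro s hs
        rw [hfpos s hs]
    · intro s hs
      rw [hfneg s hs, mul_zero]
  have hmain := no_almost_invariant hfree f (Fs.finite_toSet.subset hsupp) hf1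
  have hgen : ∀ i : Fin 2, 1 - ∑' s, f ((of i)⁻¹ • s) * f s = (1 / Fs.card) *
      ((Fs.filter (fun s => (of i)⁻¹ • s ∉ Fs)).card : ℝ) := by
    intro i
    have h1 : ∑' s, f ((of i)⁻¹ • s) * f s
        = ∑ s ∈ Fs, (if (of i)⁻¹ • s ∈ Fs then c * c else 0) := by
      rw [tsum_eq_sum (s := Fs)]
      · refine Finset.sum_congr rfl (fun s hs => ?_)
        rw [hfpos s hs]
        by_cases h : (of i)⁻¹ • s ∈ Fs
        · rw [if_pos h, hfpos _ h]
        · rw [if_neg h, hfneg _ h, zero_mul]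
      · intro s hs
        rw [hfneg s hs, mul_zero]
    have h2 : (1 : ℝ) = ∑ s ∈ Fs, c * c := by
      rw [Finset.sum_const, nsmul_eq_mul, hcc]
      field_simp
    have h3 : 1 - ∑' s, f ((of i)⁻¹ • s) * f s
        = ∑ s ∈ Fs, (if (of i)⁻¹ • s ∉ Fs then c * c else 0) := by
      rw [h1]
      conv_lhs => rw [h2]
      rw [← Finset.sum_sub_distrib]
      refine Finset.sum_congr rfl (fun s _ => ?_)
      by_cases h : (of i)⁻¹ • s ∈ Fs
      · rw [if_pos h, if_neg (not_not.2 h), sub_self]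
      · rw [if_neg h, if_pos h, sub_zero]
    rw [h3, Finset.sum_ite, Finset.sum_const_zero, add_zero, Finset.sum_const, nsmul_eq_mul, hcc,
      mul_comm]
  have h5 : (1 : ℝ) / 16 ≤ (1 / Fs.card) * ∑ i : Fin 2,
      ((Fs.filter (fun s => (of i)⁻¹ • s ∉ Fs)).card : ℝ) := by
    rw [Finset.mul_sum]
    exact hmain.trans (Finset.sum_le_sum (fun i _ => (hgen i).le))
  have h6 : (Fs.card : ℝ) ≤ 16 * ∑ i : Fin 2,
      ((Fs.filter (fun s => (of i)⁻¹ • s ∉ Fs)).card : ℝ) := by
    generalize (∑ i : Fin 2, ((Fs.filter (fun s => (of i)⁻¹ • s ∉ Fs)).card : ℝ)) = A at h5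
    generalize (Fs.card : ℝ) = M at h5 hN
    rw [div_le_iff₀ (by norm_num), one_div, mul_assoc, inv_mul_eq_div, le_div_iff₀ hN] at h5
    linarith
  exact_mod_cast h6

/-- the action on the free points of an orbit -/
def FreeS (p : Fin 2 → Equiv.Perm ℤ) : Type := {k : ℤ // k ∈ FreePt p}

instance (p : Fin 2 → Equiv.Perm ℤ) : MulAction (FreeGroup (Fin 2)) (FreeS p) where
  smul := fun g s => ⟨FreeGroup.lift p g s.1, freePt_smul p g s.2⟩
  one_smul := fun s => by
    apply Subtype.ext
    change FreeGroup.lift p 1 s.1 = s.1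
    simp
  mul_smul := fun g h s => by
    apply Subtype.ext
    change FreeGroup.lift p (g * h) s.1 = FreeGroup.lift p g (FreeGroup.lift p h s.1)
    rw [_root_.map_mul]; rfl

theorem freeS_smul (p : Fin 2 → Equiv.Perm ℤ) (g : FreeGroup (Fin 2)) (s : FreeS p) :
    (g • s).1 = FreeGroup.lift p g s.1 := rfl

open Classical in
theorem card_freePt_le (p : Fin 2 → Equiv.Perm ℤ) (n : ℕ) :
    ((Finset.Ico (0 : ℤ) n).filter (fun k => k ∈ FreePt p)).card ≤
      16 * ∑ i : Fin 2, ((Finset.Ico (0 : ℤ) n).filter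
        (fun k => FreeGroup.lift p (FreeGroup.of i)⁻¹ k ∉ Finset.Ico (0 : ℤ) n)).card := by
  have hfree : ∀ (g : FreeGroup (Fin 2)) (s : FreeS p), g • s = s → g = 1 := by
    intro g s hs
    by_contra hg
    exact s.2 g hg (by rw [← freeS_smul, hs])
  set Fs : Finset (FreeS p) := (Finset.Ico (0 : ℤ) n).subtype (fun k => k ∈ FreePt p) with hFsdef
  have hFs : ∀ s : FreeS p, s ∈ Fs ↔ s.1 ∈ Finset.Ico (0 : ℤ) n := fun s => Finset.mem_subtype
  have hcard : Fs.card = ((Finset.Ico (0 : ℤ) n).filter (fun k => k ∈ FreePt p)).card :=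
    Finset.card_subtype _ _
  rw [← hcard]
  refine (card_le_of_free hfree Fs).trans ?_
  apply Nat.mul_le_mul_left
  apply Finset.sum_le_sum
  intro i _
  refine Finset.card_le_card_of_injOn (fun s => s.1) ?_ ?_
  · intro s hs
    have hs' := Finset.mem_filter.1 hs
    refine Finset.mem_coe.2 (Finset.mem_filter.2 ⟨(hFs s).1 hs'.1, ?_⟩)
    intro h5
    exact hs'.2 ((hFs _).2 h5)
  · intro s _ t _ hst
    exact Subtype.ext hst

variable {X : Type*} [MeasurableSpace X] {μ : Measure X} {T : Equiv.Perm X} {c : Fin 2 → X → ℤ}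
  {P : X → Fin 2 → Equiv.Perm ℤ}

theorem measurable_free (hP : ∀ x i k, P x i k = k + c i ((T ^ k) x))
    (hT : ∀ k : ℤ, Measurable (T ^ k : Equiv.Perm X))
    (hc : ∀ i, Measurable (c i)) : MeasurableSet {x | (0 : ℤ) ∈ FreePt (P x)} := by
  have hcnt : Countable (FreeGroup (Fin 2)) := by
    unfold FreeGroup
    infer_instance
  have h1 : {x | (0 : ℤ) ∈ FreePt (P x)} = ⋂ z : {z : FreeGroup (Fin 2) // z ≠ 1}, Bad P z.1 := by
    ext x
    simp only [FreePt, Bad, Set.mem_ofPred_eq, Set.mem_iInter, Subtype.forall]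
  rw [h1]
  exact MeasurableSet.iInter (fun z => measurable_bad hP hT hc z.1)

omit [MeasurableSpace X] in
theorem shift_free (hP : ∀ x i k, P x i k = k + c i ((T ^ k) x)) (x : X) (k : ℤ) :
    k ∈ FreePt (P x) ↔ (0 : ℤ) ∈ FreePt (P ((T ^ k) x)) := by
  unfold FreePt
  simp only [Set.mem_ofPred_eq]
  apply forall_congr'
  intro z
  rw [pi_shift hP, zero_add]
  constructor
  · intro h hz h2
    exact h hz (by omega)
  · intro h hz h2
    exact h hz (by omega)

theorem lintegral_count (s : Finset ℤ) (A : ℤ → Set X) (hA : ∀ k, MeasurableSet (A k)) :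
    ∫⁻ x, ∑ k ∈ s, (A k).indicator (fun _ => (1 : ENNReal)) x ∂μ = ∑ k ∈ s, μ (A k) := by
  rw [lintegral_finsetSum _ (fun k _ => measurable_const.indicator (hA k))]
  refine Finset.sum_congr rfl (fun k _ => ?_)
  rw [lintegral_indicator (hA k)]
  simp

open Classical in
omit [MeasurableSpace X] in
theorem sum_indicator_eq_card (s : Finset ℤ) (A : ℤ → Set X) (x : X) :
    ∑ k ∈ s, (A k).indicator (fun _ => (1 : ENNReal)) x = (s.filter (fun k => x ∈ A k)).card := by
  simp only [Set.indicator_apply]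
  rw [Finset.sum_ite, Finset.sum_const_zero, add_zero, Finset.sum_const, nsmul_eq_mul, mul_one]

theorem ae_nonfree [IsProbabilityMeasure μ] (hP : ∀ x i k, P x i k = k + c i ((T ^ k) x))
    (hT : ∀ k : ℤ, MeasurePreserving (T ^ k : Equiv.Perm X) μ μ)
    (hc : ∀ i, Measurable (c i)) :
    ∀ᵐ x ∂μ, ∃ z : FreeGroup (Fin 2), z ≠ 1 ∧ FreeGroup.lift (P x) z 0 = 0 := by
  classical
  set Xf : Set X := {x | (0 : ℤ) ∈ FreePt (P x)} with hXf
  have hXm : MeasurableSet Xf := measurable_free hP (fun k => (hT k).measurable) hc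
  suffices hz : μ Xf = 0 by
    have h1 := measure_eq_zero_iff_ae_notMem.1 hz
    filter_upwards [h1] with x hx
    simp only [hXf, FreePt, Set.mem_ofPred_eq, not_forall] at hx
    obtain ⟨z, hz1, hz2⟩ := hx
    exact ⟨z, hz1, by simpa using hz2⟩
  by_contra hne
  have hpos : 0 < (μ Xf).toReal := ENNReal.toReal_pos hne (measure_ne_top _ _)
  set m : ℝ := (μ Xf).toReal with hm
  let c' : Fin 2 → X → ℤ := fun i x => FreeGroup.lift (P x) (FreeGroup.of i)⁻¹ 0
  have hc' : ∀ i, Measurable (c' i) := fun i =>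
    measurable_pi hP (fun k => (hT k).measurable) hc (FreeGroup.of i)⁻¹ 0
  -- tails
  have htail : ∀ i, ∃ L : ℕ, (μ {x | (L : ℤ) ≤ |c' i x|}).toReal < m / 100 := by
    intro i
    have hanti : Antitone (fun L : ℕ => {x | (L : ℤ) ≤ |c' i x|}) := by
      intro a b hab x hx
      simp only [Set.mem_ofPred_eq] at hx ⊢
      exact le_trans (by exact_mod_cast hab) hx
    have hmeas : ∀ L : ℕ, MeasurableSet {x | (L : ℤ) ≤ |c' i x|} := by
      intro L
      exact (hc' i) (Set.to_countable {k : ℤ | (L : ℤ) ≤ |k|}).measurableSet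
    have hempty : ⋂ L : ℕ, {x | (L : ℤ) ≤ |c' i x|} = ∅ := by
      ext x
      simp only [Set.mem_iInter, Set.mem_ofPred_eq, Set.mem_empty_iff_false, iff_false, not_forall]
      exact ⟨(|c' i x|).toNat + 1, by omega⟩
    have htend := tendsto_measure_iInter_atTop (μ := μ)
      (fun L => (hmeas L).nullMeasurableSet) hanti ⟨0, measure_ne_top _ _⟩
    rw [hempty, measure_empty] at htend
    have h2 := (ENNReal.tendsto_toReal (by simp)).comp htend
    simp only [ENNReal.toReal_zero] at h2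
    have h3 := h2.eventually (gt_mem_nhds (show (0 : ℝ) < m / 100 by positivity))
    exact h3.exists
  choose L hL using htail
  set L0 : ℕ := max (L 0) (L 1) with hL0
  have hL' : ∀ i, (μ {x | (L0 : ℤ) ≤ |c' i x|}).toReal < m / 100 := by
    intro i
    refine lt_of_le_of_lt ?_ (hL i)
    apply ENNReal.toReal_mono (measure_ne_top _ _)
    apply measure_mono
    intro x hx
    simp only [Set.mem_ofPred_eq] at hx ⊢
    have h1 : L i ≤ L0 := by
      fin_cases i
      · exact le_max_left _ _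
      · exact le_max_right _ _
    exact le_trans (by exact_mod_cast h1) hx
  obtain ⟨n, hn⟩ := exists_nat_gt (200 * (L0 : ℝ) / m)
  have hn' : 200 * (L0 : ℝ) < m * n := by
    rw [div_lt_iff₀ hpos] at hn
    linarith
  -- the counting inequality, integrated
  have hint : ∑ k ∈ Finset.Ico (0 : ℤ) n, μ {x | (T ^ k) x ∈ Xf}
      ≤ 16 * ∑ i : Fin 2, ∑ k ∈ Finset.Ico (0 : ℤ) n,
        μ {x | FreeGroup.lift (P x) (FreeGroup.of i)⁻¹ k ∉ Finset.Ico (0 : ℤ) n} := by
    have hA : ∀ k : ℤ, MeasurableSet {x | (T ^ k) x ∈ Xf} := fun k => (hT k).measurable hXm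
    have hB : ∀ (i : Fin 2) (k : ℤ), MeasurableSet
        {x | FreeGroup.lift (P x) (FreeGroup.of i)⁻¹ k ∉ Finset.Ico (0 : ℤ) n} := by
      intro i k
      exact (measurable_pi hP (fun k => (hT k).measurable) hc (FreeGroup.of i)⁻¹ k)
        (Set.to_countable {j : ℤ | j ∉ Finset.Ico (0 : ℤ) n}).measurableSet
    rw [← lintegral_count (μ := μ) _ _ hA]
    simp_rw [← lintegral_count (μ := μ) (Finset.Ico (0 : ℤ) n) _ (hB _)]
    rw [← lintegral_finsetSum _ (fun i _ => Finset.measurable_sum _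
      (fun k _ => measurable_const.indicator (hB i k))), ← lintegral_const_mul' _ _ (by simp)]
    apply lintegral_mono
    intro x
    have h2 := card_freePt_le (P x) n
    simp only
    rw [sum_indicator_eq_card]
    simp_rw [sum_indicator_eq_card]
    have h3 : (Finset.Ico (0 : ℤ) n).filter (fun k => x ∈ {x | (T ^ k) x ∈ Xf})
        = (Finset.Ico (0 : ℤ) n).filter (fun k => k ∈ FreePt (P x)) := by
      apply Finset.filter_congr
      intro k _
      rw [shift_free hP x k]
      rfl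
    rw [h3]
    exact_mod_cast h2
  have hleft : ∑ k ∈ Finset.Ico (0 : ℤ) n, μ {x | (T ^ k) x ∈ Xf} = n * μ Xf := by
    have h1 : ∀ k ∈ Finset.Ico (0 : ℤ) n, μ {x | (T ^ k) x ∈ Xf} = μ Xf := by
      intro k _
      exact (hT k).measure_preimage hXm.nullMeasurableSet
    rw [Finset.sum_congr rfl h1, Finset.sum_const]
    simp
  have hright : ∀ i : Fin 2, ∑ k ∈ Finset.Ico (0 : ℤ) n,
        μ {x | FreeGroup.lift (P x) (FreeGroup.of i)⁻¹ k ∉ Finset.Ico (0 : ℤ) n}
        ≤ 2 * L0 + n * μ {x | (L0 : ℤ) ≤ |c' i x|} := by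
    intro i
    have h1 : ∀ k : ℤ, μ {x | FreeGroup.lift (P x) (FreeGroup.of i)⁻¹ k ∉ Finset.Ico (0 : ℤ) n}
        = μ {x | k + c' i x ∉ Finset.Ico (0 : ℤ) n} := by
      intro k
      have h2 : MeasurableSet {x | k + c' i x ∉ Finset.Ico (0 : ℤ) n} :=
        (measurable_const.add (hc' i))
          (Set.to_countable {j : ℤ | j ∉ Finset.Ico (0 : ℤ) n}).measurableSet
      rw [← (hT k).measure_preimage h2.nullMeasurableSet]
      congr 1
      ext x
      simp only [Set.mem_ofPred_eq, Set.mem_preimage, c']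
      rw [pi_shift hP, zero_add]
      have h3 : k + (FreeGroup.lift (P x) (FreeGroup.of i)⁻¹ k - k)
          = FreeGroup.lift (P x) (FreeGroup.of i)⁻¹ k := by ring
      rw [h3]
    simp_rw [h1]
    have h2 : ∀ k ∈ Finset.Ico (0 : ℤ) n, μ {x | k + c' i x ∉ Finset.Ico (0 : ℤ) n}
        ≤ (if k ∈ Finset.Ico (0 : ℤ) L0 ∪ Finset.Ico ((n : ℤ) - L0) n then (1 : ENNReal) else 0)
          + μ {x | (L0 : ℤ) ≤ |c' i x|} := by
      intro k hk
      rw [Finset.mem_Ico] at hk
      split_ifs with h3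
      · exact le_add_of_le_of_nonneg prob_le_one zero_le
      · rw [zero_add]
        apply measure_mono
        intro x hx
        simp only [Set.mem_ofPred_eq, Finset.mem_Ico, not_and_or, not_le, not_lt] at hx ⊢
        rw [Finset.mem_union, Finset.mem_Ico, Finset.mem_Ico] at h3
        rcases hx with hx | hx
        · have := neg_abs_le (c' i x)
          omega
        · have := le_abs_self (c' i x)
          omega
    refine (Finset.sum_le_sum h2).trans ?_
    rw [Finset.sum_add_distrib, Finset.sum_const]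
    have h3 : ∑ k ∈ Finset.Ico (0 : ℤ) n,
        (if k ∈ Finset.Ico (0 : ℤ) L0 ∪ Finset.Ico ((n : ℤ) - L0) n then (1 : ENNReal) else 0)
        ≤ 2 * L0 := by
      rw [Finset.sum_ite, Finset.sum_const_zero, add_zero, Finset.sum_const, nsmul_eq_mul, mul_one]
      have h4 : ((Finset.Ico (0 : ℤ) n).filter
          (fun k => k ∈ Finset.Ico (0 : ℤ) L0 ∪ Finset.Ico ((n : ℤ) - L0) n)).card ≤ 2 * L0 := by
        refine (Finset.card_le_card (t := Finset.Ico (0 : ℤ) L0 ∪ Finset.Ico ((n : ℤ) - L0) n)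
          ?_).trans ?_
        · intro k hk
          exact (Finset.mem_filter.1 hk).2
        · refine (Finset.card_union_le _ _).trans ?_
          simp
          omega
      exact_mod_cast h4
    have h5 : (Finset.Ico (0 : ℤ) n).card = n := by simp
    rw [h5, nsmul_eq_mul]
    gcongr
  rw [hleft] at hint
  have hint2 : (n : ENNReal) * μ Xf ≤ 16 * ∑ i : Fin 2, (2 * L0 + n * μ {x | (L0 : ℤ) ≤ |c' i x|}) :=
    hint.trans (by gcongr with i _; exact hright i)
  have hreal : (n : ℝ) * m ≤ 16 * ∑ i : Fin 2, (2 * (L0 : ℝ)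
      + n * (μ {x | (L0 : ℤ) ≤ |c' i x|}).toReal) := by
    have h1 := ENNReal.toReal_mono (by
      refine ENNReal.mul_ne_top (by simp) (ENNReal.sum_ne_top.2 (fun i _ => ?_))
      exact ENNReal.add_ne_top.2 ⟨ENNReal.mul_ne_top (by simp) (by simp),
        ENNReal.mul_ne_top (by simp) (measure_ne_top _ _)⟩) hint2
    rw [ENNReal.toReal_mul, ENNReal.toReal_natCast, ENNReal.toReal_mul,
      ENNReal.toReal_sum (fun i _ => ENNReal.add_ne_top.2 ⟨ENNReal.mul_ne_top (by simp) (by simp),
        ENNReal.mul_ne_top (by simp) (measure_ne_top _ _)⟩)] at h1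
    refine h1.trans (le_of_eq ?_)
    congr 1
    refine Finset.sum_congr rfl (fun i _ => ?_)
    rw [ENNReal.toReal_add (ENNReal.mul_ne_top (by simp) (by simp))
      (ENNReal.mul_ne_top (by simp) (measure_ne_top _ _)), ENNReal.toReal_mul,
      ENNReal.toReal_mul]
    simp
  rw [Fin.sum_univ_two] at hreal
  have e0 := hL' 0
  have e1 := hL' 1
  have hn0 : (0 : ℝ) ≤ n := Nat.cast_nonneg n
  nlinarith

end Pool.Agent.Helper34.FG
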