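import Pool.Agent.Helper34.FG.Comb
import Pool.Agent.Helper34.FG.Energy

/-!
Stationary pairs of permutations of the integers with integrable displacement.
-/

namespace Pool.Agent.Helper34.FG

open Real MeasureTheory FreeGroup Filter

variable {X : Type*}

theorem zpow_zpow_apply (T : Equiv.Perm X) (k j : ℤ) (x : X) :
    (T ^ k) ((T ^ j) x) = (T ^ (k + j)) x := by
  rw [zpow_add]; rfl

theorem pi_shift {T : Equiv.Perm X} {c : Fin 2 → X → ℤ} {P : X → Fin 2 → Equiv.Perm ℤ}
    (hP : ∀ x i k, P x i k = k + c i ((T ^ k) x)) (w : FreeGroup (Fin 2)) (x : X) (j k : ℤ) :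
    FreeGroup.lift (P ((T ^ j) x)) w k = FreeGroup.lift (P x) w (k + j) - j := by
  have h1 : FreeGroup.lift (P ((T ^ j) x))
      = (MulAut.conj (Equiv.addRight (-j) : Equiv.Perm ℤ)).toMonoidHom.comp
        (FreeGroup.lift (P x)) := by
    apply FreeGroup.ext_hom
    intro i
    ext k
    simp only [FreeGroup.lift_apply_of, MonoidHom.comp_apply, MulEquiv.coe_toMonoidHom,
      MulAut.conj_apply, Equiv.Perm.mul_apply]
    have h2 : ((Equiv.addRight (-j) : Equiv.Perm ℤ)⁻¹ : Equiv.Perm ℤ) k = k + j := by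
      rw [Equiv.Perm.inv_eq_iff_eq]
      simp
    rw [h2, hP, hP, zpow_zpow_apply]
    simp
    ring
  rw [h1]
  simp only [MonoidHom.comp_apply, MulEquiv.coe_toMonoidHom,
      MulAut.conj_apply, Equiv.Perm.mul_apply]
  have h2 : ((Equiv.addRight (-j) : Equiv.Perm ℤ)⁻¹ : Equiv.Perm ℤ) k = k + j := by
    rw [Equiv.Perm.inv_eq_iff_eq]
    simp
  rw [h2]
  simp
  ring

theorem measurable_pi [MeasurableSpace X] {T : Equiv.Perm X} {c : Fin 2 → X → ℤ}
    {P : X → Fin 2 → Equiv.Perm ℤ}
    (hP : ∀ x i k, P x i k = k + c i ((T ^ k) x)) (hT : ∀ k : ℤ, Measurable (T ^ k : Equiv.Perm X))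
    (hc : ∀ i, Measurable (c i)) (w : FreeGroup (Fin 2)) :
    ∀ k : ℤ, Measurable (fun x => FreeGroup.lift (P x) w k) := by
  induction w using FreeGroup.induction_on with
  | C1 => intro k; simp
  | of i =>
    intro k
    simp only [FreeGroup.lift_apply_of, hP]
    exact measurable_const.add ((hc i).comp (hT k))
  | inv_of i h =>
    intro k
    apply measurable_to_countable'
    intro m
    have h1 : (fun x => (FreeGroup.lift (P x) (FreeGroup.of i)⁻¹) k) ⁻¹' {m}
        = (fun x => FreeGroup.lift (P x) (FreeGroup.of i) m) ⁻¹' {k} := by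
      ext x
      simp only [Set.mem_preimage, Set.mem_singleton_iff, _root_.map_inv]
      rw [Equiv.Perm.inv_eq_iff_eq, eq_comm]
    rw [h1]
    exact h m (measurableSet_singleton k)
  | mul w₁ w₂ h₁ h₂ =>
    intro k
    apply measurable_to_countable'
    intro m
    have h1 : (fun x => (FreeGroup.lift (P x) (w₁ * w₂)) k) ⁻¹' {m}
        = ⋃ j : ℤ, ((fun x => FreeGroup.lift (P x) w₂ k) ⁻¹' {j}
          ∩ (fun x => FreeGroup.lift (P x) w₁ j) ⁻¹' {m}) := by
      ext x
      simp only [Set.mem_preimage, Set.mem_singleton_iff, _root_.map_mul, Set.mem_iUnion,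
        Set.mem_inter_iff, Equiv.Perm.mul_apply]
      constructor
      · intro h; exact ⟨_, rfl, h⟩
      · rintro ⟨j, rfl, h⟩; exact h
    rw [h1]
    exact MeasurableSet.iUnion (fun j => (h₂ k (measurableSet_singleton j)).inter
      (h₁ j (measurableSet_singleton m)))

/-- the total energy at scale `n` -/
noncomputable def energy (T : Equiv.Perm X) (c : Fin 2 → X → ℤ) (n : ℕ) (x : X) : ENNReal :=
  ∑ i : Fin 2, ∑' k : ℤ, term n (c i ((T ^ k) x)) k

theorem exists_of_energy {T : Equiv.Perm X} {c : Fin 2 → X → ℤ} {P : X → Fin 2 → Equiv.Perm ℤ}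
    (hP : ∀ x i k, P x i k = k + c i ((T ^ k) x)) {n : ℕ} (hn : 0 < n) {x : X}
    (hx : energy T c n x < ENNReal.ofReal (1 / 8)) :
    ∃ w : FreeGroup (Fin 2), w ≠ 1 ∧ ∃ E : Set ℤ, (symmDiff E HL).Finite ∧
      (FreeGroup.lift (P x) w) '' E = E := by
  classical
  have hle : ∀ i : Fin 2, ∑' k : ℤ, term n (c i ((T ^ k) x)) k ≤ energy T c n x := by
    intro i
    unfold energy
    exact Finset.single_le_sum (f := fun i : Fin 2 => ∑' k : ℤ, term n (c i ((T ^ k) x)) k)
      (fun _ _ => zero_le) (Finset.mem_univ i)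
  have hne : ∀ i : Fin 2, ∑' k : ℤ, term n (c i ((T ^ k) x)) k ≠ ⊤ := by
    intro i
    exact ((hle i).trans_lt (hx.trans ENNReal.ofReal_lt_top)).ne
  have hcut : ∀ i, P x i ∈ FinCut := by
    intro i
    change (symmDiff ((P x i) '' HL) HL).Finite
    have hpos : (0 : ℝ) < (π / 4) ^ 2 := by have := pi_pos; positivity
    have hfin := ENNReal.finite_const_le_of_tsum_ne_top (hne i)
      (ε := ENNReal.ofReal ((π / 4) ^ 2)) (by simp)
    have hfin2 : ({k : ℤ | ¬ (0 ≤ k ↔ 0 ≤ P x i k)}).Finite := by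
      refine Set.Finite.subset (hfin.union (Finset.Icc (-(n : ℤ)) n).finite_toSet) ?_
      intro k hk
      simp only [Set.mem_ofPred_eq] at hk
      simp only [Set.mem_union, Set.mem_ofPred_eq, Finset.coe_Icc, Set.mem_Icc]
      by_cases hkn : -(n : ℤ) ≤ k ∧ k ≤ n
      · right; exact hkn
      · left
        rw [not_and_or, not_le, not_le] at hkn
        unfold term
        apply ENNReal.ofReal_le_ofReal
        rw [← hP]
        have hpi := pi_pos
        rcases hkn with h | h
        · have h1 : 0 ≤ P x i k := by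
            by_contra h1
            exact hk ⟨fun h2 => by omega, fun h2 => absurd h2 h1⟩
          rw [ang_of_le hn h.le, sub_zero]
          have := ang_ge_of_nonneg hn h1
          gcongr
        · have h1 : P x i k < 0 := by
            by_contra h1
            exact hk ⟨fun _ => not_lt.1 h1, fun _ => by omega⟩
          rw [ang_of_ge hn h.le]
          have h2 := ang_le_of_neg hn h1
          have h3 := ang_nonneg hn (P x i k)
          nlinarith
    have hsub : symmDiff ((P x i) '' HL) HL ⊆ (P x i) '' {k : ℤ | ¬ (0 ≤ k ↔ 0 ≤ P x i k)} := by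
      intro k hk
      refine ⟨(P x i)⁻¹ k, ?_, by simp⟩
      have hk2 : (P x i) ((P x i)⁻¹ k) = k := by simp
      simp only [Set.mem_ofPred_eq, hk2]
      intro hcon
      have h1 : k ∈ (P x i) '' HL ↔ 0 ≤ (P x i)⁻¹ k := by
        constructor
        · rintro ⟨j, hj, rfl⟩
          have hj' : (0 : ℤ) ≤ j := hj
          simpa using hj'
        · intro hj
          exact ⟨_, hj, by simp⟩
      rw [← h1] at hcon
      rcases hk with ⟨h2, h3⟩ | ⟨h2, h3⟩
      · exact h3 (hcon.1 h2)
      · exact h3 (hcon.2 h2)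
    exact (hfin2.image _).subset hsub
  refine exists_fixed (P x) hcut (ang n) (ang_nonneg hn) (ang_le hn) _ (adm_ang hn) ?_
  intro V
  have h1 : ENNReal.ofReal (∑ i : Fin 2, ∑ k ∈ V,
      (ang n (((P x i)⁻¹ : Equiv.Perm ℤ) k) - ang n k) ^ 2) ≤ energy T c n x := by
    rw [ENNReal.ofReal_sum_of_nonneg (fun i _ => Finset.sum_nonneg (fun k _ => sq_nonneg _))]
    unfold energy
    apply Finset.sum_le_sum
    intro i _
    rw [ENNReal.ofReal_sum_of_nonneg (fun k _ => sq_nonneg _)]
    have h2 : ∀ k, ENNReal.ofReal ((ang n (((P x i)⁻¹ : Equiv.Perm ℤ) k) - ang n k) ^ 2)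
        = (fun j => term n (c i ((T ^ j) x)) j) (((P x i)⁻¹ : Equiv.Perm ℤ) k) := by
      intro k
      unfold term
      simp only
      have hk2 : (P x i) ((P x i)⁻¹ k) = k := by simp
      rw [← hP, hk2]
      congr 1
      ring
    simp_rw [h2]
    refine (ENNReal.sum_le_tsum V).trans ?_
    rw [((P x i)⁻¹ : Equiv.Perm ℤ).tsum_eq (fun j => term n (c i ((T ^ j) x)) j)]
  have h2 := h1.trans_lt hx
  rwa [ENNReal.ofReal_lt_ofReal_iff (by norm_num)] at h2

variable [MeasurableSpace X]

theorem measurable_term {c : X → ℤ} (hc : Measurable c) (n : ℕ) (k : ℤ) :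
    Measurable (fun x => term n (c x) k) :=
  (measurable_of_countable (fun j : ℤ => term n j k)).comp hc

theorem lintegral_energy_le {μ : Measure X} {T : Equiv.Perm X} {c : Fin 2 → X → ℤ}
    (hT : ∀ k : ℤ, MeasurePreserving (T ^ k : Equiv.Perm X) μ μ)
    (hc : ∀ i, Measurable (c i)) {n : ℕ} (hn : 0 < n) :
    ∫⁻ x, energy T c n x ∂μ ≤ ∑ i : Fin 2, ∫⁻ x, ENNReal.ofReal (bnd n (c i x)) ∂μ := by
  unfold energy
  have hm : ∀ (i : Fin 2) (k : ℤ), Measurable (fun x => term n (c i ((T ^ k) x)) k) := by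
    intro i k
    exact (measurable_term (hc i) n k).comp (hT k).measurable
  rw [lintegral_finsetSum _ (fun i _ => Measurable.tsum (fun k => hm i k))]
  apply Finset.sum_le_sum
  intro i _
  rw [lintegral_tsum (fun k => (hm i k).aemeasurable)]
  have h1 : ∀ k : ℤ, ∫⁻ x, term n (c i ((T ^ k) x)) k ∂μ = ∫⁻ x, term n (c i x) k ∂μ := by
    intro k
    exact (hT k).lintegral_comp (measurable_term (hc i) n k)
  simp_rw [h1]
  rw [← lintegral_tsum (fun k => (measurable_term (hc i) n k).aemeasurable)]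
  apply lintegral_mono
  intro x
  exact tsum_term_le hn (c i x)

theorem tendsto_bound {μ : Measure X} {c : X → ℤ} (hc : Measurable c)
    (hi : Integrable (fun x => (c x : ℝ)) μ) :
    Tendsto (fun n : ℕ => ∫⁻ x, ENNReal.ofReal (bnd n (c x)) ∂μ) atTop (nhds 0) := by
  have h0 : ∫⁻ _ : X, (0 : ENNReal) ∂μ = 0 := by simp
  rw [← h0]
  refine tendsto_lintegral_filter_of_dominated_convergence
    (fun x => ENNReal.ofReal (16 * |(c x : ℝ)|)) ?_ ?_ ?_ ?_
  · refine Eventually.of_forall (fun n => ?_)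
    exact (measurable_of_countable (fun j : ℤ => ENNReal.ofReal (bnd n j))).comp hc
  · filter_upwards [eventually_gt_atTop 0] with n hn
    refine Eventually.of_forall (fun x => ?_)
    exact ENNReal.ofReal_le_ofReal (bnd_le hn _)
  · have h1 : Integrable (fun x => 16 * |(c x : ℝ)|) μ := hi.abs.const_mul 16
    exact (hasFiniteIntegral_iff_ofReal (Eventually.of_forall (fun x => by positivity))).1 h1.2 |>.ne
  · refine Eventually.of_forall (fun x => ?_)
    rw [← ENNReal.ofReal_zero]
    exact (ENNReal.continuous_ofReal.tendsto 0).comp (tendsto_bnd (c x))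

theorem ae_exists_fixed {μ : Measure X} {T : Equiv.Perm X} {c : Fin 2 → X → ℤ}
    {P : X → Fin 2 → Equiv.Perm ℤ}
    (hP : ∀ x i k, P x i k = k + c i ((T ^ k) x))
    (hT : ∀ k : ℤ, MeasurePreserving (T ^ k : Equiv.Perm X) μ μ)
    (hc : ∀ i, Measurable (c i)) (hi : ∀ i, Integrable (fun x => (c i x : ℝ)) μ) :
    ∀ᵐ x ∂μ, ∃ w : FreeGroup (Fin 2), w ≠ 1 ∧ ∃ E : Set ℤ, (symmDiff E HL).Finite ∧
      (FreeGroup.lift (P x) w) '' E = E := by
  have hlim : Tendsto (fun n : ℕ => ∑ i : Fin 2, ∫⁻ x, ENNReal.ofReal (bnd n (c i x)) ∂μ) atTop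
      (nhds 0) := by
    have := tendsto_finsetSum (Finset.univ : Finset (Fin 2))
      (fun i _ => tendsto_bound (hc i) (hi i))
    simpa using this
  have hmeas : ∀ n, Measurable (fun x => energy T c n x) := by
    intro n
    unfold energy
    refine Finset.measurable_sum _ (fun i _ => Measurable.tsum (fun k => ?_))
    exact (measurable_term (hc i) n k).comp (hT k).measurable
  set B : Set X := {x | ∀ n : ℕ, 0 < n → ENNReal.ofReal (1 / 8) ≤ energy T c n x} with hB
  have hle : ∀ n : ℕ, 0 < n → ENNReal.ofReal (1 / 8) * μ B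
      ≤ ∑ i : Fin 2, ∫⁻ x, ENNReal.ofReal (bnd n (c i x)) ∂μ := by
    intro n hn
    refine le_trans ?_ (lintegral_energy_le hT hc hn)
    refine le_trans ?_ (mul_meas_ge_le_lintegral (hmeas n) (ENNReal.ofReal (1 / 8)))
    gcongr
    intro x hx
    exact hx n hn
  have hz : ENNReal.ofReal (1 / 8) * μ B ≤ 0 := by
    refine ge_of_tendsto hlim ?_
    filter_upwards [eventually_gt_atTop 0] with n hn
    exact hle n hn
  have hz2 : μ B = 0 := by
    have h1 : ENNReal.ofReal (1 / 8) * μ B = 0 := le_antisymm hz zero_le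
    rcases mul_eq_zero.1 h1 with h | h
    · exfalso
      have : (0 : ℝ) < 1 / 8 := by norm_num
      rw [ENNReal.ofReal_eq_zero] at h
      linarith
    · exact h
  have hae : ∀ᵐ x ∂μ, x ∉ B := measure_eq_zero_iff_ae_notMem.1 hz2
  filter_upwards [hae] with x hx
  rw [hB] at hx
  simp only [Set.mem_ofPred_eq, not_forall, not_le] at hx
  obtain ⟨n, hn, hxn⟩ := hx
  exact exists_of_energy hP hn hxn

end Pool.Agent.Helper34.FG
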