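import Pool.Agent.Helper34.FG.Near
import Pool.Agent.Helper34.FG.LinkU

/-!
Discreteness in the uniform topology and in the weak topology.
-/

namespace Pool.Agent.Helper34.FG

open MeasureTheory FreeGroup Filter Topology

/-- from a word with small moved set to a word with small moved set and small phases -/
theorem phases_of_small {X : Type*} [MeasurableSpace X] {B : Type*} [NormedRing B] [StarRing B]
    [CStarRing B] [NormedAlgebra ℂ B] [FiniteDimensional ℂ B] {μ : Measure X}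
    [IsProbabilityMeasure μ] {T : Equiv.Perm X} {c : Fin 2 → X → ℤ}
    {P : X → Fin 2 → Equiv.Perm ℤ}
    (hP : ∀ x i k, P x i k = k + c i ((T ^ k) x))
    (hTk : ∀ k : ℤ, MeasurePreserving (T ^ k : Equiv.Perm X) μ μ) (hc : ∀ i, Measurable (c i))
    {θ : Fin 2 → X → unitary B} {ρ : FreeGroup (Fin 2) →* Equiv.Perm (X × unitary B)}
    (hρ : ∀ i x z, ρ (FreeGroup.of i) (x, z) = ((T ^ (c i x)) x, θ i x * z))
    (hsmall : ∀ ε : ENNReal, 0 < ε → ∃ Q : FreeGroup (Fin 2), Q ≠ 1 ∧ μ (Bad P Q) < ε) :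
    ∀ ε : ℝ, 0 < ε → ∃ w : FreeGroup (Fin 2), w ≠ 1 ∧
      μ {x | ¬ ∃ a : unitary B, ‖(a : B) - 1‖ < ε ∧ ∀ z, ρ w (x, z) = (x, a * z)}
        < ENNReal.ofReal ε := by
  intro ε hε
  have hε2 : 0 < ENNReal.ofReal ε / 2 := ENNReal.div_pos (by simpa using hε) (by simp)
  obtain ⟨Q, hQ1, hQ⟩ := hsmall _ hε2
  obtain ⟨k, hk⟩ := exists_not_commute Q Q hQ1 hQ1
  set H : Subgroup (FreeGroup (Fin 2)) := Subgroup.closure {Q, k * Q * k⁻¹} with hH
  have hQH : Q ∈ H := Subgroup.subset_closure (by simp)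
  have hQH' : k * Q * k⁻¹ ∈ H := Subgroup.subset_closure (by simp)
  have hncomm : ¬ Commute (⟨Q, hQH⟩ : H) ⟨k * Q * k⁻¹, hQH'⟩ := by
    intro h
    exact hk (h.map H.subtype)
  have hNC := fun u v hu hv => subgroup_exists_not_commute H hncomm u v hu hv
  have htf : ∀ u : H, u ≠ 1 → ∀ n : ℕ, 0 < n → u ^ n ≠ 1 := by
    intro u hu n hn h
    apply hu
    have h1 : (u : FreeGroup (Fin 2)) ^ n = 1 := by
      rw [← Subgroup.coe_pow, h]; rfl
    have h2 := (pow_eq_one_iff_left hn.ne').1 h1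
    exact Subtype.ext h2
  have hne : ∃ u : H, u ≠ 1 := ⟨⟨Q, hQH⟩, fun h => hQ1 (congrArg Subtype.val h)⟩
  obtain ⟨N, hN⟩ := unitary_pow_close (B := B)
  obtain ⟨w, hw1, hw⟩ := almost_law (isLen_unitary (B := B)) hNC htf hne N hN
    (show (0 : ℝ) < ε / 2 by linarith)
  refine ⟨w, fun h => hw1 (Subtype.ext h), ?_⟩
  have hsub : {x | ¬ ∃ a : unitary B, ‖(a : B) - 1‖ < ε ∧ ∀ z, ρ w (x, z) = (x, a * z)}
      ⊆ Bad P Q ∪ Bad P (k * Q * k⁻¹) := by
    intro x hx
    by_contra hcon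
    simp only [Set.mem_union, not_or] at hcon
    apply hx
    have hle : H ≤ stab P x := by
      rw [hH, Subgroup.closure_le]
      intro y hy
      rcases hy with rfl | rfl
      · exact hcon.1
      · exact hcon.2
    have h1 := hw ((phase hP hρ x).comp (Subgroup.inclusion hle))
    refine ⟨(ρ w.1 (x, 1)).2, ?_, fun z => ?_⟩
    · refine lt_of_le_of_lt h1 ?_
      linarith
    · exact eq_mul_of_notMem_bad hP hρ (hle w.2) z
  have hconj := measure_bad_conj (μ := μ) hP hTk hc k Q (D := Set.univ) MeasurableSet.univ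
    (by simp)
  simp only [Set.inter_univ] at hconj
  calc μ {x | ¬ ∃ a : unitary B, ‖(a : B) - 1‖ < ε ∧ ∀ z, ρ w (x, z) = (x, a * z)}
      ≤ μ (Bad P Q ∪ Bad P (k * Q * k⁻¹)) := measure_mono hsub
    _ ≤ μ (Bad P Q) + μ (Bad P (k * Q * k⁻¹)) := measure_union_le _ _
    _ = μ (Bad P Q) + μ (Bad P Q) := by rw [hconj]
    _ < ENNReal.ofReal ε / 2 + ENNReal.ofReal ε / 2 := ENNReal.add_lt_add hQ hQ
    _ = ENNReal.ofReal ε := ENNReal.add_halves _

theorem mainW {X : Type*} [MeasurableSpace X] {B : Type*} [NormedRing B] [StarRing B] [CStarRing B]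
    [NormedAlgebra ℂ B] [FiniteDimensional ℂ B] (μ : Measure X) [IsProbabilityMeasure μ]
    (T : Equiv.Perm X) (hT : MeasurePreserving T μ μ) (hT' : Measurable T.symm)
    (c : Fin 2 → X → ℤ) (hc : ∀ i, Measurable (c i))
    (θ : Fin 2 → X → unitary B) (ρ : FreeGroup (Fin 2) →* Equiv.Perm (X × unitary B))
    (hρ : ∀ i x z, ρ (FreeGroup.of i) (x, z) = ((T ^ (c i x)) x, θ i x * z)) :
    (∀ ε : ℝ, 0 < ε → ∃ w : FreeGroup (Fin 2), w ≠ 1 ∧
      μ {x | ¬ ∃ a : unitary B, ‖(a : B) - 1‖ < ε ∧ ∀ z, ρ w (x, z) = (x, a * z)}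
        < ENNReal.ofReal ε) ↔
    (∀ s : Finset (Set X), (∀ D ∈ s, MeasurableSet D) → ∀ δ : ℝ, 0 < δ →
      ∃ w : FreeGroup (Fin 2), w ≠ 1 ∧
        ∀ D ∈ s, μ (symmDiff {x | (ρ w (x, 1)).1 ∈ D} D) < ENNReal.ofReal δ) := by
  classical
  constructor
  · intro h s _ δ hδ
    obtain ⟨w, hw1, hw⟩ := h δ hδ
    refine ⟨w, hw1, fun D _ => lt_of_le_of_lt (measure_mono ?_) hw⟩
    rintro x hx ⟨a, _, ha⟩
    have h1 : (ρ w (x, 1)).1 = x := by rw [ha 1]
    rcases hx with ⟨h2, h3⟩ | ⟨h2, h3⟩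
    · apply h3
      simp only [Set.mem_ofPred_eq, h1] at h2
      exact h2
    · apply h3
      simp only [Set.mem_ofPred_eq, h1]
      exact h2
  · intro h
    let P : X → Fin 2 → Equiv.Perm ℤ := fun x i =>
      Equiv.ofBijective _ (orbit_bijective' (c := c i) (θ := θ i) (s := ρ (FreeGroup.of i))
        (hρ i) x)
    have hP : ∀ x i k, P x i k = k + c i ((T ^ k) x) := fun x i k => rfl
    have hTk := measurePreserving_zpow hT hT'
    have hm := fun w => measurable_bad hP (fun k => (hTk k).measurable) hc w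
    have hbase : ∀ w x, (ρ w (x, 1)).1 = sig T P w x := by
      intro w x
      obtain ⟨z', hz'⟩ := link' hP hρ w x 0 1
      simp only [zpow_zero, Equiv.Perm.coe_one, id_eq] at hz'
      rw [hz']
      rfl
    have hcnt : Countable (FreeGroup (Fin 2)) := by
      unfold FreeGroup
      infer_instance
    obtain ⟨e, he⟩ := exists_surjective_nat (FreeGroup (Fin 2))
    have hseq : ∀ n : ℕ, ∃ w : FreeGroup (Fin 2), w ≠ 1 ∧
        ∀ i ∈ Finset.range n, wd μ P (w⁻¹ * e i * w) (e i) < ENNReal.ofReal (1 / (n + 1)) := by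
      intro n
      obtain ⟨w, hw1, hw2⟩ := h ((Finset.range n).image (fun i => Bad P (e i))) (by
        intro D hD
        obtain ⟨i, _, rfl⟩ := Finset.mem_image.1 hD
        exact hm _) (1 / (n + 1)) (by positivity)
      refine ⟨w, hw1, fun i hi => ?_⟩
      have h1 := hw2 _ (Finset.mem_image_of_mem _ hi)
      unfold wd
      have h2 : Bad P (w⁻¹ * e i * w) = {x | (ρ w (x, 1)).1 ∈ Bad P (e i)} := by
        have h3 := bad_conj hP w⁻¹ (e i)
        rw [inv_inv] at h3
        rw [h3]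
        ext x
        simp only [Set.mem_ofPred_eq, hbase]
      rw [h2]
      exact h1
    choose w hw1 hw2 using hseq
    have hnear : Near μ P (fun n => (w n)⁻¹) := by
      intro u
      obtain ⟨i, rfl⟩ := he u
      have hlim : Tendsto (fun n : ℕ => ENNReal.ofReal (1 / ((n : ℝ) + 1))) atTop (𝓝 0) := by
        have h3 := tendsto_one_div_add_atTop_nhds_zero_nat (𝕜 := ℝ)
        have h4 := (ENNReal.continuous_ofReal.tendsto 0).comp h3
        rw [ENNReal.ofReal_zero] at h4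
        exact h4
      refine tendsto_of_tendsto_of_tendsto_of_le_of_le' tendsto_const_nhds hlim
        (Eventually.of_forall (fun _ => zero_le)) ?_
      filter_upwards [eventually_gt_atTop i] with n hn
      have h5 := hw2 n i (Finset.mem_range.2 hn)
      rw [inv_inv]
      exact h5.le
    exact phases_of_small hP hTk hc hρ (fun ε hε => exists_small_of_near hP hTk hc
      (fun n => inv_ne_one.2 (hw1 n)) hnear hε)

end Pool.Agent.Helper34.FG
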